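import Mathlib

/-!
A counting form of the local lemma for independent choices `a j ∈ W j` avoiding bad triples
(Rosenfeld's counting argument).
-/

set_option autoImplicit false

namespace Pool.Agent.Counting

open Finset

variable {ι α : Type} [Fintype ι] [DecidableEq ι] [DecidableEq α] [Inhabited α]

/-- Assignments supported on `S`, with values in the windows `W`. -/
def A (W : ι → Finset α) (S : Finset ι) : Finset (ι → α) :=
  Fintype.piFinset (fun j => if j ∈ S then W j else {default})

theorem mem_A (W : ι → Finset α) (S : Finset ι) (a : ι → α) :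
    a ∈ A W S ↔ (∀ j ∈ S, a j ∈ W j) ∧ (∀ j ∉ S, a j = default) := by
  unfold A
  rw [Fintype.mem_piFinset]
  constructor
  · intro h
    constructor
    · intro j hj
      have := h j
      simpa [hj] using this
    · intro j hj
      have := h j
      simpa [hj] using this
  · rintro ⟨h1, h2⟩ j
    by_cases hj : j ∈ S
    · simpa [hj] using h1 j hj
    · simpa [hj] using h2 j hj

/-- Assignments supported on `S`, with values in the windows `W`, avoiding all bad triples in `S`. -/
def V (W : ι → Finset α) (bad : ι → ι → ι → (ι → α) → Prop)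
    [∀ p q r a, Decidable (bad p q r a)] (S : Finset ι) : Finset (ι → α) :=
  (A W S).filter
    (fun a => ∀ p ∈ S, ∀ q ∈ S, ∀ r ∈ S, p ≠ q → q ≠ r → p ≠ r → ¬ bad p q r a)

/-- the number of bad choices on a triple -/
def cnt (W : ι → Finset α) (bad : ι → ι → ι → (ι → α) → Prop)
    [∀ p q r a, Decidable (bad p q r a)] (p q r : ι) : ℕ :=
  ((A W {p, q, r}).filter (fun a => bad p q r a)).card

/-- restriction of an assignment to a subset (default outside) -/
def res (S : Finset ι) (a : ι → α) : ι → α := fun j => if j ∈ S then a j else default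

theorem res_apply_mem {S : Finset ι} {a : ι → α} {j : ι} (hj : j ∈ S) : res S a j = a j := by
  simp [res, hj]

theorem res_mem_A {W : ι → Finset α} {S T : Finset ι} {a : ι → α} (ha : a ∈ A W S) (h : T ⊆ S) :
    res T a ∈ A W T := by
  rw [mem_A] at ha ⊢
  constructor
  · intro j hj
    rw [res_apply_mem hj]
    exact ha.1 j (h hj)
  · intro j hj
    simp [res, hj]

theorem main_step (W : ι → Finset α) (bad : ι → ι → ι → (ι → α) → Prop)
    [∀ p q r a, Decidable (bad p q r a)]
    (hloc : ∀ p q r a b, a p = b p → a q = b q → a r = b r → (bad p q r a ↔ bad p q r b))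
    (hsymm : ∀ p q r a, bad p q r a → bad q p r a)
    (hsymm' : ∀ p q r a, bad p q r a → bad p r q a)
    (s : ℕ) (hs : 0 < s) (hW : ∀ j, (W j).card = s)
    (hcnt : ∀ k, 8 * ∑ pq ∈ (univ : Finset (ι × ι)).filter
        (fun pq => pq.1 ≠ pq.2 ∧ pq.1 ≠ k ∧ pq.2 ≠ k), cnt W bad pq.1 pq.2 k ≤ s ^ 3) :
    ∀ (m : ℕ) (S : Finset ι), S.card = m → ∀ k ∉ S,
      s * (V W bad S).card ≤ 2 * (V W bad (insert k S)).card := by
  intro m
  induction m using Nat.strong_induction_on with
  | _ m ih =>
  intro S hS k hk
  -- the extensions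
  let G : Finset (ι → α) := (A W (insert k S)).filter (fun a => res S a ∈ V W bad S)
  have hsub : S ⊆ insert k S := subset_insert k S
  have hGcard : G.card = (V W bad S).card * s := by
    rw [← hW k, ← card_product]
    apply card_bij (fun a _ => (res S a, a k))
    · intro a ha
      rw [mem_filter] at ha
      rw [mem_product]
      refine ⟨ha.2, ?_⟩
      exact ((mem_A W _ a).1 ha.1).1 k (mem_insert_self k S)
    · intro a ha b hb hab
      rw [mem_filter] at ha hb
      simp only [Prod.mk.injEq] at hab
      funext j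
      by_cases hj : j ∈ S
      · have := congrFun hab.1 j
        rwa [res_apply_mem hj, res_apply_mem hj] at this
      · by_cases hjk : j = k
        · rw [hjk]; exact hab.2
        · have hj' : j ∉ insert k S := by simp [hj, hjk]
          rw [((mem_A W _ a).1 ha.1).2 j hj', ((mem_A W _ b).1 hb.1).2 j hj']
    · rintro ⟨b, z⟩ hbz
      rw [mem_product] at hbz
      have hbA : b ∈ A W S := (mem_filter.1 hbz.1).1
      rw [mem_A] at hbA
      let a : ι → α := fun j => if j = k then z else b j
      have hres : res S a = b := by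
        funext j
        by_cases hj : j ∈ S
        · rw [res_apply_mem hj]
          have : j ≠ k := fun h => hk (h ▸ hj)
          simp [a, this]
        · simp only [res, hj, if_false]
          exact (hbA.2 j hj).symm
      refine ⟨a, ?_, ?_⟩
      · rw [mem_filter, mem_A]
        refine ⟨⟨?_, ?_⟩, ?_⟩
        · intro j hj
          by_cases hjk : j = k
          · simp only [a, hjk, if_true]; exact hbz.2
          · have hjS : j ∈ S := by
              rcases mem_insert.1 hj with h | h
              · exact absurd h hjk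
              · exact h
            simp only [a, hjk, if_false]
            exact hbA.1 j hjS
        · intro j hj
          have hjk : j ≠ k := fun h => hj (h ▸ mem_insert_self k S)
          have hjS : j ∉ S := fun h => hj (mem_insert_of_mem h)
          simp only [a, hjk, if_false]
          exact hbA.2 j hjS
        · rw [hres]; exact hbz.1
      · simp only [hres, a, if_true]
  -- bad extensions
  let B : ι × ι → Finset (ι → α) := fun pq => G.filter (fun a => bad pq.1 pq.2 k a)
  let P : Finset (ι × ι) := (univ : Finset (ι × ι)).filter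
        (fun pq => pq.1 ≠ pq.2 ∧ pq.1 ≠ k ∧ pq.2 ≠ k)
  let PS : Finset (ι × ι) := P.filter (fun pq => pq.1 ∈ S ∧ pq.2 ∈ S)
  have hcover : G ⊆ V W bad (insert k S) ∪ PS.biUnion B := by
    intro a ha
    by_cases hV : a ∈ V W bad (insert k S)
    · exact mem_union_left _ hV
    apply mem_union_right
    have haG := ha
    rw [mem_filter] at ha
    obtain ⟨haA, haV⟩ := ha
    have hex : ∃ p ∈ insert k S, ∃ q ∈ insert k S, ∃ r ∈ insert k S, p ≠ q ∧ q ≠ r ∧ p ≠ r ∧
        bad p q r a := by
      by_contra hcon
      push Not at hcon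
      apply hV
      unfold V
      rw [mem_filter]
      exact ⟨haA, fun p hp q hq r hr h1 h2 h3 => hcon p hp q hq r hr h1 h2 h3⟩
    have hnoS : ∀ p ∈ S, ∀ q ∈ S, ∀ r ∈ S, p ≠ q → q ≠ r → p ≠ r → ¬ bad p q r a := by
      intro p hp q hq r hr h1 h2 h3 hbad
      have hh := (mem_filter.1 haV).2 p hp q hq r hr h1 h2 h3
      apply hh
      exact (hloc p q r a (res S a) (res_apply_mem hp).symm (res_apply_mem hq).symm
        (res_apply_mem hr).symm).1 hbad
    have hfin : ∀ p q, p ∈ S → q ∈ S → p ≠ q → bad p q k a → a ∈ PS.biUnion B := by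
      intro p q hp hq hpq hbad
      rw [mem_biUnion]
      refine ⟨(p, q), ?_, ?_⟩
      · simp only [PS, P, mem_filter, mem_univ, true_and]
        exact ⟨⟨hpq, fun h => hk (h ▸ hp), fun h => hk (h ▸ hq)⟩, hp, hq⟩
      · simp only [B, mem_filter]
        exact ⟨haG, hbad⟩
    obtain ⟨p, hp, q, hq, r, hr, hpq, hqr, hpr, hbad⟩ := hex
    rw [mem_insert] at hp hq hr
    by_cases hrk : r = k
    · subst hrk
      have hp' : p ∈ S := hp.resolve_left hpr
      have hq' : q ∈ S := hq.resolve_left hqr
      exact hfin p q hp' hq' hpq hbad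
    · have hr' : r ∈ S := hr.resolve_left hrk
      by_cases hqk : q = k
      · subst hqk
        have hp' : p ∈ S := hp.resolve_left hpq
        exact hfin p r hp' hr' hpr (hsymm' _ _ _ _ hbad)
      · have hq' : q ∈ S := hq.resolve_left hqk
        by_cases hpk : p = k
        · subst hpk
          -- bad k q r → bad q k r → bad q r k
          exact hfin q r hq' hr' hqr (hsymm' _ _ _ _ (hsymm _ _ _ _ hbad))
        · have hp' : p ∈ S := hp.resolve_left hpk
          exact absurd hbad (hnoS p hp' q hq' r hr' hpq hqr hpr)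
  -- counting each bad set
  have hBcard : ∀ pq ∈ PS, s ^ 2 * (B pq).card ≤ 4 * (cnt W bad pq.1 pq.2 k * (V W bad S).card) := by
    rintro ⟨p, q⟩ hpq
    simp only [PS, P, mem_filter, mem_univ, true_and] at hpq
    obtain ⟨⟨hne, hpk, hqk⟩, hpS, hqS⟩ := hpq
    let S2 : Finset ι := (S.erase p).erase q
    have h1 : (B (p, q)).card ≤ cnt W bad p q k * (V W bad S2).card := by
      unfold cnt
      rw [← card_product]
      apply card_le_card_of_injOn (fun a => (res {p, q, k} a, res S2 a))
      · intro a ha
        have ha' : a ∈ B (p, q) := ha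
        simp only [B, G, mem_filter] at ha'
        obtain ⟨⟨haA, haV⟩, hbad⟩ := ha'
        have hT : ({p, q, k} : Finset ι) ⊆ insert k S := by
          intro j hj
          simp only [mem_insert, mem_singleton] at hj
          rcases hj with rfl | rfl | rfl
          · exact mem_insert_of_mem hpS
          · exact mem_insert_of_mem hqS
          · exact mem_insert_self _ _
        have hS2 : S2 ⊆ S := (erase_subset _ _).trans (erase_subset _ _)
        simp only [coe_product, Set.mem_prod, mem_coe]
        constructor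
        · rw [mem_filter]
          refine ⟨res_mem_A haA hT, ?_⟩
          exact (hloc p q k a _ (res_apply_mem (by simp)).symm (res_apply_mem (by simp)).symm
            (res_apply_mem (by simp)).symm).1 hbad
        · unfold V
          rw [mem_filter]
          refine ⟨res_mem_A haA (hS2.trans hsub), ?_⟩
          intro p' hp' q' hq' r' hr' h1 h2 h3 hb
          have hh := (mem_filter.1 haV).2 p' (hS2 hp') q' (hS2 hq') r' (hS2 hr') h1 h2 h3
          apply hh
          refine (hloc p' q' r' (res S2 a) (res S a) ?_ ?_ ?_).1 hb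
          · rw [res_apply_mem hp', res_apply_mem (hS2 hp')]
          · rw [res_apply_mem hq', res_apply_mem (hS2 hq')]
          · rw [res_apply_mem hr', res_apply_mem (hS2 hr')]
      · intro a ha b hb hab
        have ha' : a ∈ B (p, q) := ha
        have hb' : b ∈ B (p, q) := hb
        simp only [B, G, mem_filter] at ha' hb'
        simp only [Prod.mk.injEq] at hab
        funext j
        by_cases hj1 : j ∈ ({p, q, k} : Finset ι)
        · have := congrFun hab.1 j
          rwa [res_apply_mem hj1, res_apply_mem hj1] at this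
        · by_cases hj2 : j ∈ S2
          · have := congrFun hab.2 j
            rwa [res_apply_mem hj2, res_apply_mem hj2] at this
          · have hj' : j ∉ insert k S := by
              simp only [mem_insert, mem_singleton, not_or] at hj1
              intro h
              rcases mem_insert.1 h with h | h
              · exact hj1.2.2 h
              · exact hj2 (mem_erase.2 ⟨hj1.2.1, mem_erase.2 ⟨hj1.1, h⟩⟩)
            rw [((mem_A W _ a).1 ha'.1.1).2 j hj', ((mem_A W _ b).1 hb'.1.1).2 j hj']
    have hqe : q ∈ S.erase p := mem_erase.2 ⟨hne.symm, hqS⟩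
    have hcardpos : 0 < S.card := card_pos.2 ⟨p, hpS⟩
    have hcardpos' : 0 < (S.erase p).card := card_pos.2 ⟨q, hqe⟩
    have hc1 : (S.erase p).card = m - 1 := by rw [card_erase_of_mem hpS, hS]
    have hc2 : S2.card = m - 2 := by
      rw [card_erase_of_mem hqe, hc1]; omega
    have h2 := ih (m - 2) (by omega) S2 hc2 q (notMem_erase q _)
    have h3 := ih (m - 1) (by omega) (S.erase p) hc1 p (notMem_erase p _)
    rw [insert_erase hqe] at h2
    rw [insert_erase hpS] at h3
    calc s ^ 2 * (B (p, q)).card ≤ s ^ 2 * (cnt W bad p q k * (V W bad S2).card) :=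
          Nat.mul_le_mul_left _ h1
      _ = cnt W bad p q k * (s * (s * (V W bad S2).card)) := by ring
      _ ≤ cnt W bad p q k * (s * (2 * (V W bad (S.erase p)).card)) := by
          gcongr
      _ = cnt W bad p q k * (2 * (s * (V W bad (S.erase p)).card)) := by ring
      _ ≤ cnt W bad p q k * (2 * (2 * (V W bad S).card)) := by
          gcongr
      _ = 4 * (cnt W bad p q k * (V W bad S).card) := by ring
  have hG1 : G.card ≤ (V W bad (insert k S)).card + ∑ pq ∈ PS, (B pq).card :=
    (card_le_card hcover).trans ((card_union_le _ _).trans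
      (Nat.add_le_add_left card_biUnion_le _))
  have hsum : s ^ 2 * ∑ pq ∈ PS, (B pq).card ≤
      4 * ((∑ pq ∈ P, cnt W bad pq.1 pq.2 k) * (V W bad S).card) := by
    calc s ^ 2 * ∑ pq ∈ PS, (B pq).card = ∑ pq ∈ PS, s ^ 2 * (B pq).card := by rw [mul_sum]
      _ ≤ ∑ pq ∈ PS, 4 * (cnt W bad pq.1 pq.2 k * (V W bad S).card) := sum_le_sum hBcard
      _ ≤ ∑ pq ∈ P, 4 * (cnt W bad pq.1 pq.2 k * (V W bad S).card) :=
          sum_le_sum_of_subset (filter_subset _ _)
      _ = 4 * ((∑ pq ∈ P, cnt W bad pq.1 pq.2 k) * (V W bad S).card) := by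
          rw [sum_mul, mul_sum]
  have hk' := hcnt k
  have hP : ∑ pq ∈ (univ : Finset (ι × ι)).filter
        (fun pq => pq.1 ≠ pq.2 ∧ pq.1 ≠ k ∧ pq.2 ≠ k), cnt W bad pq.1 pq.2 k =
      ∑ pq ∈ P, cnt W bad pq.1 pq.2 k := rfl
  rw [hP] at hk'
  set sc := ∑ pq ∈ P, cnt W bad pq.1 pq.2 k with hsc
  rw [hGcard] at hG1
  have h5 : 2 * (s ^ 2 * ((V W bad S).card * s)) ≤
      2 * (s ^ 2 * (V W bad (insert k S)).card) + s ^ 3 * (V W bad S).card := by
    calc 2 * (s ^ 2 * ((V W bad S).card * s))
        ≤ 2 * (s ^ 2 * ((V W bad (insert k S)).card + ∑ pq ∈ PS, (B pq).card)) := by gcongr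
      _ = 2 * (s ^ 2 * (V W bad (insert k S)).card) + 2 * (s ^ 2 * ∑ pq ∈ PS, (B pq).card) := by
          ring
      _ ≤ 2 * (s ^ 2 * (V W bad (insert k S)).card) + 2 * (4 * (sc * (V W bad S).card)) := by
          gcongr
      _ = 2 * (s ^ 2 * (V W bad (insert k S)).card) + (8 * sc) * (V W bad S).card := by ring
      _ ≤ 2 * (s ^ 2 * (V W bad (insert k S)).card) + s ^ 3 * (V W bad S).card := by gcongr
  have h6 : s ^ 2 * (s * (V W bad S).card) ≤ s ^ 2 * (2 * (V W bad (insert k S)).card) := by
    have e1 : 2 * (s ^ 2 * ((V W bad S).card * s)) = s ^ 3 * (V W bad S).card +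
      s ^ 2 * (s * (V W bad S).card) := by ring
    have e2 : s ^ 2 * (2 * (V W bad (insert k S)).card) =
      2 * (s ^ 2 * (V W bad (insert k S)).card) := by ring
    omega
  exact Nat.le_of_mul_le_mul_left h6 (by positivity)

/-- Existence of a choice avoiding all bad triples. -/
theorem exists_good (W : ι → Finset α) (bad : ι → ι → ι → (ι → α) → Prop)
    (hloc : ∀ p q r a b, a p = b p → a q = b q → a r = b r → (bad p q r a ↔ bad p q r b))
    (hsymm : ∀ p q r a, bad p q r a → bad q p r a)
    (hsymm' : ∀ p q r a, bad p q r a → bad p r q a)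
    [∀ p q r a, Decidable (bad p q r a)]
    (s : ℕ) (hs : 0 < s) (hW : ∀ j, (W j).card = s)
    (hcnt : ∀ k, 8 * ∑ pq ∈ (univ : Finset (ι × ι)).filter
        (fun pq => pq.1 ≠ pq.2 ∧ pq.1 ≠ k ∧ pq.2 ≠ k), cnt W bad pq.1 pq.2 k ≤ s ^ 3) :
    ∃ a : ι → α, (∀ j, a j ∈ W j) ∧ ∀ p q r, p ≠ q → q ≠ r → p ≠ r → ¬ bad p q r a := by
  have hstep := main_step W bad hloc hsymm hsymm' s hs hW hcnt
  have key : ∀ S : Finset ι, (V W bad S).Nonempty := by
    intro S
    induction S using Finset.induction_on with
    | empty =>
      refine ⟨fun _ => default, ?_⟩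
      unfold V
      rw [mem_filter, mem_A]
      refine ⟨⟨fun j hj => absurd hj (notMem_empty j), fun j _ => rfl⟩, ?_⟩
      intro p hp
      exact absurd hp (notMem_empty p)
    | insert k S hk ih =>
      have h1 := hstep S.card S rfl k hk
      have h2 : 0 < (V W bad S).card := card_pos.2 ih
      have h3 : 0 < s * (V W bad S).card := Nat.mul_pos hs h2
      exact card_pos.1 (by omega)
  obtain ⟨a, ha⟩ := key univ
  unfold V at ha
  rw [mem_filter, mem_A] at ha
  exact ⟨a, fun j => ha.1.1 j (mem_univ j), fun p q r h1 h2 h3 =>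
    ha.2 p (mem_univ p) q (mem_univ q) r (mem_univ r) h1 h2 h3⟩

end Pool.Agent.Counting
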