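import Pool.Agent.Hhelper37.NTLLower

set_option autoImplicit false

namespace Pool.Agent.NTL

open Finset

theorem lower_bound_A (x : ℝ) (hx : 2 ≤ x) :
    (1 / 800 : ℝ) * (x ^ ((2 : ℝ) / 3) / (Real.log x) ^ 2) ≤ N x := by
  have hx0 : (0 : ℝ) < x := by linarith
  set ℓ : ℝ := Real.log x with hℓ
  have hl2 : (0.69 : ℝ) ≤ ℓ := by
    have h1 : Real.log 2 ≤ Real.log x := Real.log_le_log (by norm_num) hx
    have h2 := Real.log_two_gt_d9
    rw [hℓ]; linarith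
  have hl0 : 0 < ℓ := by linarith
  set t : ℝ := x ^ ((1 : ℝ) / 3) with ht
  have ht0 : 0 < t := Real.rpow_pos_of_pos hx0 _
  have ht3 : t ^ 3 = x := by
    rw [ht, ← Real.rpow_natCast, ← Real.rpow_mul hx0.le]
    norm_num
  have ht1 : 1 ≤ t := Real.one_le_rpow (by linarith) (by norm_num)
  have hy : x ^ ((2 : ℝ) / 3) = t ^ 2 := by
    rw [ht, ← Real.rpow_natCast, ← Real.rpow_mul hx0.le]
    norm_num
  rw [hy]
  set w : ℝ := t / (20 * ℓ) with hw
  have hw0 : 0 < w := by positivity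
  have hw2 : t ^ 2 / ℓ ^ 2 = 400 * w ^ 2 := by
    rw [hw]; field_simp; norm_num
  rw [hw2]
  have hN1 : (1 : ℝ) ≤ N x := by
    have := le_N (admissible_one (x := x) (by linarith))
    exact_mod_cast this
  by_cases hsmall : w ^ 2 < 1
  · linarith
  push Not at hsmall
  set n : ℕ := ⌊w ^ 2⌋₊ with hn
  have hn1 : 1 ≤ n := Nat.le_floor (by simpa using hsmall)
  have hnle : (n : ℝ) ≤ w ^ 2 := Nat.floor_le (by positivity)
  have hnge : w ^ 2 < n + 1 := Nat.lt_floor_add_one _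
  have hn1R : (1 : ℝ) ≤ n := by exact_mod_cast hn1
  have hsq : Real.sqrt n ≤ w := by
    rw [Real.sqrt_le_left hw0.le]
    exact hnle
  have hnx : (n : ℝ) ≤ x := by
    have h1 : w ≤ t := by
      rw [hw, div_le_iff₀ (by positivity)]
      nlinarith
    have h2 : w ^ 2 ≤ t ^ 2 := by gcongr
    have h3 : t ^ 2 ≤ t ^ 3 := pow_le_pow_right₀ ht1 (by norm_num)
    linarith
  have hlogn : Real.log n ≤ ℓ := Real.log_le_log (by linarith) hnx
  have hlogn0 : 0 ≤ Real.log n := Real.log_nonneg hn1R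
  set L : ℝ := 1 + Real.log n with hL
  have hL1 : 1 ≤ L := by linarith
  have hLl : L ≤ 2.5 * ℓ := by
    have : (1 : ℝ) ≤ 1.5 * ℓ := by linarith
    linarith
  have hL3 : L ^ 3 ≤ 15.625 * ℓ ^ 3 := by
    calc L ^ 3 ≤ (2.5 * ℓ) ^ 3 := by gcongr
      _ = 15.625 * ℓ ^ 3 := by ring
  have hadm : Admissible n x := by
    set s : ℕ := ⌈64 * Real.sqrt n * L ^ 3⌉₊ with hs
    have hs1 : 64 * Real.sqrt n * L ^ 3 ≤ s := Nat.le_ceil _
    have hs2 : (s : ℝ) ≤ 64 * Real.sqrt n * L ^ 3 + 1 :=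
      (Nat.ceil_lt_add_one (by positivity)).le
    apply admissible_of_large (s := s) (by omega) hs1
    have hsqn1 : 1 ≤ Real.sqrt n := Real.one_le_sqrt.2 hn1R
    have h1 : (1 : ℝ) ≤ Real.sqrt n * L ^ 3 := by
      have : (1 : ℝ) ≤ L ^ 3 := one_le_pow₀ hL1
      nlinarith
    have h2 : (s : ℝ) ≤ 65 * (Real.sqrt n * L ^ 3) := by linarith
    have h3 : (n : ℝ) = Real.sqrt n ^ 2 := by rw [Real.sq_sqrt (by positivity)]
    calc 3 * (s : ℝ) * n ≤ 3 * (65 * (Real.sqrt n * L ^ 3)) * n := by gcongr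
      _ = 195 * (Real.sqrt n * n) * L ^ 3 := by ring
      _ = 195 * (Real.sqrt n ^ 3) * L ^ 3 := by
          have : Real.sqrt n * n = Real.sqrt n ^ 3 := by
            calc Real.sqrt n * n = Real.sqrt n * Real.sqrt n ^ 2 := by rw [← h3]
              _ = Real.sqrt n ^ 3 := by ring
          rw [this]
      _ ≤ 195 * (w ^ 3) * (15.625 * ℓ ^ 3) := by gcongr
      _ = 195 * 15.625 / 8000 * t ^ 3 := by
          rw [hw]; field_simp; norm_num
      _ ≤ x := by rw [ht3]; nlinarith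
  have hfin := le_N hadm
  have hfinR : (n : ℝ) ≤ N x := by exact_mod_cast hfin
  linarith

theorem not_sqrt : ¬ ∃ C : ℝ, ∀ x : ℝ, 1 ≤ x → (N x : ℝ) ≤ C * Real.sqrt x := by
  rintro ⟨C, hC⟩
  set B : ℝ := max 2 (800 * 576 * C + 1) with hB
  have hB2 : 2 ≤ B := le_max_left _ _
  have hBC : 800 * 576 * C + 1 ≤ B := le_max_right _ _
  have hB0 : (0 : ℝ) < B := by linarith
  set x : ℝ := B ^ 12 with hx
  have hBx : B ≤ x := by
    rw [hx]
    calc B = B ^ 1 := (pow_one B).symm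
      _ ≤ B ^ 12 := pow_le_pow_right₀ (by linarith) (by norm_num)
  have hx2 : 2 ≤ x := hB2.trans hBx
  have hx0 : 0 < x := by linarith
  have h1 := lower_bound_A x hx2
  have h2 := hC x (by linarith)
  have hlogpos : 0 < Real.log x := Real.log_pos (by linarith)
  have h3 : Real.log x ≤ x ^ ((1 : ℝ) / 24) / (1 / 24) := Real.log_le_rpow_div hx0.le (by norm_num)
  have h4 : (Real.log x) ^ 2 ≤ 576 * B := by
    have e1 : (Real.log x) ^ 2 ≤ (x ^ ((1 : ℝ) / 24) / (1 / 24)) ^ 2 := by gcongr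
    have e2 : (x ^ ((1 : ℝ) / 24)) ^ 2 = B := by
      rw [← Real.rpow_natCast, ← Real.rpow_mul hx0.le, hx, ← Real.rpow_natCast,
        ← Real.rpow_mul hB0.le]
      norm_num
    calc (Real.log x) ^ 2 ≤ (x ^ ((1 : ℝ) / 24) / (1 / 24)) ^ 2 := e1
      _ = 576 * (x ^ ((1 : ℝ) / 24)) ^ 2 := by ring
      _ = 576 * B := by rw [e2]
  have h5 : x ^ ((2 : ℝ) / 3) = B ^ 8 := by
    rw [hx, ← Real.rpow_natCast, ← Real.rpow_mul hB0.le, ← Real.rpow_natCast]
    norm_num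
  have h6 : Real.sqrt x = B ^ 6 := by
    rw [hx, show B ^ 12 = (B ^ 6) ^ 2 by ring, Real.sqrt_sq (by positivity)]
  rw [h5] at h1
  rw [h6] at h2
  have h7 : B ^ 8 / (576 * B) ≤ B ^ 8 / (Real.log x) ^ 2 := by gcongr
  have h8 : B ^ 8 / (576 * B) = B ^ 6 * (B / 576) := by field_simp
  have h9 : (1 / 800 : ℝ) * (B ^ 6 * (B / 576)) ≤ C * B ^ 6 := by
    rw [← h8]
    linarith
  have h10 : (0 : ℝ) < B ^ 6 := by positivity
  have h11 : (1 / 800 : ℝ) * (B / 576) ≤ C := by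
    have : B ^ 6 * ((1 / 800 : ℝ) * (B / 576)) ≤ B ^ 6 * C := by linarith
    exact le_of_mul_le_mul_left this h10
  linarith

end Pool.Agent.NTL
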