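import Pool.Agent.Hhelper37.NTLCell

set_option autoImplicit false

namespace Pool.Agent.NTL

open Finset Pool.Agent.Counting

theorem wgt_const {m s : ℕ} {R : Finset (Fin (2 ^ m))} {ω ω' : VI m → ℤ} (h : ω ∈ full m s)
    (h' : ω' ∈ cell m s R ω) (r : Fin (2 ^ m)) (hr : r ∈ R) (u : ℤ)
    (T : Fin (2 ^ m) × Fin (2 ^ m)) (hT : ({T.1, T.2} : Finset (Fin (2 ^ m))) ⊆ R) :
    wgt m s r u T ω' = wgt m s r u T ω := by
  unfold wgt
  rw [base_cell h h' hr, base_cell h h' (hT (by simp)), base_cell h h' (hT (by simp))]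

theorem full_nonempty {m s : ℕ} (hs : 0 < s) : (full m s).Nonempty := by
  refine ⟨fun _ => 0, ?_⟩
  rw [mem_full]
  intro v
  refine ⟨le_rfl, ?_⟩
  have : 0 < s * 2 ^ ((v.1 : ℕ) + 1) := by positivity
  exact_mod_cast this

/-- moment bound over the whole space -/
theorem moment_bound {m s : ℕ} (hs : 0 < s) (Q : ℕ) (hQ : 0 < Q) (r : Fin (2 ^ m)) (u : ℤ) :
    ∑ ω ∈ full m s, (∑ T, wgt m s r u T ω) ^ Q ≤
      (168 * ((2 * (Q : ℝ)) ^ 2 * H (2 ^ m) ^ 2 + (2 * (Q : ℝ)) * H (2 ^ m) ^ 3) / s) ^ Q * ((full m s).card : ℝ) := by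
  set β : ℝ := 168 * ((2 * (Q : ℝ)) ^ 2 * H (2 ^ m) ^ 2 + (2 * (Q : ℝ)) * H (2 ^ m) ^ 3) / s with hβ
  have hH := H_nonneg (2 ^ m)
  have hβ0 : 0 ≤ β := by positivity
  have hmom := moment (full m s) (cell m s)
    (fun T : Fin (2 ^ m) × Fin (2 ^ m) => ({T.1, T.2} : Finset (Fin (2 ^ m))))
    (wgt m s r u) r (2 * Q) β hβ0
    (fun R x hx => cell_self R hx) (fun R x hx => cell_sub R hx)
    (fun R x hx y hy => cell_eq R hx hy) (fun R R' hR x hx => cell_mono hR hx)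
    (fun T x => wgt_nonneg m s r u T x) (fun T => card_le_two)
    (fun R T hr hT x hx y hy => wgt_const hx hy r hr u T hT)
    (fun R hr hR x hx => by
      refine (cell_bound hs R hx r hr u).trans ?_
      apply mul_le_mul_of_nonneg_right _ (Nat.cast_nonneg _)
      rw [hβ]
      have h1 : (R.card : ℝ) ≤ 2 * (Q : ℝ) := by exact_mod_cast hR
      gcongr)
    Q {r} (mem_singleton_self r) (by rw [card_singleton]; omega)
  rw [← sum_avg (full m s) (cell m s {r}) (fun x hx => cell_self {r} hx)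
    (fun x hx => cell_sub {r} hx) (fun x hx y hy => cell_eq {r} hx hy)]
  calc ∑ x ∈ full m s, (∑ y ∈ cell m s {r} x, (∑ T, wgt m s r u T y) ^ Q) /
        ((cell m s {r} x).card : ℝ) ≤ ∑ x ∈ full m s, β ^ Q := by
        apply sum_le_sum
        intro x hx
        have hpos : (0 : ℝ) < ((cell m s {r} x).card : ℝ) := by
          have : 0 < (cell m s {r} x).card := card_pos.2 ⟨x, cell_self {r} hx⟩
          exact_mod_cast this
        rw [div_le_iff₀ hpos]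
        exact hmom x hx
    _ = β ^ Q * ((full m s).card : ℝ) := by rw [sum_const, nsmul_eq_mul, mul_comm]

/-- existence of a good base curve -/
theorem exists_base {m s : ℕ} (hs : 0 < s) (Q : ℕ) (hQ : 0 < Q)
    (hβ : 16 * (168 * ((2 * (Q : ℝ)) ^ 2 * H (2 ^ m) ^ 2 + (2 * (Q : ℝ)) * H (2 ^ m) ^ 3) / s) ≤ 1) (hbig : 2 ^ m * s < 2 ^ Q) :
    ∃ ω ∈ full m s, ∀ r : Fin (2 ^ m), ∀ u ∈ Ico (0 : ℤ) s, ∑ T, wgt m s r u T ω ≤ 1 / 8 := by
  by_contra hcon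
  push Not at hcon
  set β : ℝ := 168 * ((2 * (Q : ℝ)) ^ 2 * H (2 ^ m) ^ 2 + (2 * (Q : ℝ)) * H (2 ^ m) ^ 3) / s with hβd
  have hH := H_nonneg (2 ^ m)
  have hβ0 : 0 ≤ β := by positivity
  have hY0 : ∀ r u ω, 0 ≤ ∑ T, wgt m s r u T ω :=
    fun r u ω => sum_nonneg (fun T _ => wgt_nonneg _ _ _ _ _ _)
  have h1 : ((full m s).card : ℝ) ≤ ∑ ω ∈ full m s, ∑ x ∈ (univ : Finset (Fin (2 ^ m))) ×ˢ
      Ico (0 : ℤ) s, (8 * ∑ T, wgt m s x.1 x.2 T ω) ^ Q := by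
    rw [card_eq_sum_ones]
    push_cast
    apply sum_le_sum
    intro ω hω
    obtain ⟨r, u, hu, hlt⟩ := hcon ω hω
    have h2 : (1 : ℝ) ≤ (8 * ∑ T, wgt m s r u T ω) ^ Q := one_le_pow₀ (by linarith)
    refine h2.trans ?_
    have hmem : (r, u) ∈ (univ : Finset (Fin (2 ^ m))) ×ˢ Ico (0 : ℤ) s := by
      rw [mem_product]
      exact ⟨mem_univ _, hu⟩
    apply single_le_sum (f := fun x : Fin (2 ^ m) × ℤ => (8 * ∑ T, wgt m s x.1 x.2 T ω) ^ Q) _ hmem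
    intro x _
    have := hY0 x.1 x.2 ω
    positivity
  rw [sum_comm] at h1
  have h2 : ∑ x ∈ (univ : Finset (Fin (2 ^ m))) ×ˢ Ico (0 : ℤ) s, ∑ ω ∈ full m s,
      (8 * ∑ T, wgt m s x.1 x.2 T ω) ^ Q ≤
      ∑ x ∈ (univ : Finset (Fin (2 ^ m))) ×ˢ Ico (0 : ℤ) s, (1 / 2 : ℝ) ^ Q *
        ((full m s).card : ℝ) := by
    apply sum_le_sum
    intro x _
    have h3 := moment_bound hs Q hQ x.1 x.2
    rw [← hβd] at h3
    calc ∑ ω ∈ full m s, (8 * ∑ T, wgt m s x.1 x.2 T ω) ^ Q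
        = 8 ^ Q * ∑ ω ∈ full m s, (∑ T, wgt m s x.1 x.2 T ω) ^ Q := by
          rw [mul_sum]
          apply sum_congr rfl
          intro ω _
          rw [mul_pow]
      _ ≤ 8 ^ Q * (β ^ Q * ((full m s).card : ℝ)) := by gcongr
      _ = (8 * β) ^ Q * ((full m s).card : ℝ) := by rw [mul_pow]; ring
      _ ≤ (1 / 2 : ℝ) ^ Q * ((full m s).card : ℝ) := by
          apply mul_le_mul_of_nonneg_right _ (Nat.cast_nonneg _)
          apply pow_le_pow_left₀ (by positivity)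
          linarith
  have h3 := h1.trans h2
  rw [sum_const, card_product, card_univ, Fintype.card_fin, Int.card_Ico, nsmul_eq_mul] at h3
  have hcard : (0 : ℝ) < ((full m s).card : ℝ) := by
    have : 0 < (full m s).card := card_pos.2 (full_nonempty hs)
    exact_mod_cast this
  have hbigR : ((2 ^ m * s : ℕ) : ℝ) < (2 : ℝ) ^ Q := by exact_mod_cast hbig
  have h4 : ((2 ^ m * ((s : ℤ) - 0).toNat : ℕ) : ℝ) = ((2 ^ m * s : ℕ) : ℝ) := by simp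
  rw [h4] at h3
  have h5 : ((2 ^ m * s : ℕ) : ℝ) * (1 / 2 : ℝ) ^ Q < 1 := by
    calc ((2 ^ m * s : ℕ) : ℝ) * (1 / 2 : ℝ) ^ Q < (2 : ℝ) ^ Q * (1 / 2 : ℝ) ^ Q := by
          apply mul_lt_mul_of_pos_right hbigR
          positivity
      _ = 1 := by rw [← mul_pow]; norm_num
  have h6 : ((2 ^ m * s : ℕ) : ℝ) * ((1 / 2 : ℝ) ^ Q * ((full m s).card : ℝ)) <
      ((full m s).card : ℝ) := by
    calc ((2 ^ m * s : ℕ) : ℝ) * ((1 / 2 : ℝ) ^ Q * ((full m s).card : ℝ))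
        = (((2 ^ m * s : ℕ) : ℝ) * (1 / 2 : ℝ) ^ Q) * ((full m s).card : ℝ) := by ring
      _ < 1 * ((full m s).card : ℝ) := mul_lt_mul_of_pos_right h5 hcard
      _ = _ := one_mul _
  linarith

/-- the windows -/
noncomputable def Wb (m s : ℕ) (ω : VI m → ℤ) (j : Fin (2 ^ m)) : Finset ℤ :=
  Ico (base m s ω j) (base m s ω j + s)

theorem cnt_le_wgt {m s : ℕ} (hs : 0 < s) (ω : VI m → ℤ) (p q r : Fin (2 ^ m)) (hpq : p ≠ q)
    (hpr : p ≠ r) (hqr : q ≠ r) :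
    (cnt (Wb m s ω) bad p q r : ℝ) ≤ ∑ u ∈ Ico (0 : ℤ) s, wgt m s r u (p, q) ω * (s : ℝ) ^ 2 := by
  have hsR : (0 : ℝ) < s := by exact_mod_cast hs
  have hs2 : (0 : ℝ) < (s : ℝ) ^ 2 := by positivity
  have h1 : ∀ u ∈ Ico (0 : ℤ) s, wgt m s r u (p, q) ω * (s : ℝ) ^ 2 =
      (((Ico (0 : ℤ) s ×ˢ Ico (0 : ℤ) s).filter (fun x =>
      (base m s ω p + x.1 - (base m s ω r + u)) * (((q : ℕ) : ℤ) - ((r : ℕ) : ℤ)) =
        (base m s ω q + x.2 - (base m s ω r + u)) * (((p : ℕ) : ℤ) - ((r : ℕ) : ℤ)))).card : ℝ) := by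
    intro u _
    unfold wgt
    rw [if_pos ⟨hpq, hpr, hqr⟩, div_mul_cancel₀ _ hs2.ne']
  rw [sum_congr rfl h1, ← Nat.cast_sum, ← card_sigma]
  apply Nat.cast_le.2
  unfold cnt
  apply card_le_card_of_injOn
    (fun a => (⟨a r - base m s ω r, (a p - base m s ω p, a q - base m s ω q)⟩ : (_ : ℤ) × (ℤ × ℤ)))
  · intro a ha
    have ha' : a ∈ (A (Wb m s ω) {p, q, r}).filter (fun a => bad p q r a) := ha
    rw [mem_filter, mem_A] at ha'
    obtain ⟨⟨hA, -⟩, hb⟩ := ha'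
    have hp := hA p (by simp)
    have hq := hA q (by simp)
    have hr := hA r (by simp)
    unfold Wb at hp hq hr
    rw [mem_Ico] at hp hq hr
    unfold bad at hb
    simp only [mem_coe, mem_sigma, mem_filter, mem_product, mem_Ico]
    refine ⟨⟨by linarith, by linarith⟩, ⟨⟨by linarith, by linarith⟩, by linarith, by linarith⟩, ?_⟩
    linear_combination hb
  · intro a ha b hb hab
    have ha' : a ∈ (A (Wb m s ω) {p, q, r}).filter (fun a => bad p q r a) := ha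
    have hb' : b ∈ (A (Wb m s ω) {p, q, r}).filter (fun a => bad p q r a) := hb
    rw [mem_filter, mem_A] at ha' hb'
    obtain ⟨⟨-, hA⟩, -⟩ := ha'
    obtain ⟨⟨-, hB⟩, -⟩ := hb'
    simp only [Sigma.mk.injEq, heq_eq_eq, Prod.mk.injEq] at hab
    obtain ⟨e1, e2, e3⟩ := hab
    funext t
    by_cases ht : t ∈ ({p, q, r} : Finset (Fin (2 ^ m)))
    · simp only [mem_insert, mem_singleton] at ht
      rcases ht with rfl | rfl | rfl
      · linarith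
      · linarith
      · linarith
    · rw [hA t ht, hB t ht]

theorem exists_choice {m s : ℕ} (hs : 0 < s) (ω : VI m → ℤ)
    (hω : ∀ r : Fin (2 ^ m), ∀ u ∈ Ico (0 : ℤ) s, ∑ T, wgt m s r u T ω ≤ 1 / 8) :
    ∃ a : Fin (2 ^ m) → ℤ, (∀ j, a j ∈ Wb m s ω j) ∧
      ∀ p q r, p ≠ q → q ≠ r → p ≠ r → ¬ bad p q r a := by
  have hsR : (0 : ℝ) < s := by exact_mod_cast hs
  have hsum : ∀ k : Fin (2 ^ m), 8 * ∑ pq ∈ (univ : Finset (Fin (2 ^ m) × Fin (2 ^ m))).filter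
      (fun pq => pq.1 ≠ pq.2 ∧ pq.1 ≠ k ∧ pq.2 ≠ k), cnt (Wb m s ω) bad pq.1 pq.2 k ≤ s ^ 3 := by
    intro k
    have h1 : (∑ pq ∈ (univ : Finset (Fin (2 ^ m) × Fin (2 ^ m))).filter
        (fun pq => pq.1 ≠ pq.2 ∧ pq.1 ≠ k ∧ pq.2 ≠ k), (cnt (Wb m s ω) bad pq.1 pq.2 k : ℝ)) ≤
        ∑ pq : Fin (2 ^ m) × Fin (2 ^ m), ∑ u ∈ Ico (0 : ℤ) s, wgt m s k u pq ω * (s : ℝ) ^ 2 := by
      refine le_trans (sum_le_sum (fun pq hpq => ?_)) (sum_le_sum_of_subset_of_nonneg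
        (filter_subset _ _) (fun pq _ _ => ?_))
      · rw [mem_filter] at hpq
        exact cnt_le_wgt hs ω pq.1 pq.2 k hpq.2.1 hpq.2.2.1 hpq.2.2.2
      · apply sum_nonneg
        intro u _
        exact mul_nonneg (wgt_nonneg _ _ _ _ _ _) (by positivity)
    rw [sum_comm] at h1
    have h2 : ∑ u ∈ Ico (0 : ℤ) s, ∑ pq : Fin (2 ^ m) × Fin (2 ^ m),
        wgt m s k u pq ω * (s : ℝ) ^ 2 ≤ ∑ u ∈ Ico (0 : ℤ) s, (1 / 8) * (s : ℝ) ^ 2 := by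
      apply sum_le_sum
      intro u hu
      rw [← sum_mul]
      exact mul_le_mul_of_nonneg_right (hω k u hu) (by positivity)
    rw [sum_const, Int.card_Ico, nsmul_eq_mul] at h2
    have h3 : (8 : ℝ) * ∑ pq ∈ (univ : Finset (Fin (2 ^ m) × Fin (2 ^ m))).filter
        (fun pq => pq.1 ≠ pq.2 ∧ pq.1 ≠ k ∧ pq.2 ≠ k), (cnt (Wb m s ω) bad pq.1 pq.2 k : ℝ) ≤
        (s : ℝ) ^ 3 := by
      have h4 := h1.trans h2
      have h5 : ((((s : ℤ) - 0).toNat : ℕ) : ℝ) = s := by simp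
      rw [h5] at h4
      have h6 : 8 * ((s : ℝ) * (1 / 8 * (s : ℝ) ^ 2)) = (s : ℝ) ^ 3 := by ring
      linarith
    exact_mod_cast h3
  have hcard : ∀ j, (Wb m s ω j).card = s := by
    intro j
    unfold Wb
    rw [Int.card_Ico]
    simp
  exact exists_good (Wb m s ω) bad bad_loc bad_swap bad_swap' s hs hcard hsum

theorem base_mono {m s : ℕ} {ω : VI m → ℤ} (hω : ω ∈ full m s) (i j : Fin (2 ^ m)) (hij : i < j) :
    base m s ω i + s ≤ base m s ω j := by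
  rw [mem_full] at hω
  have hij' : (i : ℕ) < j := hij
  unfold base cst
  have h1 : ∑ k : Fin m, ((s : ℤ) * 2 ^ ((k : ℕ) + 1) * (((i : ℕ) / 2 ^ ((k : ℕ) + 1) : ℕ) : ℤ)) +
      ∑ k : Fin m, ω (k, blk k i) ≤
      ∑ k : Fin m, ((s : ℤ) * 2 ^ ((k : ℕ) + 1) * (((j : ℕ) / 2 ^ ((k : ℕ) + 1) : ℕ) : ℤ)) +
      ∑ k : Fin m, ω (k, blk k j) := by
    rw [← sum_add_distrib, ← sum_add_distrib]
    apply sum_le_sum
    intro k _
    have hdiv : (i : ℕ) / 2 ^ ((k : ℕ) + 1) ≤ (j : ℕ) / 2 ^ ((k : ℕ) + 1) :=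
      Nat.div_le_div_right hij'.le
    rcases Nat.eq_or_lt_of_le hdiv with heq | hlt
    · have hb : blk k i = blk k j := (blk_eq_iff k i j).2 heq
      rw [hb, heq]
    · have h2 := (hω (k, blk k i)).2
      have h3 := (hω (k, blk k j)).1
      simp only at h2
      push_cast at h2
      have h4 : (((i : ℕ) / 2 ^ ((k : ℕ) + 1) : ℕ) : ℤ) + 1 ≤
          (((j : ℕ) / 2 ^ ((k : ℕ) + 1) : ℕ) : ℤ) := by exact_mod_cast hlt
      have h5 : (s : ℤ) * 2 ^ ((k : ℕ) + 1) * ((((i : ℕ) / 2 ^ ((k : ℕ) + 1) : ℕ) : ℤ) + 1) ≤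
          (s : ℤ) * 2 ^ ((k : ℕ) + 1) * (((j : ℕ) / 2 ^ ((k : ℕ) + 1) : ℕ) : ℤ) :=
        mul_le_mul_of_nonneg_left h4 (by positivity)
      linarith
  have h2 : (s : ℤ) * ((i : ℕ) : ℤ) + s ≤ (s : ℤ) * ((j : ℕ) : ℤ) := by
    have h3 : ((i : ℕ) : ℤ) + 1 ≤ ((j : ℕ) : ℤ) := by exact_mod_cast hij'
    have h4 : (s : ℤ) * (((i : ℕ) : ℤ) + 1) ≤ (s : ℤ) * ((j : ℕ) : ℤ) :=
      mul_le_mul_of_nonneg_left h3 (by positivity)
    linarith
  linarith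

theorem base_nonneg {m s : ℕ} {ω : VI m → ℤ} (hω : ω ∈ full m s) (i : Fin (2 ^ m)) :
    0 ≤ base m s ω i := by
  rw [mem_full] at hω
  unfold base cst
  have h1 : 0 ≤ ∑ k : Fin m, ω (k, blk k i) := sum_nonneg (fun k _ => (hω (k, blk k i)).1)
  have h2 : 0 ≤ ∑ k : Fin m, ((s : ℤ) * 2 ^ ((k : ℕ) + 1) *
      (((i : ℕ) / 2 ^ ((k : ℕ) + 1) : ℕ) : ℤ)) := sum_nonneg (fun k _ => by positivity)
  positivity

theorem base_le {m s : ℕ} {ω : VI m → ℤ} (hω : ω ∈ full m s) (j : Fin (2 ^ m)) :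
    base m s ω j ≤ ((m : ℤ) + 3) * s * 2 ^ m := by
  rw [mem_full] at hω
  unfold base cst
  have hj : ((j : ℕ) : ℤ) ≤ 2 ^ m := by exact_mod_cast j.2.le
  have h1 : ∑ k : Fin m, ((s : ℤ) * 2 ^ ((k : ℕ) + 1) * (((j : ℕ) / 2 ^ ((k : ℕ) + 1) : ℕ) : ℤ)) ≤
      ∑ k : Fin m, (s : ℤ) * 2 ^ m := by
    apply sum_le_sum
    intro k _
    have h2 : 2 ^ ((k : ℕ) + 1) * ((j : ℕ) / 2 ^ ((k : ℕ) + 1)) ≤ (j : ℕ) := Nat.mul_div_le _ _
    have h3 : (2 : ℤ) ^ ((k : ℕ) + 1) * (((j : ℕ) / 2 ^ ((k : ℕ) + 1) : ℕ) : ℤ) ≤ 2 ^ m := by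
      have h4 : (((2 ^ ((k : ℕ) + 1) * ((j : ℕ) / 2 ^ ((k : ℕ) + 1)) : ℕ)) : ℤ) ≤ ((j : ℕ) : ℤ) := by
        exact_mod_cast h2
      push_cast at h4
      push_cast
      linarith
    calc (s : ℤ) * 2 ^ ((k : ℕ) + 1) * (((j : ℕ) / 2 ^ ((k : ℕ) + 1) : ℕ) : ℤ)
        = (s : ℤ) * (2 ^ ((k : ℕ) + 1) * (((j : ℕ) / 2 ^ ((k : ℕ) + 1) : ℕ) : ℤ)) := by ring
      _ ≤ (s : ℤ) * 2 ^ m := mul_le_mul_of_nonneg_left h3 (by positivity)
  rw [sum_const, card_univ, Fintype.card_fin, nsmul_eq_mul] at h1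
  have h5 : ∑ k : Fin m, ω (k, blk k j) ≤ (s : ℤ) * (2 * 2 ^ m) := by
    have h6 : ∑ k : Fin m, ω (k, blk k j) ≤ ∑ k : Fin m, (s : ℤ) * 2 ^ ((k : ℕ) + 1) := by
      apply sum_le_sum
      intro k _
      have := (hω (k, blk k j)).2
      simp only at this
      push_cast at this
      exact this.le
    refine h6.trans ?_
    rw [← mul_sum]
    apply mul_le_mul_of_nonneg_left _ (by positivity)
    rw [Fin.sum_univ_eq_sum_range (fun k => (2 : ℤ) ^ (k + 1)) m]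
    have h7 : ∀ m : ℕ, ∑ k ∈ range m, (2 : ℤ) ^ (k + 1) ≤ 2 * 2 ^ m := by
      intro m
      induction m with
      | zero => simp
      | succ m ih =>
        rw [sum_range_succ]
        have : (2 : ℤ) ^ (m + 1) = 2 * 2 ^ m := by ring
        rw [this]
        linarith
    exact h7 m
  have h8 : (s : ℤ) * ((j : ℕ) : ℤ) ≤ (s : ℤ) * 2 ^ m :=
    mul_le_mul_of_nonneg_left hj (by positivity)
  have h9 : ((m : ℤ) + 3) * s * 2 ^ m = (m : ℤ) * ((s : ℤ) * 2 ^ m) + (s : ℤ) * 2 ^ m +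
      (s : ℤ) * (2 * 2 ^ m) := by ring
  rw [h9]
  linarith

theorem admissible_pow {m s : ℕ} (hs : 0 < s) (Q : ℕ) (hQ : 0 < Q)
    (hβ : 16 * (168 * ((2 * (Q : ℝ)) ^ 2 * H (2 ^ m) ^ 2 + (2 * (Q : ℝ)) * H (2 ^ m) ^ 3) / s) ≤ 1) (hbig : 2 ^ m * s < 2 ^ Q)
    (x : ℝ) (hx : ((m : ℝ) + 4) * s * 2 ^ m ≤ x) : Admissible (2 ^ m) x := by
  obtain ⟨ω, hω, hgood⟩ := exists_base hs Q hQ hβ hbig
  obtain ⟨a, ha, hbad⟩ := exists_choice hs ω hgood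
  have hW : ∀ j, base m s ω j ≤ a j ∧ a j < base m s ω j + s := by
    intro j
    have := ha j
    unfold Wb at this
    rwa [mem_Ico] at this
  refine ⟨fun j => if h : j - 1 < 2 ^ m then a ⟨j - 1, h⟩ + 1 else 0, ?_, ?_, ?_⟩
  · intro j hj1 hjn
    have hlt : j - 1 < 2 ^ m := by omega
    simp only [hlt, dif_pos]
    obtain ⟨h1, h2⟩ := hW ⟨j - 1, hlt⟩
    have h3 := base_nonneg hω ⟨j - 1, hlt⟩
    have h4 := base_le hω ⟨j - 1, hlt⟩
    constructor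
    · linarith
    · refine le_trans ?_ hx
      have h5 : a ⟨j - 1, hlt⟩ + 1 ≤ ((m : ℤ) + 3) * s * 2 ^ m + s := by linarith
      have h6 : ((a ⟨j - 1, hlt⟩ + 1 : ℤ) : ℝ) ≤ ((m : ℝ) + 3) * s * 2 ^ m + s := by exact_mod_cast h5
      have h7 : (s : ℝ) ≤ s * 2 ^ m := by
        have : (1 : ℝ) ≤ 2 ^ m := one_le_pow₀ (by norm_num)
        have hs' : (0 : ℝ) ≤ s := Nat.cast_nonneg _
        nlinarith
      linarith
  · intro i j hi hij hj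
    have hlt : j - 1 < 2 ^ m := by omega
    have hlt' : i - 1 < 2 ^ m := by omega
    simp only [hlt, hlt', dif_pos]
    obtain ⟨h1, -⟩ := hW ⟨j - 1, hlt⟩
    obtain ⟨-, h2⟩ := hW ⟨i - 1, hlt'⟩
    have h3 := base_mono hω ⟨i - 1, hlt'⟩ ⟨j - 1, hlt⟩ (by
      rw [Fin.mk_lt_mk]; omega)
    linarith
  · intro i j k hi hij hjk hk
    have hlti : i - 1 < 2 ^ m := by omega
    have hltj : j - 1 < 2 ^ m := by omega
    have hltk : k - 1 < 2 ^ m := by omega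
    simp only [hlti, hltj, hltk, dif_pos]
    rw [collinear_iff_det i j k hij]
    intro hcol
    apply hbad ⟨i - 1, hlti⟩ ⟨j - 1, hltj⟩ ⟨k - 1, hltk⟩
    · intro h; rw [Fin.mk.injEq] at h; omega
    · intro h; rw [Fin.mk.injEq] at h; omega
    · intro h; rw [Fin.mk.injEq] at h; omega
    · unfold bad
      simp only
      have e1 : ((k - 1 : ℕ) : ℤ) - ((i - 1 : ℕ) : ℤ) = (k : ℤ) - i := by omega
      have e2 : ((j - 1 : ℕ) : ℤ) - ((i - 1 : ℕ) : ℤ) = (j : ℤ) - i := by omega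
      rw [e1, e2]
      linear_combination hcol

end Pool.Agent.NTL
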