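import Pool.Agent.Hhelper37.NTLDefs

set_option autoImplicit false

namespace Pool.Agent.NTL

/-- integer form of collinearity -/
theorem collinear_iff_det (i j k : ℕ) (hij : i < j) (a b c : ℤ) :
    Collinear ℝ ({((i : ℝ), (a : ℝ)), ((j : ℝ), (b : ℝ)), ((k : ℝ), (c : ℝ))} : Set (ℝ × ℝ)) ↔
      (b - a) * ((k : ℤ) - i) = (c - a) * ((j : ℤ) - i) := by
  have hij' : (i : ℝ) < j := by exact_mod_cast hij
  rw [collinear_iff_of_mem (p₀ := ((i : ℝ), (a : ℝ))) (by simp)]
  constructor
  · rintro ⟨v, hv⟩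
    obtain ⟨r, hr⟩ := hv ((j : ℝ), (b : ℝ)) (by simp)
    obtain ⟨t, ht⟩ := hv ((k : ℝ), (c : ℝ)) (by simp)
    simp only [vadd_eq_add, Prod.ext_iff, Prod.fst_add, Prod.smul_fst, Prod.snd_add, Prod.smul_snd,
      smul_eq_mul] at hr ht
    obtain ⟨h1, h2⟩ := hr
    obtain ⟨h3, h4⟩ := ht
    have key : ((b : ℝ) - a) * ((k : ℝ) - i) = ((c : ℝ) - a) * ((j : ℝ) - i) := by
      rw [h1, h2, h3, h4]; ring
    exact_mod_cast key
  · intro h
    have key : ((b : ℝ) - a) * ((k : ℝ) - i) = ((c : ℝ) - a) * ((j : ℝ) - i) := by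
      exact_mod_cast h
    have hne : (j : ℝ) - i ≠ 0 := by linarith
    refine ⟨((j : ℝ) - i, (b : ℝ) - a), ?_⟩
    rintro p hp
    simp only [Set.mem_insert_iff, Set.mem_singleton_iff] at hp
    rcases hp with rfl | rfl | rfl
    · exact ⟨0, by simp⟩
    · refine ⟨1, ?_⟩
      simp only [vadd_eq_add, Prod.ext_iff, Prod.fst_add, Prod.smul_fst, Prod.snd_add,
        Prod.smul_snd, smul_eq_mul]
      constructor <;> ring
    · refine ⟨((k : ℝ) - i) / ((j : ℝ) - i), ?_⟩
      simp only [vadd_eq_add, Prod.ext_iff, Prod.fst_add, Prod.smul_fst, Prod.snd_add,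
        Prod.smul_snd, smul_eq_mul]
      constructor
      · field_simp; ring
      · field_simp; linarith

theorem admissible_le {n : ℕ} {x : ℝ} (h : Admissible n x) : (n : ℝ) ≤ max x 0 := by
  obtain ⟨a, h1, h2, -⟩ := h
  rcases Nat.eq_zero_or_pos n with rfl | hn
  · simp
  have key : ∀ j : ℕ, 1 ≤ j → j ≤ n → (j : ℤ) ≤ a j := by
    intro j
    induction j with
    | zero => intro h; omega
    | succ j ih =>
      intro _ hj
      rcases Nat.eq_zero_or_pos j with rfl | hj0
      · have := (h1 1 le_rfl hj).1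
        push_cast
        omega
      · have h3 := ih hj0 (by omega)
        have h4 := h2 j (j + 1) hj0 (by omega) hj
        push_cast
        omega
  have h3 := key n hn le_rfl
  have h4 := (h1 n hn le_rfl).2
  have h5 : (n : ℝ) ≤ (a n : ℝ) := by exact_mod_cast h3
  exact le_max_of_le_left (h5.trans h4)

theorem bddAbove_admissible (x : ℝ) : BddAbove {n : ℕ | Admissible n x} := by
  refine ⟨⌊max x 0⌋₊, ?_⟩
  intro n hn
  exact Nat.le_floor (admissible_le hn)

theorem le_N {n : ℕ} {x : ℝ} (h : Admissible n x) : n ≤ N x :=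
  le_csSup (bddAbove_admissible x) h

theorem admissible_zero (x : ℝ) : Admissible 0 x :=
  ⟨fun _ => 0, fun j h1 h2 => by omega, fun i j h1 h2 h3 => by omega,
    fun i j k h1 h2 h3 h4 => by omega⟩

theorem N_admissible (x : ℝ) : Admissible (N x) x :=
  Nat.sSup_mem ⟨0, admissible_zero x⟩ (bddAbove_admissible x)

theorem admissible_one {x : ℝ} (hx : 1 ≤ x) : Admissible 1 x :=
  ⟨fun _ => 1, fun j h1 h2 => ⟨by norm_num, by simpa using hx⟩, fun i j h1 h2 h3 => by omega,
    fun i j k h1 h2 h3 h4 => by omega⟩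

end Pool.Agent.NTL
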