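import Pool.Agent.Hhelper37.NTLHarm

set_option autoImplicit false

namespace Pool.Agent.NTL

open Finset

theorem wgt_symm (m s : ℕ) (r : Fin (2 ^ m)) (u : ℤ) (p q : Fin (2 ^ m)) (ω : VI m → ℤ) :
    wgt m s r u (p, q) ω = wgt m s r u (q, p) ω := by
  unfold wgt
  by_cases h : p ≠ q ∧ p ≠ r ∧ q ≠ r
  · rw [if_pos h, if_pos ⟨h.1.symm, h.2.2, h.2.1⟩]
    congr 2
    refine card_bij' (fun x _ => (x.2, x.1)) (fun x _ => (x.2, x.1)) ?_ ?_ ?_ ?_
    · rintro ⟨x, y⟩ hx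
      rw [mem_filter, mem_product] at hx ⊢
      exact ⟨⟨hx.1.2, hx.1.1⟩, hx.2.symm⟩
    · rintro ⟨x, y⟩ hx
      rw [mem_filter, mem_product] at hx ⊢
      exact ⟨⟨hx.1.2, hx.1.1⟩, hx.2.symm⟩
    · rintro ⟨x, y⟩ _
      rfl
    · rintro ⟨x, y⟩ _
      rfl
  · rw [if_neg h, if_neg (fun h' => h ⟨h'.1.symm, h'.2.2, h'.2.1⟩)]

theorem H_one_le (n : ℕ) (hn : 0 < n) : 1 ≤ H n := by
  unfold H
  have h1 : (1 : ℕ) ∈ Icc 1 n := by rw [mem_Icc]; omega
  have h2 := single_le_sum (f := fun i : ℕ => (1 : ℝ) / i) (fun i _ => by positivity) h1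
  simpa using h2

theorem phi_le {m s : ℕ} (hs : 0 < s) (R : Finset (Fin (2 ^ m))) (r p q : Fin (2 ^ m))
    (hpq : p ≠ q) :
    (2 * s * 2 ^ (lev m R p) * (Int.gcd (((p : ℕ) : ℤ) - ((r : ℕ) : ℤ))
        (((q : ℕ) : ℤ) - ((r : ℕ) : ℤ)) : ℝ) / ((((p : ℕ) : ℤ) - ((r : ℕ) : ℤ)).natAbs : ℝ) + 1) /
        (((s : ℝ) * 2 ^ (lev m R p)) * ((s : ℝ) * 2 ^ (lev m (insert p R) q))) ≤
      (1 / (s : ℝ)) * (2 * ((Nat.gcd (dd p r) (dd q r) : ℝ) / (dd p r : ℝ) * iv m R q) +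
        4 * ((Nat.gcd (dd p r) (dd q r) : ℝ) / ((dd p r : ℝ) * (dd q p : ℝ))) +
        iv m R p * iv m R q + 2 * (iv m R p * (1 / (dd q p : ℝ)))) := by
  have hs1 : (1 : ℝ) ≤ s := by exact_mod_cast hs
  have hs0 : (0 : ℝ) < s := by linarith
  have hg : (Int.gcd (((p : ℕ) : ℤ) - ((r : ℕ) : ℤ)) (((q : ℕ) : ℤ) - ((r : ℕ) : ℤ)) : ℝ) =
      (Nat.gcd (dd p r) (dd q r) : ℝ) := by
    unfold dd
    rw [← Int.gcd_eq_natAbs]
  have hd : ((((p : ℕ) : ℤ) - ((r : ℕ) : ℤ)).natAbs : ℝ) = (dd p r : ℝ) := rfl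
  rw [hg, hd]
  have hdqp : 0 < dd q p := dd_pos hpq.symm
  have hins := iv_insert R p q
  have hmax : (max 1 (dd q p) : ℕ) = dd q p := by omega
  rw [hmax] at hins
  have hivp := iv_pos R p
  have hivq := iv_pos R q
  have hivi := iv_pos (insert p R) q
  have e1 : (2 * s * 2 ^ (lev m R p) * (Nat.gcd (dd p r) (dd q r) : ℝ) / (dd p r : ℝ) + 1) /
        (((s : ℝ) * 2 ^ (lev m R p)) * ((s : ℝ) * 2 ^ (lev m (insert p R) q))) =
      (1 / (s : ℝ)) * (2 * ((Nat.gcd (dd p r) (dd q r) : ℝ) / (dd p r : ℝ))) *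
        iv m (insert p R) q + (1 / (s : ℝ)) * (1 / (s : ℝ)) * iv m R p * iv m (insert p R) q := by
    unfold iv
    have h2f : (2 : ℝ) ^ (lev m R p) ≠ 0 := by positivity
    have h2f' : (2 : ℝ) ^ (lev m (insert p R) q) ≠ 0 := by positivity
    rw [add_div]
    congr 1
    · field_simp
    · field_simp
  rw [e1]
  have hgd : (0 : ℝ) ≤ (Nat.gcd (dd p r) (dd q r) : ℝ) / (dd p r : ℝ) := by positivity
  have hone : 1 / (s : ℝ) ≤ 1 := by
    rw [div_le_one hs0]; exact hs1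
  have hinv : (0 : ℝ) < 1 / (s : ℝ) := by positivity
  calc (1 / (s : ℝ)) * (2 * ((Nat.gcd (dd p r) (dd q r) : ℝ) / (dd p r : ℝ))) *
        iv m (insert p R) q + (1 / (s : ℝ)) * (1 / (s : ℝ)) * iv m R p * iv m (insert p R) q
      ≤ (1 / (s : ℝ)) * (2 * ((Nat.gcd (dd p r) (dd q r) : ℝ) / (dd p r : ℝ))) *
        (iv m R q + 2 / (dd q p : ℝ)) + (1 / (s : ℝ)) * 1 * iv m R p *
          (iv m R q + 2 / (dd q p : ℝ)) := by gcongr
    _ = _ := by ring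

/-- the key bound: the average over a cell of the total weight -/
theorem cell_bound {m s : ℕ} (hs : 0 < s) (R : Finset (Fin (2 ^ m))) {ω₀ : VI m → ℤ}
    (h₀ : ω₀ ∈ full m s) (r : Fin (2 ^ m)) (hr : r ∈ R) (u : ℤ) :
    ∑ ω ∈ cell m s R ω₀, ∑ T, wgt m s r u T ω ≤
      (168 * ((R.card : ℝ) ^ 2 * H (2 ^ m) ^ 2 + (R.card : ℝ) * H (2 ^ m) ^ 3) / s) *
        ((cell m s R ω₀).card : ℝ) := by
  have hR : R.Nonempty := ⟨r, hr⟩
  have hn0 : 0 < 2 ^ m := by positivity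
  set h : ℝ := H (2 ^ m) with hh
  have hh1 : 1 ≤ h := H_one_le (2 ^ m) hn0
  set ρ : ℝ := (R.card : ℝ) with hρ
  have hρ1 : 1 ≤ ρ := by
    have : 1 ≤ R.card := card_pos.2 hR
    rw [hρ]
    exact_mod_cast this
  set C : ℝ := ((cell m s R ω₀).card : ℝ) with hC
  have hC0 : 0 ≤ C := Nat.cast_nonneg _
  have hsR : (0 : ℝ) < s := by exact_mod_cast hs
  set W : Fin (2 ^ m) × Fin (2 ^ m) → ℝ := fun T => ∑ ω ∈ cell m s R ω₀, wgt m s r u T ω with hW
  have hW0 : ∀ T, 0 ≤ W T := fun T => sum_nonneg (fun ω _ => wgt_nonneg _ _ _ _ _ _)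
  have hWsymm : ∀ p q, W (p, q) = W (q, p) := by
    intro p q
    simp only [W]
    apply sum_congr rfl
    intro ω _
    exact wgt_symm m s r u p q ω
  rw [sum_comm]
  -- restrict to good T
  let G : Fin (2 ^ m) × Fin (2 ^ m) → Prop := fun T => T.1 ≠ T.2 ∧ T.1 ≠ r ∧ T.2 ≠ r
  have hWbad : ∀ T, ¬ G T → W T = 0 := by
    intro T hT
    simp only [W]
    apply sum_eq_zero
    intro ω _
    unfold wgt
    rw [if_neg hT]
  have hsum1 : ∑ T, W T ≤ 2 * ∑ T ∈ (univ : Finset (Fin (2 ^ m) × Fin (2 ^ m))).filter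
      (fun T => G T ∧ lev m R T.1 ≤ lev m R T.2), W T := by
    have h1 : ∑ T, W T ≤ ∑ T ∈ (univ : Finset (Fin (2 ^ m) × Fin (2 ^ m))).filter
        (fun T => G T ∧ lev m R T.1 ≤ lev m R T.2), W T +
        ∑ T ∈ (univ : Finset (Fin (2 ^ m) × Fin (2 ^ m))).filter
        (fun T => G T ∧ lev m R T.2 ≤ lev m R T.1), W T := by
      rw [sum_filter, sum_filter, ← sum_add_distrib]
      apply sum_le_sum
      intro T _
      by_cases hG : G T
      · rcases le_total (lev m R T.1) (lev m R T.2) with hle | hle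
        · rw [if_pos ⟨hG, hle⟩]
          split_ifs
          · linarith [hW0 T]
          · linarith
        · rw [if_pos (show G T ∧ lev m R T.2 ≤ lev m R T.1 from ⟨hG, hle⟩)]
          split_ifs
          · linarith [hW0 T]
          · linarith
      · rw [hWbad T hG]
        simp
    have h2 : ∑ T ∈ (univ : Finset (Fin (2 ^ m) × Fin (2 ^ m))).filter
        (fun T => G T ∧ lev m R T.2 ≤ lev m R T.1), W T =
        ∑ T ∈ (univ : Finset (Fin (2 ^ m) × Fin (2 ^ m))).filter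
        (fun T => G T ∧ lev m R T.1 ≤ lev m R T.2), W T := by
      refine sum_bij' (fun T _ => (T.2, T.1)) (fun T _ => (T.2, T.1)) ?_ ?_ ?_ ?_ ?_
      · rintro ⟨p, q⟩ hT
        simp only [mem_filter, mem_univ, true_and, G] at hT ⊢
        exact ⟨⟨hT.1.1.symm, hT.1.2.2, hT.1.2.1⟩, hT.2⟩
      · rintro ⟨p, q⟩ hT
        simp only [mem_filter, mem_univ, true_and, G] at hT ⊢
        exact ⟨⟨hT.1.1.symm, hT.1.2.2, hT.1.2.1⟩, hT.2⟩
      · rintro ⟨p, q⟩ _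
        rfl
      · rintro ⟨p, q⟩ _
        rfl
      · rintro ⟨p, q⟩ _
        exact hWsymm p q
    rw [h2] at h1
    linarith
  -- termwise bound
  have hterm : ∀ T ∈ (univ : Finset (Fin (2 ^ m) × Fin (2 ^ m))).filter
      (fun T => G T ∧ lev m R T.1 ≤ lev m R T.2), W T ≤
      (C / s) * (2 * ((Nat.gcd (dd T.1 r) (dd T.2 r) : ℝ) / (dd T.1 r : ℝ) * iv m R T.2) +
        4 * ((Nat.gcd (dd T.1 r) (dd T.2 r) : ℝ) / ((dd T.1 r : ℝ) * (dd T.2 T.1 : ℝ))) +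
        iv m R T.1 * iv m R T.2 + 2 * (iv m R T.1 * (1 / (dd T.2 T.1 : ℝ)))) := by
    rintro ⟨p, q⟩ hT
    simp only [mem_filter, mem_univ, true_and, G] at hT
    obtain ⟨⟨hpq, hpr, hqr⟩, _⟩ := hT
    have h1 := avg_wgt hs R h₀ r hr u p q hpq hpr hqr
    have h2 := phi_le hs R r p q hpq
    refine h1.trans ?_
    refine (mul_le_mul_of_nonneg_left h2 hC0).trans (le_of_eq ?_)
    ring
  -- the four sums
  have hA1 : ∑ T ∈ (univ : Finset (Fin (2 ^ m) × Fin (2 ^ m))).filter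
      (fun T => G T ∧ lev m R T.1 ≤ lev m R T.2),
      (Nat.gcd (dd T.1 r) (dd T.2 r) : ℝ) / (dd T.1 r : ℝ) * iv m R T.2 ≤
        12 * (ρ ^ 2 * h ^ 2) + 8 * (ρ * h ^ 3) := by
    have h1 : ∑ T ∈ (univ : Finset (Fin (2 ^ m) × Fin (2 ^ m))).filter
        (fun T => G T ∧ lev m R T.1 ≤ lev m R T.2),
        (Nat.gcd (dd T.1 r) (dd T.2 r) : ℝ) / (dd T.1 r : ℝ) * iv m R T.2 ≤
        ∑ p ∈ (univ : Finset (Fin (2 ^ m))).filter (fun p => p ≠ r),
          ∑ q ∈ (univ : Finset (Fin (2 ^ m))).filter (fun q => q ≠ r ∧ lev m R p ≤ lev m R q),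
          (Nat.gcd (dd p r) (dd q r) : ℝ) / (dd p r : ℝ) * iv m R q := by
      rw [sum_sigma']
      apply sum_le_sum_of_inj _ _ (fun T : Fin (2 ^ m) × Fin (2 ^ m) => (⟨T.1, T.2⟩ : (_ : Fin (2 ^ m)) × Fin (2 ^ m)))
      · rintro ⟨p, q⟩ hT
        simp only [mem_filter, mem_univ, true_and, G] at hT
        simp only [mem_sigma, mem_filter, mem_univ, true_and]
        exact ⟨hT.1.2.1, hT.1.2.2, hT.2⟩
      · rintro ⟨p, q⟩ _ ⟨p', q'⟩ _ heq
        simp only [Sigma.mk.injEq, heq_eq_eq] at heq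
        rw [heq.1, heq.2]
      · rintro ⟨p, q⟩ _
        exact le_rfl
      · rintro ⟨p, q⟩ _
        have := (iv_pos R q).le
        positivity
    refine h1.trans ?_
    have h2 : ∀ p ∈ (univ : Finset (Fin (2 ^ m))).filter (fun p => p ≠ r),
        ∑ q ∈ (univ : Finset (Fin (2 ^ m))).filter (fun q => q ≠ r ∧ lev m R p ≤ lev m R q),
          (Nat.gcd (dd p r) (dd q r) : ℝ) / (dd p r : ℝ) * iv m R q ≤
        ρ * (2 * h * iv m R p + 4 * h * (((Nat.divisors (dd p r)).card : ℝ) / (dd p r : ℝ))) := by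
      intro p hp
      rw [mem_filter] at hp
      refine (sum_gcd_iv_le R hR r p hp.2).trans (le_of_eq ?_)
      rw [hρ, hh]
      ring
    refine (sum_le_sum h2).trans ?_
    rw [← mul_sum, sum_add_distrib, ← mul_sum, ← mul_sum]
    have h3 : ∑ p ∈ (univ : Finset (Fin (2 ^ m))).filter (fun p => p ≠ r), iv m R p ≤
        ρ * (2 + 4 * h) := by
      refine le_trans ?_ (sum_iv_le R hR)
      apply sum_le_sum_of_subset_of_nonneg (filter_subset _ _)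
      intro p _ _
      exact (iv_pos R p).le
    have h4 : ∑ p ∈ (univ : Finset (Fin (2 ^ m))).filter (fun p => p ≠ r),
        (((Nat.divisors (dd p r)).card : ℝ) / (dd p r : ℝ)) ≤ 2 * h ^ 2 := by
      have h5 := sum_dd_ne r (fun a => ((Nat.divisors a).card : ℝ) / (a : ℝ))
        (fun d => by positivity)
      refine h5.trans ?_
      have h6 := sum_tau_le (2 ^ m)
      rw [← hh] at h6
      linarith
    have hh0 : 0 < h := by linarith
    have hρ0 : 0 < ρ := by linarith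
    calc ρ * (2 * h * ∑ p ∈ (univ : Finset (Fin (2 ^ m))).filter (fun p => p ≠ r), iv m R p +
          4 * h * ∑ p ∈ (univ : Finset (Fin (2 ^ m))).filter (fun p => p ≠ r),
          (((Nat.divisors (dd p r)).card : ℝ) / (dd p r : ℝ)))
        ≤ ρ * (2 * h * (ρ * (2 + 4 * h)) + 4 * h * (2 * h ^ 2)) := by gcongr
      _ ≤ 12 * (ρ ^ 2 * h ^ 2) + 8 * (ρ * h ^ 3) := by
          have e0 : h ≤ h ^ 2 := by nlinarith
          have e5 : ρ ^ 2 * h ≤ ρ ^ 2 * h ^ 2 := by gcongr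
          have e8 : ρ * (2 * h * (ρ * (2 + 4 * h)) + 4 * h * (2 * h ^ 2)) =
            4 * (ρ ^ 2 * h) + 8 * (ρ ^ 2 * h ^ 2) + 8 * (ρ * h ^ 3) := by ring
          rw [e8]
          linarith
  have hA2 : ∑ T ∈ (univ : Finset (Fin (2 ^ m) × Fin (2 ^ m))).filter
      (fun T => G T ∧ lev m R T.1 ≤ lev m R T.2),
      (Nat.gcd (dd T.1 r) (dd T.2 r) : ℝ) / ((dd T.1 r : ℝ) * (dd T.2 T.1 : ℝ)) ≤ 4 * h ^ 3 := by
    refine le_trans ?_ (sum_S2_le r)
    apply sum_le_sum_of_subset_of_nonneg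
    · rintro ⟨p, q⟩ hT
      simp only [mem_filter, mem_univ, true_and, G] at hT ⊢
      exact ⟨hT.1.2.1, hT.1.1.symm⟩
    · intro T _ _
      positivity
  have hA3 : ∑ T ∈ (univ : Finset (Fin (2 ^ m) × Fin (2 ^ m))).filter
      (fun T => G T ∧ lev m R T.1 ≤ lev m R T.2), iv m R T.1 * iv m R T.2 ≤
      (ρ * (2 + 4 * h)) ^ 2 := by
    calc ∑ T ∈ (univ : Finset (Fin (2 ^ m) × Fin (2 ^ m))).filter
          (fun T => G T ∧ lev m R T.1 ≤ lev m R T.2), iv m R T.1 * iv m R T.2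
        ≤ ∑ T : Fin (2 ^ m) × Fin (2 ^ m), iv m R T.1 * iv m R T.2 := by
          apply sum_le_sum_of_subset_of_nonneg (filter_subset _ _)
          intro T _ _
          exact mul_nonneg (iv_pos R _).le (iv_pos R _).le
      _ = (∑ p, iv m R p) * ∑ q, iv m R q := by
          rw [sum_mul_sum, Fintype.sum_prod_type]
      _ ≤ (ρ * (2 + 4 * h)) * (ρ * (2 + 4 * h)) := by
          have h1 := sum_iv_le R hR
          have h2 : 0 ≤ ∑ p, iv m R p := sum_nonneg (fun p _ => (iv_pos R p).le)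
          exact mul_le_mul h1 h1 h2 (h2.trans h1)
      _ = _ := by ring
  have hA4 : ∑ T ∈ (univ : Finset (Fin (2 ^ m) × Fin (2 ^ m))).filter
      (fun T => G T ∧ lev m R T.1 ≤ lev m R T.2), iv m R T.1 * (1 / (dd T.2 T.1 : ℝ)) ≤
      (ρ * (2 + 4 * h)) * (2 * h) := by
    have h1 : ∑ T ∈ (univ : Finset (Fin (2 ^ m) × Fin (2 ^ m))).filter
        (fun T => G T ∧ lev m R T.1 ≤ lev m R T.2), iv m R T.1 * (1 / (dd T.2 T.1 : ℝ)) ≤
        ∑ p : Fin (2 ^ m), ∑ q ∈ (univ : Finset (Fin (2 ^ m))).filter (fun q => q ≠ p),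
          iv m R p * (1 / (dd q p : ℝ)) := by
      rw [sum_sigma']
      apply sum_le_sum_of_inj _ _ (fun T : Fin (2 ^ m) × Fin (2 ^ m) => (⟨T.1, T.2⟩ : (_ : Fin (2 ^ m)) × Fin (2 ^ m)))
      · rintro ⟨p, q⟩ hT
        simp only [mem_filter, mem_univ, true_and, G] at hT
        simp only [mem_sigma, mem_filter, mem_univ, true_and]
        exact hT.1.1.symm
      · rintro ⟨p, q⟩ _ ⟨p', q'⟩ _ heq
        simp only [Sigma.mk.injEq, heq_eq_eq] at heq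
        rw [heq.1, heq.2]
      · rintro ⟨p, q⟩ _
        exact le_rfl
      · rintro ⟨p, q⟩ _
        have := (iv_pos R p).le
        positivity
    refine h1.trans ?_
    have h2 : ∀ p ∈ (univ : Finset (Fin (2 ^ m))),
        ∑ q ∈ (univ : Finset (Fin (2 ^ m))).filter (fun q => q ≠ p), iv m R p * (1 / (dd q p : ℝ)) ≤
        iv m R p * (2 * h) := by
      intro p _
      rw [← mul_sum]
      apply mul_le_mul_of_nonneg_left _ (iv_pos R p).le
      have h3 := sum_dd_ne p (fun d => 1 / (d : ℝ)) (fun d => by positivity)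
      exact h3
    refine (sum_le_sum h2).trans ?_
    rw [← sum_mul]
    apply mul_le_mul_of_nonneg_right (sum_iv_le R hR)
    linarith
  -- put together
  have hh0 : 0 < h := by linarith
  have hρ0 : 0 < ρ := by linarith
  have htot : ∑ T ∈ (univ : Finset (Fin (2 ^ m) × Fin (2 ^ m))).filter
      (fun T => G T ∧ lev m R T.1 ≤ lev m R T.2), W T ≤
      (C / s) * (84 * (ρ ^ 2 * h ^ 2 + ρ * h ^ 3)) := by
    refine (sum_le_sum hterm).trans ?_
    rw [← mul_sum]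
    apply mul_le_mul_of_nonneg_left _ (by positivity)
    rw [sum_add_distrib, sum_add_distrib, sum_add_distrib, ← mul_sum, ← mul_sum, ← mul_sum]
    have e0 : h ≤ h ^ 2 := by nlinarith
    have e0' : 1 ≤ h ^ 2 := one_le_pow₀ hh1
    have e3 : ρ ≤ ρ ^ 2 := by nlinarith
    have f0 : ρ ^ 2 ≤ ρ ^ 2 * h ^ 2 := by nlinarith
    have f1 : ρ ^ 2 * h ≤ ρ ^ 2 * h ^ 2 := by gcongr
    have f3 : h ^ 3 ≤ ρ * h ^ 3 := by nlinarith [pow_pos hh0 3]
    have f4 : ρ * h ≤ ρ ^ 2 * h ^ 2 := mul_le_mul e3 e0 hh0.le (by positivity)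
    have f5 : ρ * h ^ 2 ≤ ρ ^ 2 * h ^ 2 := by gcongr
    have f6 : 0 ≤ ρ * h ^ 3 := by positivity
    have g3 : (ρ * (2 + 4 * h)) ^ 2 = 4 * ρ ^ 2 + 16 * (ρ ^ 2 * h) + 16 * (ρ ^ 2 * h ^ 2) := by ring
    have g4 : (ρ * (2 + 4 * h)) * (2 * h) = 4 * (ρ * h) + 8 * (ρ * h ^ 2) := by ring
    rw [g3] at hA3
    rw [g4] at hA4
    linarith
  calc ∑ T, ∑ ω ∈ cell m s R ω₀, wgt m s r u T ω = ∑ T, W T := rfl
    _ ≤ 2 * ((C / s) * (84 * (ρ ^ 2 * h ^ 2 + ρ * h ^ 3))) := by linarith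
    _ = _ := by ring

end Pool.Agent.NTL
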