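import Mathlib

set_option autoImplicit false

namespace Pool.Agent.NTL

open Finset

/-- harmonic sum -/
noncomputable def H (n : ℕ) : ℝ := ∑ i ∈ Icc 1 n, (1 : ℝ) / i

theorem H_le (n : ℕ) : H n ≤ 1 + Real.log n := by
  have h := harmonic_le_one_add_log n
  have h2 : H n = (harmonic n : ℝ) := by
    rw [harmonic_eq_sum_Icc]
    unfold H
    push_cast
    apply sum_congr rfl
    intro i _
    rw [one_div]
  rw [h2]
  exact h

theorem H_nonneg (n : ℕ) : 0 ≤ H n := by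
  unfold H
  apply sum_nonneg
  intro i _
  positivity

theorem sum_le_sum_of_inj {ι κ : Type} [DecidableEq κ] (A : Finset ι) (B : Finset κ) (e : ι → κ)
    (f : ι → ℝ) (g : κ → ℝ) (hmaps : ∀ x ∈ A, e x ∈ B)
    (hinj : ∀ x ∈ A, ∀ y ∈ A, e x = e y → x = y) (hfg : ∀ x ∈ A, f x ≤ g (e x))
    (hg : ∀ y ∈ B, 0 ≤ g y) : ∑ x ∈ A, f x ≤ ∑ y ∈ B, g y := by
  calc ∑ x ∈ A, f x ≤ ∑ x ∈ A, g (e x) := sum_le_sum hfg
    _ = ∑ y ∈ A.image e, g y := by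
        rw [sum_image]
        intro x hx y hy h
        exact hinj x hx y hy h
    _ ≤ ∑ y ∈ B, g y := by
        apply sum_le_sum_of_subset_of_nonneg
        · intro y hy
          obtain ⟨x, hx, rfl⟩ := mem_image.1 hy
          exact hmaps x hx
        · intro y hy _
          exact hg y hy

/-- `∑ gcd(a,b)/(ab) ≤ H³`. -/
theorem sum_gcd_le (n : ℕ) :
    ∑ d ∈ Icc 1 n ×ˢ Icc 1 n, (Nat.gcd d.1 d.2 : ℝ) / ((d.1 : ℝ) * d.2) ≤ H n ^ 3 := by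
  have h1 : ∑ d ∈ Icc 1 n ×ˢ Icc 1 n, (Nat.gcd d.1 d.2 : ℝ) / ((d.1 : ℝ) * d.2) ≤
      ∑ t ∈ Icc 1 n ×ˢ (Icc 1 n ×ˢ Icc 1 n), (1 / (t.1 : ℝ)) * ((1 / (t.2.1 : ℝ)) * (1 / (t.2.2 : ℝ))) := by
    apply sum_le_sum_of_inj _ _ (fun d => (Nat.gcd d.1 d.2, d.1 / Nat.gcd d.1 d.2, d.2 / Nat.gcd d.1 d.2))
    · rintro ⟨a, b⟩ h
      simp only [mem_product, mem_Icc] at h ⊢
      obtain ⟨⟨ha1, ha2⟩, hb1, hb2⟩ := h
      have hg : 0 < Nat.gcd a b := Nat.gcd_pos_of_pos_left _ ha1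
      have hga : Nat.gcd a b ≤ a := Nat.gcd_le_left b ha1
      have hgb : Nat.gcd a b ≤ b := Nat.le_of_dvd hb1 (Nat.gcd_dvd_right a b)
      refine ⟨⟨hg, hga.trans ha2⟩, ⟨Nat.div_pos hga hg, (Nat.div_le_self _ _).trans ha2⟩,
        Nat.div_pos hgb hg, (Nat.div_le_self _ _).trans hb2⟩
    · rintro ⟨a, b⟩ h ⟨c, d⟩ h' heq
      simp only [Prod.mk.injEq] at heq ⊢
      obtain ⟨e1, e2, e3⟩ := heq
      constructor
      · rw [← Nat.mul_div_cancel' (Nat.gcd_dvd_left a b), ← Nat.mul_div_cancel' (Nat.gcd_dvd_left c d),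
          e2, e1]
      · rw [← Nat.mul_div_cancel' (Nat.gcd_dvd_right a b),
          ← Nat.mul_div_cancel' (Nat.gcd_dvd_right c d), e3, e1]
    · rintro ⟨a, b⟩ h
      simp only [mem_product, mem_Icc] at h ⊢
      obtain ⟨⟨ha1, ha2⟩, hb1, hb2⟩ := h
      have hg : 0 < Nat.gcd a b := Nat.gcd_pos_of_pos_left _ ha1
      have hgR : (0 : ℝ) < Nat.gcd a b := by exact_mod_cast hg
      have ha : (a : ℝ) = (Nat.gcd a b : ℝ) * ((a / Nat.gcd a b : ℕ) : ℝ) := by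
        exact_mod_cast (Nat.mul_div_cancel' (Nat.gcd_dvd_left a b)).symm
      have hb : (b : ℝ) = (Nat.gcd a b : ℝ) * ((b / Nat.gcd a b : ℕ) : ℝ) := by
        exact_mod_cast (Nat.mul_div_cancel' (Nat.gcd_dvd_right a b)).symm
      have ha0 : (0 : ℝ) < ((a / Nat.gcd a b : ℕ) : ℝ) := by
        exact_mod_cast Nat.div_pos (Nat.gcd_le_left b ha1) hg
      have hb0 : (0 : ℝ) < ((b / Nat.gcd a b : ℕ) : ℝ) := by
        exact_mod_cast Nat.div_pos (Nat.le_of_dvd hb1 (Nat.gcd_dvd_right a b)) hg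
      apply le_of_eq
      generalize ((a / Nat.gcd a b : ℕ) : ℝ) = α at *
      generalize ((b / Nat.gcd a b : ℕ) : ℝ) = β at *
      generalize (Nat.gcd a b : ℝ) = g at *
      rw [ha, hb]
      field_simp
    · rintro ⟨a, b, c⟩ _
      positivity
  refine h1.trans (le_of_eq ?_)
  rw [sum_product]
  have h2 : ∀ x ∈ Icc 1 n, ∑ y ∈ Icc 1 n ×ˢ Icc 1 n, (1 / (x : ℝ)) * ((1 / (y.1 : ℝ)) * (1 / (y.2 : ℝ)))
      = (1 / (x : ℝ)) * (H n * H n) := by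
    intro x _
    rw [← mul_sum, sum_product]
    congr 1
    unfold H
    rw [sum_mul_sum]
  rw [sum_congr rfl h2, ← sum_mul]
  unfold H
  ring

theorem sum_inv_le (n : ℕ) :
    ∑ d ∈ Icc 1 n ×ˢ Icc 1 n, (1 : ℝ) / ((d.1 : ℝ) * d.2) = H n ^ 2 := by
  rw [sum_product]
  unfold H
  rw [sq, sum_mul_sum]
  apply sum_congr rfl
  intro x _
  apply sum_congr rfl
  intro y _
  rw [div_mul_div_comm, one_mul]

/-- weight of a pair of gaps -/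
noncomputable def wt (n s : ℕ) (d : ℕ × ℕ) : ℝ :=
  if d.1 * d.2 < n then (s : ℝ) * ((s : ℝ) * (Nat.gcd d.1 d.2 : ℝ) / ((d.1 : ℝ) + d.2) + 1) else 0

theorem wt_nonneg (n s : ℕ) (d : ℕ × ℕ) : 0 ≤ wt n s d := by
  unfold wt
  split_ifs
  · positivity
  · exact le_rfl

theorem wt_le (n s : ℕ) (d : ℕ × ℕ) (h1 : 1 ≤ d.1) (h2 : 1 ≤ d.2) :
    wt n s d ≤ (s : ℝ) * ((s : ℝ) * (Real.sqrt n / 2) * ((Nat.gcd d.1 d.2 : ℝ) / ((d.1 : ℝ) * d.2)) +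
      n * (1 / ((d.1 : ℝ) * d.2))) := by
  have ha : (0 : ℝ) < d.1 := by exact_mod_cast h1
  have hb : (0 : ℝ) < d.2 := by exact_mod_cast h2
  have hg : (0 : ℝ) ≤ (Nat.gcd d.1 d.2 : ℝ) := by positivity
  unfold wt
  split_ifs with h
  · have hlt : (d.1 : ℝ) * d.2 ≤ n := by exact_mod_cast h.le
    apply mul_le_mul_of_nonneg_left _ (by positivity)
    have e1 : (s : ℝ) * (Nat.gcd d.1 d.2 : ℝ) / ((d.1 : ℝ) + d.2) ≤
        (s : ℝ) * (Real.sqrt n / 2) * ((Nat.gcd d.1 d.2 : ℝ) / ((d.1 : ℝ) * d.2)) := by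
      have e3 : (1 : ℝ) / ((d.1 : ℝ) + d.2) ≤ (Real.sqrt n / 2) * (1 / ((d.1 : ℝ) * d.2)) := by
        rw [div_mul_div_comm, mul_one, div_le_div_iff₀ (by positivity) (by positivity), one_mul]
        have hs : Real.sqrt ((d.1 : ℝ) * d.2) ≤ Real.sqrt n := Real.sqrt_le_sqrt hlt
        have hs2 : Real.sqrt ((d.1 : ℝ) * d.2) * Real.sqrt ((d.1 : ℝ) * d.2) = (d.1 : ℝ) * d.2 :=
          Real.mul_self_sqrt (by positivity)
        have ham : 2 * Real.sqrt ((d.1 : ℝ) * d.2) ≤ (d.1 : ℝ) + d.2 := by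
          have hh : (2 * Real.sqrt ((d.1 : ℝ) * d.2)) ^ 2 ≤ ((d.1 : ℝ) + d.2) ^ 2 := by
            have : (2 * Real.sqrt ((d.1 : ℝ) * d.2)) ^ 2 = 4 * ((d.1 : ℝ) * d.2) := by
              rw [mul_pow, sq (Real.sqrt _), hs2]; ring
            rw [this]
            nlinarith [sq_nonneg ((d.1 : ℝ) - d.2)]
          exact (abs_le_of_sq_le_sq' hh (by positivity)).2
        have hs0 : 0 ≤ Real.sqrt ((d.1 : ℝ) * d.2) := Real.sqrt_nonneg _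
        nlinarith
      calc (s : ℝ) * (Nat.gcd d.1 d.2 : ℝ) / ((d.1 : ℝ) + d.2)
          = ((s : ℝ) * (Nat.gcd d.1 d.2 : ℝ)) * (1 / ((d.1 : ℝ) + d.2)) := by ring
        _ ≤ ((s : ℝ) * (Nat.gcd d.1 d.2 : ℝ)) * ((Real.sqrt n / 2) * (1 / ((d.1 : ℝ) * d.2))) :=
            mul_le_mul_of_nonneg_left e3 (by positivity)
        _ = _ := by ring
    have e2 : (1 : ℝ) ≤ n * (1 / ((d.1 : ℝ) * d.2)) := by
      rw [mul_one_div, le_div_iff₀ (by positivity), one_mul]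
      exact hlt
    linarith
  · positivity

theorem sum_wt_le (n s : ℕ) :
    ∑ d ∈ Icc 1 n ×ˢ Icc 1 n, wt n s d ≤
      (s : ℝ) * ((s : ℝ) * (Real.sqrt n / 2) * H n ^ 3 + n * H n ^ 2) := by
  calc ∑ d ∈ Icc 1 n ×ˢ Icc 1 n, wt n s d
      ≤ ∑ d ∈ Icc 1 n ×ˢ Icc 1 n, (s : ℝ) * ((s : ℝ) * (Real.sqrt n / 2) *
        ((Nat.gcd d.1 d.2 : ℝ) / ((d.1 : ℝ) * d.2)) + n * (1 / ((d.1 : ℝ) * d.2))) := by
        apply sum_le_sum
        rintro ⟨a, b⟩ h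
        simp only [mem_product, mem_Icc] at h
        exact wt_le n s (a, b) h.1.1 h.2.1
    _ = (s : ℝ) * ((s : ℝ) * (Real.sqrt n / 2) * (∑ d ∈ Icc 1 n ×ˢ Icc 1 n,
          (Nat.gcd d.1 d.2 : ℝ) / ((d.1 : ℝ) * d.2)) +
          n * ∑ d ∈ Icc 1 n ×ˢ Icc 1 n, (1 : ℝ) / ((d.1 : ℝ) * d.2)) := by
        rw [← mul_sum, sum_add_distrib, ← mul_sum, ← mul_sum]
    _ ≤ (s : ℝ) * ((s : ℝ) * (Real.sqrt n / 2) * H n ^ 3 + n * H n ^ 2) := by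
        rw [sum_inv_le]
        apply mul_le_mul_of_nonneg_left _ (by positivity)
        have := sum_gcd_le n
        have h2 : (s : ℝ) * (Real.sqrt n / 2) * (∑ d ∈ Icc 1 n ×ˢ Icc 1 n,
          (Nat.gcd d.1 d.2 : ℝ) / ((d.1 : ℝ) * d.2)) ≤ (s : ℝ) * (Real.sqrt n / 2) * H n ^ 3 :=
          mul_le_mul_of_nonneg_left this (by positivity)
        linarith

end Pool.Agent.NTL
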