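import Pool.Agent.Hhelper37.NTLBasic
import Pool.Agent.Hhelper37.Counting
import Pool.Agent.Hhelper37.NTLSums

set_option autoImplicit false

namespace Pool.Agent.NTL

open Finset Pool.Agent.Counting

/-- three graph points are collinear (integer form) -/
def bad {n : ℕ} (p q r : Fin n) (a : Fin n → ℤ) : Prop :=
  (a q - a p) * (((r : ℕ) : ℤ) - ((p : ℕ) : ℤ)) = (a r - a p) * (((q : ℕ) : ℤ) - ((p : ℕ) : ℤ))

theorem bad_loc {n : ℕ} (p q r : Fin n) (a b : Fin n → ℤ) (h1 : a p = b p) (h2 : a q = b q)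
    (h3 : a r = b r) : bad p q r a ↔ bad p q r b := by
  unfold bad
  rw [h1, h2, h3]

theorem bad_swap {n : ℕ} (p q r : Fin n) (a : Fin n → ℤ) (h : bad p q r a) : bad q p r a := by
  unfold bad at h ⊢
  linear_combination -h

theorem bad_swap' {n : ℕ} (p q r : Fin n) (a : Fin n → ℤ) (h : bad p q r a) : bad p r q a := by
  unfold bad at h ⊢
  linear_combination -h

noncomputable instance {n : ℕ} (p q r : Fin n) (a : Fin n → ℤ) : Decidable (bad p q r a) :=
  Classical.propDecidable _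

theorem card_modEq_le (a : ℤ) (s : ℕ) (r : ℤ) (hr : 0 < r) (v : ℤ) :
    (((Ioc a (a + s)).filter (fun x => x ≡ v [ZMOD r])).card : ℝ) ≤ s / r + 1 := by
  have h := Int.Ioc_filter_modEq_card a (a + s) hr v
  have hrR : (0 : ℚ) < r := by exact_mod_cast hr
  have h1 : ((((Ioc a (a + s)).filter (fun x => x ≡ v [ZMOD r])).card : ℤ) : ℚ) ≤ s / r + 1 := by
    rw [h]
    have e1 : (⌊((a + s : ℤ) - (v : ℤ) : ℚ) / r⌋ : ℚ) ≤ ((a + s : ℤ) - (v : ℤ) : ℚ) / r :=
      Int.floor_le _
    have e2 : ((a : ℤ) - (v : ℤ) : ℚ) / r < (⌊((a : ℤ) - (v : ℤ) : ℚ) / r⌋ : ℚ) + 1 :=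
      Int.lt_floor_add_one _
    have e3 : ((a + s : ℤ) - (v : ℤ) : ℚ) / r = ((a : ℤ) - (v : ℤ) : ℚ) / r + s / r := by
      push_cast
      ring
    have e4 : (0 : ℚ) ≤ s / r := by positivity
    rw [Int.cast_max]
    apply max_le
    · push_cast at e1 e2 e3 ⊢
      linarith
    · push_cast
      linarith
  have h2 : (((((Ioc a (a + s)).filter (fun x => x ≡ v [ZMOD r])).card : ℤ) : ℚ) : ℝ) ≤
      ((s / r + 1 : ℚ) : ℝ) := by exact_mod_cast h1
  push_cast at h2
  exact h2

/-- the number of collinear choices on a triple -/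
theorem cnt_le {n : ℕ} (W : Fin n → Finset ℤ) (c : Fin n → ℤ) (s : ℕ)
    (hW : ∀ j, W j = Ioc (c j) (c j + s)) (p q k : Fin n) (i j l : Fin n)
    (hset : ({p, q, k} : Finset (Fin n)) = {i, j, l})
    (hbad : ∀ a, bad p q k a → bad i j l a) (hij : i < j) (hjl : j < l) :
    (cnt W bad p q k : ℝ) ≤ (s : ℝ) * ((s : ℝ) *
      (Nat.gcd ((j : ℕ) - i) ((l : ℕ) - j) : ℝ) / ((((j : ℕ) - (i : ℕ) : ℕ) : ℝ) +
        (((l : ℕ) - (j : ℕ) : ℕ) : ℝ)) + 1) := by
  have hij' : (i : ℕ) < j := hij
  have hjl' : (j : ℕ) < l := hjl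
  set e : ℕ := (j : ℕ) - i with he
  set f : ℕ := (l : ℕ) - j with hf
  set g : ℕ := Nat.gcd e f with hg
  have hepos : 0 < e := by omega
  have hgpos : 0 < g := Nat.gcd_pos_of_pos_left _ hepos
  have hge : g ∣ e := Nat.gcd_dvd_left e f
  have hgf : g ∣ f := Nat.gcd_dvd_right e f
  obtain ⟨e', he'⟩ := hge
  obtain ⟨f', hf'⟩ := hgf
  have hcop : Nat.Coprime e' (e' + f') := by
    have h1 : Nat.gcd e' f' = 1 := by
      have h2 : Nat.gcd (g * e') (g * f') = g * Nat.gcd e' f' := Nat.gcd_mul_left g e' f'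
      rw [← he', ← hf', ← hg] at h2
      exact (Nat.eq_of_mul_eq_mul_left hgpos (by rw [← h2]; ring))
    have : Nat.Coprime e' f' := h1
    simpa using this
  have he'pos : 0 < e' := by
    rcases Nat.eq_zero_or_pos e' with h | h
    · rw [h] at he'; omega
    · exact h
  let r : ℕ := e' + f'
  have hrpos : 0 < r := by simp only [r]; omega
  have hine : i ≠ l := by
    intro h; rw [h] at hij'; omega
  have hije : i ≠ j := ne_of_lt hij
  have hjle : j ≠ l := ne_of_lt hjl
  have hsub : (cnt W bad p q k) ≤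
      ((W i).sigma (fun x => (Ioc (c l) (c l + s)).filter (fun y => y ≡ x [ZMOD (r : ℤ)]))).card := by
    unfold cnt
    rw [hset]
    apply card_le_card_of_injOn (fun a => (⟨a i, a l⟩ : (_ : ℤ) × ℤ))
    · intro a ha
      have ha' : a ∈ (A W {i, j, l}).filter (fun a => bad p q k a) := ha
      rw [mem_filter, mem_A] at ha'
      obtain ⟨⟨hA, -⟩, hb⟩ := ha'
      have hb' := hbad a hb
      simp only [mem_coe, mem_sigma, mem_filter]
      refine ⟨hA i (by simp), ?_, ?_⟩
      · rw [← hW l]; exact hA l (by simp)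
      · unfold bad at hb'
        have e1 : ((l : ℕ) : ℤ) - ((i : ℕ) : ℤ) = (g : ℤ) * ((r : ℕ) : ℤ) := by
          have : (l : ℕ) = (i : ℕ) + g * (e' + f') := by
            rw [mul_add, ← he', ← hf']; omega
          simp only [r]
          rw [this]
          push_cast
          ring
        have e2 : ((j : ℕ) : ℤ) - ((i : ℕ) : ℤ) = (g : ℤ) * (e' : ℤ) := by
          have : (j : ℕ) = (i : ℕ) + g * e' := by
            rw [← he']; omega
          rw [this]
          push_cast
          ring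
        rw [e1, e2] at hb'
        have hg0 : (g : ℤ) ≠ 0 := by exact_mod_cast hgpos.ne'
        have e3 : (a j - a i) * ((r : ℕ) : ℤ) = (a l - a i) * (e' : ℤ) := by
          apply mul_left_cancel₀ hg0
          linear_combination hb'
        have hdvd : ((r : ℕ) : ℤ) ∣ (a l - a i) * (e' : ℤ) := ⟨a j - a i, by rw [← e3]; ring⟩
        have hcop' : IsCoprime ((r : ℕ) : ℤ) (e' : ℤ) := by
          apply Int.isCoprime_iff_gcd_eq_one.2
          have : Nat.Coprime r e' := hcop.symm
          exact_mod_cast this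
        have hdvd2 : ((r : ℕ) : ℤ) ∣ (a l - a i) := hcop'.dvd_of_dvd_mul_right hdvd
        exact (Int.modEq_iff_dvd.2 hdvd2).symm
    · intro a ha b hb hab
      have ha' : a ∈ (A W {i, j, l}).filter (fun a => bad p q k a) := ha
      have hb' : b ∈ (A W {i, j, l}).filter (fun a => bad p q k a) := hb
      rw [mem_filter, mem_A] at ha' hb'
      obtain ⟨⟨-, hA⟩, hba⟩ := ha'
      obtain ⟨⟨-, hB⟩, hbb⟩ := hb'
      have hba' := hbad a hba
      have hbb' := hbad b hbb
      simp only [Sigma.mk.injEq, heq_eq_eq] at hab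
      obtain ⟨h1, h2⟩ := hab
      have h3 : a j = b j := by
        unfold bad at hba' hbb'
        rw [h1, h2] at hba'
        have hne : ((l : ℕ) : ℤ) - ((i : ℕ) : ℤ) ≠ 0 := by omega
        have : (a j - b i) * (((l : ℕ) : ℤ) - ((i : ℕ) : ℤ)) =
            (b j - b i) * (((l : ℕ) : ℤ) - ((i : ℕ) : ℤ)) := by rw [hba', hbb']
        have := mul_right_cancel₀ hne this
        linarith
      funext t
      by_cases ht : t ∈ ({i, j, l} : Finset (Fin n))
      · simp only [mem_insert, mem_singleton] at ht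
        rcases ht with rfl | rfl | rfl
        · exact h1
        · exact h3
        · exact h2
      · rw [hA t ht, hB t ht]
  have hcard : (((W i).sigma (fun x => (Ioc (c l) (c l + s)).filter
      (fun y => y ≡ x [ZMOD (r : ℤ)]))).card : ℝ) ≤ s * (s / (r : ℝ) + 1) := by
    rw [card_sigma]
    push_cast
    calc ∑ x ∈ W i, (((Ioc (c l) (c l + s)).filter (fun y => y ≡ x [ZMOD (r : ℤ)])).card : ℝ)
        ≤ ∑ x ∈ W i, ((s : ℝ) / (r : ℝ) + 1) := by
          apply sum_le_sum
          intro x _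
          have := card_modEq_le (c l) s (r : ℤ) (by exact_mod_cast hrpos) x
          push_cast at this
          exact this
      _ = s * (s / (r : ℝ) + 1) := by
          rw [sum_const, hW i, Int.card_Ioc]
          simp only [add_sub_cancel_left, Int.toNat_natCast, nsmul_eq_mul]
  have hfinal : (s : ℝ) * (s / (r : ℝ) + 1) = (s : ℝ) * ((s : ℝ) * (g : ℝ) / ((e : ℝ) + (f : ℝ)) + 1) := by
    have hg0 : (g : ℝ) ≠ 0 := by exact_mod_cast hgpos.ne'
    have hr0 : (r : ℝ) ≠ 0 := by exact_mod_cast hrpos.ne'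
    have : (e : ℝ) + (f : ℝ) = (g : ℝ) * (r : ℝ) := by
      have : e + f = g * r := by
        simp only [r]; rw [mul_add, ← he', ← hf']
      exact_mod_cast this
    rw [this]
    field_simp
  calc (cnt W bad p q k : ℝ) ≤ (((W i).sigma (fun x => (Ioc (c l) (c l + s)).filter
      (fun y => y ≡ x [ZMOD (r : ℤ)]))).card : ℝ) := by exact_mod_cast hsub
    _ ≤ s * (s / (r : ℝ) + 1) := hcard
    _ = _ := hfinal

end Pool.Agent.NTL
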