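import Mathlib

set_option autoImplicit false

namespace Pool.Agent.NTL

/-- `Admissible n x`: there are integers `0 < a_1 < ... < a_n ≤ x` such that no three of the `n`
points `(j, a_j)`, `1 ≤ j ≤ n`, lie on a common straight line of the plane. -/
def Admissible (n : ℕ) (x : ℝ) : Prop :=
  ∃ a : ℕ → ℤ,
    (∀ j, 1 ≤ j → j ≤ n → 0 < a j ∧ (a j : ℝ) ≤ x) ∧
    (∀ i j, 1 ≤ i → i < j → j ≤ n → a i < a j) ∧
    (∀ i j k, 1 ≤ i → i < j → j < k → k ≤ n →
      ¬ Collinear ℝ ({((i : ℝ), (a i : ℝ)), ((j : ℝ), (a j : ℝ)), ((k : ℝ), (a k : ℝ))} :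
        Set (ℝ × ℝ)))

/-- `N x` is the largest `n` for which such a sequence exists. -/
noncomputable def N (x : ℝ) : ℕ := sSup {n : ℕ | Admissible n x}

end Pool.Agent.NTL
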