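import Mathlib

set_option autoImplicit false

namespace Pool.Agent.NTL

open Finset

/-- Joint density bound: two functions, each driven by its own coordinate. -/
theorem two_coord {E : Type} [Fintype E] [DecidableEq E] (S : E → Finset ℤ)
    (F₁ F₂ : (E → ℤ) → ℤ) (e₁ e₂ : E) (he : e₁ ≠ e₂)
    (hF1 : ∀ θ θ' : E → ℤ, (∀ e, e ≠ e₁ → e ≠ e₂ → θ e = θ' e) → F₁ θ = F₁ θ' → θ e₁ = θ' e₁)
    (hF2 : ∀ θ θ' : E → ℤ, (∀ e, e ≠ e₂ → θ e = θ' e) → F₂ θ = F₂ θ' → θ e₂ = θ' e₂)
    (y₁ y₂ : ℤ) :
    ((Fintype.piFinset S).filter (fun θ => F₁ θ = y₁ ∧ F₂ θ = y₂)).card *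
      ((S e₁).card * (S e₂).card) ≤ (Fintype.piFinset S).card := by
  rw [← card_product, ← card_product]
  apply card_le_card_of_injOn
    (fun t => Function.update (Function.update t.1 e₁ t.2.1) e₂ t.2.2)
  · rintro ⟨θ, x₁, x₂⟩ ht
    simp only [coe_product, Set.mem_prod, mem_coe, mem_filter, Fintype.mem_piFinset] at ht
    obtain ⟨⟨hθ, -⟩, hx₁, hx₂⟩ := ht
    simp only [mem_coe, Fintype.mem_piFinset]
    intro e
    by_cases h2 : e = e₂
    · subst h2
      rw [Function.update_self]
      exact hx₂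
    · rw [Function.update_of_ne h2]
      by_cases h1 : e = e₁
      · subst h1
        rw [Function.update_self]
        exact hx₁
      · rw [Function.update_of_ne h1]
        exact hθ e
  · rintro ⟨θ, x₁, x₂⟩ ht ⟨θ', x₁', x₂'⟩ ht' heq
    simp only [coe_product, Set.mem_prod, mem_coe, mem_filter, Fintype.mem_piFinset] at ht ht'
    simp only at heq
    have hx2 : x₂ = x₂' := by
      have := congrFun heq e₂
      rwa [Function.update_self, Function.update_self] at this
    have hx1 : x₁ = x₁' := by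
      have := congrFun heq e₁
      rwa [Function.update_of_ne he, Function.update_of_ne he, Function.update_self,
        Function.update_self] at this
    have hoff : ∀ e, e ≠ e₁ → e ≠ e₂ → θ e = θ' e := by
      intro e h1 h2
      have := congrFun heq e
      rwa [Function.update_of_ne h2, Function.update_of_ne h2, Function.update_of_ne h1,
        Function.update_of_ne h1] at this
    have e1 : θ e₁ = θ' e₁ := hF1 θ θ' hoff (by rw [ht.1.2.1, ht'.1.2.1])
    have hoff2 : ∀ e, e ≠ e₂ → θ e = θ' e := by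
      intro e h2
      by_cases h1 : e = e₁
      · rw [h1]; exact e1
      · exact hoff e h1 h2
    have e2 : θ e₂ = θ' e₂ := hF2 θ θ' hoff2 (by rw [ht.1.2.2, ht'.1.2.2])
    have e3 : θ = θ' := by
      funext e
      by_cases h2 : e = e₂
      · rw [h2]; exact e2
      · exact hoff2 e h2
    rw [e3, hx1, hx2]

/-- Averaging over the classes of a partition. -/
theorem sum_avg {Ω : Type} [DecidableEq Ω] (C : Finset Ω) (cell : Ω → Finset Ω)
    (hself : ∀ x ∈ C, x ∈ cell x) (hsub : ∀ x ∈ C, cell x ⊆ C)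
    (heq : ∀ x ∈ C, ∀ y ∈ cell x, cell y = cell x) (φ : Ω → ℝ) :
    ∑ x ∈ C, (∑ y ∈ cell x, φ y) / ((cell x).card : ℝ) = ∑ y ∈ C, φ y := by
  have h1 : ∀ x ∈ C, (∑ y ∈ cell x, φ y) / ((cell x).card : ℝ) =
      ∑ y ∈ C, if y ∈ cell x then φ y / ((cell y).card : ℝ) else 0 := by
    intro x hx
    rw [sum_div, ← sum_filter]
    have : C.filter (fun y => y ∈ cell x) = cell x := by
      ext y
      rw [mem_filter]
      exact ⟨fun h => h.2, fun h => ⟨hsub x hx h, h⟩⟩
    rw [this]
    apply sum_congr rfl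
    intro y hy
    rw [heq x hx y hy]
  rw [sum_congr rfl h1, sum_comm]
  apply sum_congr rfl
  intro y hy
  have h2 : C.filter (fun x => y ∈ cell x) = cell y := by
    ext x
    rw [mem_filter]
    constructor
    · rintro ⟨hx, hyx⟩
      rw [heq x hx y hyx]
      exact hself x hx
    · intro hxy
      refine ⟨hsub y hy hxy, ?_⟩
      rw [heq y hy x hxy]
      exact hself y hy
  rw [← sum_filter, h2, sum_const, nsmul_eq_mul]
  have h3 : ((cell y).card : ℝ) ≠ 0 := by
    have : 0 < (cell y).card := card_pos.2 ⟨y, hself y hy⟩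
    exact_mod_cast this.ne'
  field_simp

/-- Abstract moment bound: `cell R ω` is the set of configurations agreeing with `ω` on the
variables revealed by `R`. -/
theorem moment {Ω ι τ : Type} [DecidableEq Ω] [DecidableEq ι] [Fintype τ]
    (D : Finset Ω) (cell : Finset ι → Ω → Finset Ω) (cols : τ → Finset ι) (w : τ → Ω → ℝ)
    (r : ι) (M : ℕ) (β : ℝ) (hβ : 0 ≤ β)
    (hself : ∀ R, ∀ x ∈ D, x ∈ cell R x) (hsub : ∀ R, ∀ x ∈ D, cell R x ⊆ D)
    (heq : ∀ R, ∀ x ∈ D, ∀ y ∈ cell R x, cell R y = cell R x)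
    (hmono : ∀ R R', R ⊆ R' → ∀ x ∈ D, cell R' x ⊆ cell R x)
    (hw0 : ∀ T x, 0 ≤ w T x) (hcols : ∀ T, (cols T).card ≤ 2)
    (hconst : ∀ R T, r ∈ R → cols T ⊆ R → ∀ x ∈ D, ∀ y ∈ cell R x, w T y = w T x)
    (hb : ∀ R, r ∈ R → R.card ≤ M → ∀ x ∈ D,
      ∑ y ∈ cell R x, ∑ T, w T y ≤ β * ((cell R x).card : ℝ)) :
    ∀ q : ℕ, ∀ R, r ∈ R → R.card + 2 * q ≤ M + 2 → ∀ x ∈ D,
      ∑ y ∈ cell R x, (∑ T, w T y) ^ q ≤ β ^ q * ((cell R x).card : ℝ) := by
  intro q
  induction q with
  | zero =>
    intro R _ _ x _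
    simp
  | succ q ih =>
    intro R hrR hRM x hx
    have hC : ∀ y ∈ cell R x, y ∈ D := fun y hy => hsub R x hx hy
    have h1 : ∑ y ∈ cell R x, (∑ T, w T y) ^ (q + 1) =
        ∑ T, ∑ y ∈ cell R x, w T y * (∑ T', w T' y) ^ q := by
      rw [sum_comm]
      apply sum_congr rfl
      intro y _
      rw [pow_succ, ← sum_mul, mul_comm]
    have h2 : ∀ T, ∑ y ∈ cell R x, w T y * (∑ T', w T' y) ^ q ≤
        ∑ y ∈ cell R x, w T y * β ^ q := by
      intro T
      set R' := R ∪ cols T with hR'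
      have hRR' : R ⊆ R' := subset_union_left
      have hTR' : cols T ⊆ R' := subset_union_right
      have hcard : R'.card + 2 * q ≤ M + 2 := by
        have h3 : R'.card ≤ R.card + (cols T).card := card_union_le _ _
        have h4 := hcols T
        omega
      rw [← sum_avg (cell R x) (cell R') (fun y hy => hself R' y (hC y hy))
        (fun y hy => by
          have := hmono R R' hRR' y (hC y hy)
          rw [heq R x hx y hy] at this
          exact this)
        (fun y hy z hz => heq R' y (hC y hy) z hz)]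
      apply sum_le_sum
      intro y hy
      have hyD := hC y hy
      have hpos : (0 : ℝ) < ((cell R' y).card : ℝ) := by
        have : 0 < (cell R' y).card := card_pos.2 ⟨y, hself R' y hyD⟩
        exact_mod_cast this
      rw [div_le_iff₀ hpos]
      calc ∑ z ∈ cell R' y, w T z * (∑ T', w T' z) ^ q
          = ∑ z ∈ cell R' y, w T y * (∑ T', w T' z) ^ q := by
            apply sum_congr rfl
            intro z hz
            rw [hconst R' T (hRR' hrR) hTR' y hyD z hz]
        _ = w T y * ∑ z ∈ cell R' y, (∑ T', w T' z) ^ q := by rw [mul_sum]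
        _ ≤ w T y * (β ^ q * ((cell R' y).card : ℝ)) :=
            mul_le_mul_of_nonneg_left (ih R' (hRR' hrR) hcard y hyD) (hw0 T y)
        _ = w T y * β ^ q * ((cell R' y).card : ℝ) := by ring
    calc ∑ y ∈ cell R x, (∑ T, w T y) ^ (q + 1)
        = ∑ T, ∑ y ∈ cell R x, w T y * (∑ T', w T' y) ^ q := h1
      _ ≤ ∑ T, ∑ y ∈ cell R x, w T y * β ^ q := sum_le_sum (fun T _ => h2 T)
      _ = β ^ q * ∑ y ∈ cell R x, ∑ T, w T y := by
          rw [sum_comm, mul_sum]
          apply sum_congr rfl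
          intro y _
          rw [← sum_mul, mul_comm]
      _ ≤ β ^ q * (β * ((cell R x).card : ℝ)) :=
          mul_le_mul_of_nonneg_left (hb R hrR (by omega) x hx) (pow_nonneg hβ q)
      _ = β ^ (q + 1) * ((cell R x).card : ℝ) := by ring

end Pool.Agent.NTL
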