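import Pool.Agent.Hhelper37.NTLAssemble

set_option autoImplicit false

namespace Pool.Agent.NTL

open Finset

theorem H_two_pow_le (m : ℕ) : H (2 ^ m) ≤ (m : ℝ) + 1 := by
  have hm0 : (0 : ℝ) ≤ m := Nat.cast_nonneg m
  have h1 := H_le (2 ^ m)
  have h2 : Real.log ((2 ^ m : ℕ) : ℝ) = m * Real.log 2 := by
    rw [Nat.cast_pow, Real.log_pow]
    norm_num
  have h3 : Real.log 2 ≤ 1 := by
    have := Real.log_two_lt_d9
    linarith
  have h4 : (m : ℝ) * Real.log 2 ≤ m * 1 := mul_le_mul_of_nonneg_left h3 hm0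
  rw [h2] at h1
  linarith

theorem admissible_two_pow (m : ℕ) (x : ℝ)
    (hx : 40000000 * ((m : ℝ) + 1) ^ 5 * 2 ^ m ≤ x) : Admissible (2 ^ m) x := by
  obtain ⟨s, hs⟩ : ∃ s : ℕ, s = 10000000 * (m + 1) ^ 4 := ⟨_, rfl⟩
  have hs0 : 0 < s := by rw [hs]; positivity
  obtain ⟨Q, hQ⟩ : ∃ Q : ℕ, Q = 6 * m + 25 := ⟨_, rfl⟩
  have hm0 : (0 : ℝ) ≤ m := Nat.cast_nonneg m
  have hH := H_two_pow_le m
  have hH0 := H_nonneg (2 ^ m)
  have hsR : (s : ℝ) = 10000000 * ((m : ℝ) + 1) ^ 4 := by rw [hs]; push_cast; ring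
  apply admissible_pow hs0 Q (by omega)
  · rw [mul_div_assoc', div_le_one (by exact_mod_cast hs0), hsR]
    have hQR : 2 * (Q : ℝ) ≤ 50 * ((m : ℝ) + 1) := by
      rw [hQ]; push_cast; linarith
    have hQ0 : (0 : ℝ) ≤ 2 * (Q : ℝ) := by positivity
    calc 16 * (168 * ((2 * (Q : ℝ)) ^ 2 * H (2 ^ m) ^ 2 + (2 * (Q : ℝ)) * H (2 ^ m) ^ 3))
        ≤ 16 * (168 * ((50 * ((m : ℝ) + 1)) ^ 2 * ((m : ℝ) + 1) ^ 2 +
            (50 * ((m : ℝ) + 1)) * ((m : ℝ) + 1) ^ 3)) := by gcongr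
      _ = 6854400 * ((m : ℝ) + 1) ^ 4 := by ring
      _ ≤ 10000000 * ((m : ℝ) + 1) ^ 4 := by
          have : 0 ≤ ((m : ℝ) + 1) ^ 4 := by positivity
          linarith
  · have h1 : m + 1 ≤ 2 ^ m := Nat.lt_two_pow_self
    have h2 : (m + 1) ^ 4 ≤ (2 ^ m) ^ 4 := Nat.pow_le_pow_left h1 4
    have h3 : (10000000 : ℕ) ≤ 2 ^ 24 := by norm_num
    calc 2 ^ m * s = 2 ^ m * (10000000 * (m + 1) ^ 4) := by rw [hs]
      _ ≤ 2 ^ m * (2 ^ 24 * (2 ^ m) ^ 4) := by gcongr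
      _ = 2 ^ (5 * m + 24) := by ring
      _ < 2 ^ Q := by
          rw [hQ]
          exact Nat.pow_lt_pow_right (by norm_num) (by omega)
  · refine le_trans ?_ hx
    rw [hsR]
    have h1 : (m : ℝ) + 4 ≤ 4 * ((m : ℝ) + 1) := by linarith
    calc ((m : ℝ) + 4) * (10000000 * ((m : ℝ) + 1) ^ 4) * 2 ^ m
        ≤ (4 * ((m : ℝ) + 1)) * (10000000 * ((m : ℝ) + 1) ^ 4) * 2 ^ m := by gcongr
      _ = 40000000 * ((m : ℝ) + 1) ^ 5 * 2 ^ m := by ring

theorem lower_bound_B (x : ℝ) (hx : 2 ≤ x) :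
    (1 / 200000000000 : ℝ) * (x / (Real.log x) ^ 5) ≤ N x := by
  have hx0 : (0 : ℝ) < x := by linarith
  set ℓ : ℝ := Real.log x with hℓ
  have hl2 : (0.69 : ℝ) ≤ ℓ := by
    have h1 : Real.log 2 ≤ Real.log x := Real.log_le_log (by norm_num) hx
    have h2 := Real.log_two_gt_d9
    rw [hℓ]; linarith
  have hl0 : 0 < ℓ := by linarith
  have hN1 : (1 : ℝ) ≤ N x := by
    have := le_N (admissible_one (x := x) (by linarith))
    exact_mod_cast this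
  set y : ℝ := x / (100000000000 * ℓ ^ 5) with hy
  have hl6 : (0.1 : ℝ) ≤ ℓ ^ 5 := by
    calc (0.1 : ℝ) ≤ 0.69 ^ 5 := by norm_num
      _ ≤ ℓ ^ 5 := by gcongr
  have hy0 : 0 < y := by positivity
  have hyx : y ≤ x := by
    rw [hy, div_le_iff₀ (by positivity)]
    nlinarith
  have hgoal : (1 / 200000000000 : ℝ) * (x / ℓ ^ 5) = y / 2 := by
    rw [hy]; field_simp; norm_num
  rw [hgoal]
  by_cases hsmall : y < 1
  · linarith
  push Not at hsmall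
  set k : ℕ := ⌊y⌋₊ with hk
  have hk1 : 1 ≤ k := Nat.le_floor (by simpa using hsmall)
  have hk2 : (k : ℝ) ≤ y := Nat.floor_le hy0.le
  have hk3 : y < k + 1 := Nat.lt_floor_add_one y
  set m : ℕ := Nat.log 2 k with hm
  have hm1 : 2 ^ m ≤ k := Nat.pow_log_le_self 2 (by omega)
  have hm2 : k < 2 ^ (m + 1) := Nat.lt_pow_succ_log_self (by norm_num) k
  have hm1R : (2 : ℝ) ^ m ≤ y := by
    have : ((2 ^ m : ℕ) : ℝ) ≤ k := by exact_mod_cast hm1
    push_cast at this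
    linarith
  have hm2R : y < 2 * 2 ^ m := by
    have h1 : k + 1 ≤ 2 * 2 ^ m := by
      have : (2 : ℕ) ^ (m + 1) = 2 * 2 ^ m := by ring
      omega
    have h2 : (k : ℝ) + 1 ≤ 2 * 2 ^ m := by exact_mod_cast h1
    linarith
  have hmlog : (m : ℝ) * 0.69 ≤ ℓ := by
    have h1 : Real.log ((2 : ℝ) ^ m) ≤ Real.log x :=
      Real.log_le_log (by positivity) (hm1R.trans hyx)
    rw [Real.log_pow] at h1
    have h2 := Real.log_two_gt_d9
    have h3 : (0 : ℝ) ≤ m := Nat.cast_nonneg m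
    nlinarith
  have hm1l : (m : ℝ) + 1 ≤ 3 * ℓ := by
    have h1 : (m : ℝ) ≤ ℓ / 0.69 := by rw [le_div_iff₀ (by norm_num)]; exact hmlog
    have h2 : (1 : ℝ) ≤ ℓ / 0.69 := by rw [le_div_iff₀ (by norm_num)]; linarith
    have h3 : ℓ / 0.69 + ℓ / 0.69 ≤ 3 * ℓ := by
      rw [← add_div, div_le_iff₀ (by norm_num)]
      linarith
    linarith
  have hadm : Admissible (2 ^ m) x := by
    apply admissible_two_pow
    calc 40000000 * ((m : ℝ) + 1) ^ 5 * 2 ^ m ≤ 40000000 * (3 * ℓ) ^ 5 * y := by gcongr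
      _ = (40000000 * 243 / 100000000000) * x := by
          rw [hy]
          field_simp
          norm_num
      _ ≤ x := by linarith
  have hfin := le_N hadm
  have hfinR : ((2 : ℝ) ^ m) ≤ N x := by exact_mod_cast hfin
  linarith

end Pool.Agent.NTL
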