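import Pool.Agent.Hhelper37.NTLProb

set_option autoImplicit false

namespace Pool.Agent.NTL

open Finset

/-- distance of two columns -/
def dd {n : ℕ} (p t : Fin n) : ℕ := (((p : ℕ) : ℤ) - ((t : ℕ) : ℤ)).natAbs

theorem dd_pos {n : ℕ} {p t : Fin n} (h : p ≠ t) : 0 < dd p t := by
  unfold dd
  rw [Ne, Fin.ext_iff] at h
  omega

theorem dd_lt {n : ℕ} (p t : Fin n) : dd p t < n := by
  unfold dd
  have := p.2
  have := t.2
  omega

theorem sum_dd_ne {n : ℕ} (t : Fin n) (F : ℕ → ℝ) (hF : ∀ d, 0 ≤ F d) :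
    ∑ p ∈ (univ : Finset (Fin n)).filter (fun p => p ≠ t), F (dd p t) ≤
      2 * ∑ d ∈ Icc 1 n, F d := by
  have h := sum_le_sum_of_inj ((univ : Finset (Fin n)).filter (fun p => p ≠ t))
    ((univ : Finset Bool) ×ˢ Icc 1 n) (fun p => (decide ((t : ℕ) < p), dd p t))
    (fun p => F (dd p t)) (fun x => F x.2) ?_ ?_ ?_ ?_
  · refine h.trans (le_of_eq ?_)
    rw [sum_product]
    simp only [Fintype.sum_bool]
    ring
  · intro p hp
    rw [mem_filter] at hp
    have h1 := dd_pos hp.2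
    have h2 := dd_lt p t
    simp only [mem_product, mem_univ, true_and, mem_Icc]
    omega
  · intro p hp q hq heq
    simp only [Prod.mk.injEq, decide_eq_decide] at heq
    unfold dd at heq
    rw [Fin.ext_iff]
    omega
  · intro p _
    exact le_rfl
  · intro x _
    exact hF _

theorem sum_dd {n : ℕ} (t : Fin n) (F : ℕ → ℝ) (hF : ∀ d, 0 ≤ F d) :
    ∑ p : Fin n, F (dd p t) ≤ F 0 + 2 * ∑ d ∈ Icc 1 n, F d := by
  rw [← sum_filter_add_sum_filter_not univ (fun p => p ≠ t)]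
  have h1 := sum_dd_ne t F hF
  have h2 : ∑ p ∈ (univ : Finset (Fin n)).filter (fun p => ¬ p ≠ t), F (dd p t) = F 0 := by
    have : (univ : Finset (Fin n)).filter (fun p => ¬ p ≠ t) = {t} := by
      ext p; simp
    rw [this, sum_singleton]
    unfold dd
    simp
  rw [h2]
  linarith

/-- inverse of the block length -/
noncomputable def iv (m : ℕ) (R : Finset (Fin (2 ^ m))) (p : Fin (2 ^ m)) : ℝ :=
  1 / 2 ^ (lev m R p)

theorem iv_pos {m : ℕ} (R : Finset (Fin (2 ^ m))) (p : Fin (2 ^ m)) : 0 < iv m R p := by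
  unfold iv; positivity

theorem iv_le_one {m : ℕ} (R : Finset (Fin (2 ^ m))) (p : Fin (2 ^ m)) : iv m R p ≤ 1 := by
  unfold iv
  rw [div_le_one (by positivity)]
  exact one_le_pow₀ (by norm_num)

theorem inv_pow_le {l d : ℕ} (h : d < 2 ^ (l + 1)) : (1 : ℝ) / 2 ^ l ≤ 2 / (max 1 d : ℕ) := by
  have h1 : (max 1 d : ℕ) ≤ 2 * 2 ^ l := by
    have : (2 : ℕ) ^ (l + 1) = 2 * 2 ^ l := by ring
    have : 1 ≤ 2 ^ l := Nat.one_le_two_pow
    omega
  have h2 : ((max 1 d : ℕ) : ℝ) ≤ 2 * 2 ^ l := by exact_mod_cast h1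
  have h3 : (0 : ℝ) < ((max 1 d : ℕ) : ℝ) := by
    have : 0 < max 1 d := by omega
    exact_mod_cast this
  rw [div_le_div_iff₀ (by positivity) h3]
  linarith

theorem iv_le_dist {m : ℕ} (R : Finset (Fin (2 ^ m))) (p : Fin (2 ^ m)) (hR : R.Nonempty) :
    ∃ t ∈ R, iv m R p ≤ 2 / (max 1 (dd p t) : ℕ) := by
  obtain ⟨t, ht, hlt⟩ := lev_dist R p hR
  exact ⟨t, ht, inv_pow_le hlt⟩

theorem iv_insert {m : ℕ} (R : Finset (Fin (2 ^ m))) (p q : Fin (2 ^ m)) :
    iv m (insert p R) q ≤ iv m R q + 2 / (max 1 (dd q p) : ℕ) := by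
  rcases lev_insert R p q with h | h
  · have h1 : iv m (insert p R) q ≤ iv m R q := by
      unfold iv
      apply one_div_le_one_div_of_le (by positivity)
      exact pow_le_pow_right₀ (by norm_num) h
    have h2 : (0 : ℝ) ≤ 2 / (max 1 (dd q p) : ℕ) := by positivity
    linarith
  · have h1 := inv_pow_le h
    have h2 := (iv_pos R q).le
    have h3 : iv m (insert p R) q ≤ 2 / (max 1 (dd q p) : ℕ) := h1
    linarith

theorem sum_iv_le {m : ℕ} (R : Finset (Fin (2 ^ m))) (hR : R.Nonempty) :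
    ∑ p, iv m R p ≤ R.card * (2 + 4 * H (2 ^ m)) := by
  have h1 : ∀ p, iv m R p ≤ ∑ t ∈ R, (2 : ℝ) / (max 1 (dd p t) : ℕ) := by
    intro p
    obtain ⟨t, ht, hle⟩ := iv_le_dist R p hR
    refine hle.trans ?_
    apply single_le_sum (f := fun t => (2 : ℝ) / (max 1 (dd p t) : ℕ)) _ ht
    intro i _
    positivity
  calc ∑ p, iv m R p ≤ ∑ p, ∑ t ∈ R, (2 : ℝ) / (max 1 (dd p t) : ℕ) := sum_le_sum (fun p _ => h1 p)
    _ = ∑ t ∈ R, ∑ p, (2 : ℝ) / (max 1 (dd p t) : ℕ) := sum_comm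
    _ ≤ ∑ t ∈ R, (2 + 4 * H (2 ^ m)) := by
        apply sum_le_sum
        intro t _
        have h2 := sum_dd t (fun d => (2 : ℝ) / (max 1 d : ℕ)) (fun d => by positivity)
        refine h2.trans (le_of_eq ?_)
        have h3 : ∑ d ∈ Icc 1 (2 ^ m), (2 : ℝ) / ((max 1 d : ℕ) : ℝ) = 2 * H (2 ^ m) := by
          unfold H
          rw [mul_sum]
          apply sum_congr rfl
          intro d hd
          rw [mem_Icc] at hd
          rw [max_eq_right hd.1]
          ring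
        rw [h3]
        simp
        ring
    _ = _ := by rw [sum_const, nsmul_eq_mul]

/-- sum over an arithmetic progression of columns -/
theorem sum_AP_le {m : ℕ} (r t : Fin (2 ^ m)) (c : ℕ) (hc : 0 < c) (κ : ℝ) (hκ : 0 ≤ κ) :
    ∑ q ∈ (univ : Finset (Fin (2 ^ m))).filter (fun q => c ∣ dd q r),
      min κ (2 / (max 1 (dd q t) : ℕ)) ≤ 2 * κ + 4 * H (2 ^ m) / c := by
  have hcR : (0 : ℝ) < c := by exact_mod_cast hc
  have h := sum_le_sum_of_inj ((univ : Finset (Fin (2 ^ m))).filter (fun q => c ∣ dd q r))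
    ((univ : Finset Bool) ×ˢ (insert 0 (Icc 1 (2 ^ m))))
    (fun q => (decide ((t : ℕ) ≤ q), dd q t / c))
    (fun q => min κ (2 / (max 1 (dd q t) : ℕ)))
    (fun x => if x.2 = 0 then κ else 2 / ((x.2 : ℝ) * c)) ?_ ?_ ?_ ?_
  · refine h.trans (le_of_eq ?_)
    rw [sum_product]
    simp only [Fintype.sum_bool]
    rw [sum_insert (by simp)]
    have h3 : ∑ x ∈ (Icc 1 (2 ^ m) : Finset ℕ), (if x = 0 then κ else 2 / ((x : ℝ) * c)) =
        2 * H (2 ^ m) / c := by
      unfold H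
      rw [mul_sum, sum_div]
      apply sum_congr rfl
      intro d hd
      rw [mem_Icc] at hd
      rw [if_neg (by omega)]
      have : (0 : ℝ) < d := by exact_mod_cast hd.1
      field_simp
    rw [h3]
    simp
    ring
  · intro q hq
    simp only [mem_product, mem_univ, true_and, mem_insert, mem_Icc]
    have h1 : dd q t / c ≤ dd q t := Nat.div_le_self _ _
    have h2 := dd_lt q t
    rcases Nat.eq_zero_or_pos (dd q t / c) with h3 | h3
    · exact Or.inl h3
    · exact Or.inr ⟨h3, h1.trans h2.le⟩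
  · intro q hq q' hq' heq
    rw [mem_filter] at hq hq'
    simp only [Prod.mk.injEq, decide_eq_decide] at heq
    obtain ⟨h1, h2⟩ := heq
    have h3 : (c : ℤ) ∣ ((q : ℕ) : ℤ) - ((r : ℕ) : ℤ) := by
      have := hq.2
      unfold dd at this
      exact Int.natCast_dvd.2 this
    have h4 : (c : ℤ) ∣ ((q' : ℕ) : ℤ) - ((r : ℕ) : ℤ) := by
      have := hq'.2
      unfold dd at this
      exact Int.natCast_dvd.2 this
    have h5 : (c : ℤ) ∣ ((q : ℕ) : ℤ) - ((q' : ℕ) : ℤ) := by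
      have := dvd_sub h3 h4
      have e : ((q : ℕ) : ℤ) - ((r : ℕ) : ℤ) - (((q' : ℕ) : ℤ) - ((r : ℕ) : ℤ)) =
        ((q : ℕ) : ℤ) - ((q' : ℕ) : ℤ) := by ring
      rwa [e] at this
    have h6 := natAbs_lt_of_div_eq hc h2
    have h7 : (((q : ℕ) : ℤ) - ((q' : ℕ) : ℤ)).natAbs < c := by
      unfold dd at h6
      by_cases ht : (t : ℕ) ≤ q
      · have ht' := h1.1 ht
        omega
      · have ht' : ¬ (t : ℕ) ≤ q' := fun h => ht (h1.2 h)
        omega
    have h8 : ((q : ℕ) : ℤ) - ((q' : ℕ) : ℤ) = 0 := by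
      apply Int.eq_zero_of_abs_lt_dvd h5
      rw [Int.abs_eq_natAbs]
      exact_mod_cast h7
    rw [Fin.ext_iff]
    omega
  · intro q _
    split_ifs with h0
    · exact min_le_left _ _
    · refine (min_le_right _ _).trans ?_
      have h1 : (dd q t / c) * c ≤ dd q t := Nat.div_mul_le_self _ _
      have h2 : 0 < dd q t / c := Nat.pos_of_ne_zero h0
      have h3 : (dd q t / c) * c ≤ max 1 (dd q t) := h1.trans (le_max_right _ _)
      have h4 : (((dd q t / c : ℕ) : ℝ)) * c ≤ ((max 1 (dd q t) : ℕ) : ℝ) := by exact_mod_cast h3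
      have h5 : (0 : ℝ) < ((dd q t / c : ℕ) : ℝ) := by exact_mod_cast h2
      exact div_le_div_of_nonneg_left (by norm_num) (by positivity) h4
  · intro x _
    split_ifs
    · exact hκ
    · positivity

/-- for fixed `p`, the weighted sum over the later column `q` -/
theorem sum_gcd_iv_le {m : ℕ} (R : Finset (Fin (2 ^ m))) (hR : R.Nonempty) (r p : Fin (2 ^ m))
    (hpr : p ≠ r) :
    ∑ q ∈ (univ : Finset (Fin (2 ^ m))).filter (fun q => q ≠ r ∧ lev m R p ≤ lev m R q),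
      (Nat.gcd (dd p r) (dd q r) : ℝ) / (dd p r : ℝ) * iv m R q ≤
    R.card * (2 * H (2 ^ m) * iv m R p + 4 * H (2 ^ m) * ((Nat.divisors (dd p r)).card : ℝ) /
      (dd p r : ℝ)) := by
  set a := dd p r with ha
  have ha0 : 0 < a := dd_pos hpr
  have haR : (0 : ℝ) < a := by exact_mod_cast ha0
  have han : a < 2 ^ m := dd_lt p r
  set κ := iv m R p with hκ
  have hκ0 : 0 ≤ κ := (iv_pos R p).le
  -- step 1: gcd as sum over divisors
  have h1 : ∀ q ∈ (univ : Finset (Fin (2 ^ m))).filter (fun q => q ≠ r ∧ lev m R p ≤ lev m R q),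
      (Nat.gcd a (dd q r) : ℝ) / (a : ℝ) * iv m R q ≤
      ∑ c ∈ Nat.divisors a, (if c ∣ dd q r then (c : ℝ) / a *
        ∑ t ∈ R, min κ (2 / (max 1 (dd q t) : ℕ)) else 0) := by
    intro q hq
    rw [mem_filter] at hq
    have hiv : iv m R q ≤ ∑ t ∈ R, min κ (2 / (max 1 (dd q t) : ℕ)) := by
      obtain ⟨t, ht, hle⟩ := iv_le_dist R q hR
      have hle2 : iv m R q ≤ κ := by
        rw [hκ]
        unfold iv
        apply one_div_le_one_div_of_le (by positivity)
        exact pow_le_pow_right₀ (by norm_num) hq.2.2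
      refine (le_min hle2 hle).trans ?_
      apply single_le_sum (f := fun t => min κ (2 / (max 1 (dd q t) : ℕ))) _ ht
      intro i _
      exact le_min hκ0 (by positivity)
    have hg : Nat.gcd a (dd q r) ∈ Nat.divisors a :=
      Nat.mem_divisors.2 ⟨Nat.gcd_dvd_left _ _, ha0.ne'⟩
    have hs0 : 0 ≤ ∑ t ∈ R, min κ (2 / (max 1 (dd q t) : ℕ)) := by
      apply sum_nonneg
      intro i _
      exact le_min hκ0 (by positivity)
    calc (Nat.gcd a (dd q r) : ℝ) / (a : ℝ) * iv m R q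
        ≤ (Nat.gcd a (dd q r) : ℝ) / (a : ℝ) * ∑ t ∈ R, min κ (2 / (max 1 (dd q t) : ℕ)) := by
          apply mul_le_mul_of_nonneg_left hiv
          positivity
      _ = (if Nat.gcd a (dd q r) ∣ dd q r then (Nat.gcd a (dd q r) : ℝ) / a *
        ∑ t ∈ R, min κ (2 / (max 1 (dd q t) : ℕ)) else 0) := by
          rw [if_pos (Nat.gcd_dvd_right _ _)]
      _ ≤ _ := by
          apply single_le_sum (f := fun c => (if c ∣ dd q r then (c : ℝ) / a *
            ∑ t ∈ R, min κ (2 / (max 1 (dd q t) : ℕ)) else 0)) _ hg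
          intro c _
          split_ifs
          · positivity
          · exact le_rfl
  refine (sum_le_sum h1).trans ?_
  -- enlarge the range and swap
  have h2 : ∑ q ∈ (univ : Finset (Fin (2 ^ m))).filter (fun q => q ≠ r ∧ lev m R p ≤ lev m R q),
      ∑ c ∈ Nat.divisors a, (if c ∣ dd q r then (c : ℝ) / a *
        ∑ t ∈ R, min κ (2 / (max 1 (dd q t) : ℕ)) else 0) ≤
      ∑ q : Fin (2 ^ m), ∑ c ∈ Nat.divisors a, (if c ∣ dd q r then (c : ℝ) / a *
        ∑ t ∈ R, min κ (2 / (max 1 (dd q t) : ℕ)) else 0) := by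
    apply sum_le_sum_of_subset_of_nonneg (filter_subset _ _)
    intro q _ _
    apply sum_nonneg
    intro c _
    split_ifs
    · apply mul_nonneg (by positivity)
      apply sum_nonneg
      intro i _
      exact le_min hκ0 (by positivity)
    · exact le_rfl
  refine h2.trans ?_
  rw [sum_comm]
  have h3 : ∀ c ∈ Nat.divisors a, ∑ q : Fin (2 ^ m), (if c ∣ dd q r then (c : ℝ) / a *
        ∑ t ∈ R, min κ (2 / (max 1 (dd q t) : ℕ)) else 0) ≤
      R.card * (2 * κ * ((c : ℝ) / a) + 4 * H (2 ^ m) / a) := by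
    intro c hc
    have hc0 : 0 < c := Nat.pos_of_mem_divisors hc
    have hcR : (0 : ℝ) < c := by exact_mod_cast hc0
    rw [← sum_filter, ← mul_sum, sum_comm]
    calc (c : ℝ) / a * ∑ t ∈ R, ∑ q ∈ (univ : Finset (Fin (2 ^ m))).filter (fun q => c ∣ dd q r),
          min κ (2 / (max 1 (dd q t) : ℕ))
        ≤ (c : ℝ) / a * ∑ t ∈ R, (2 * κ + 4 * H (2 ^ m) / c) := by
          apply mul_le_mul_of_nonneg_left _ (by positivity)
          apply sum_le_sum
          intro t _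
          exact sum_AP_le r t c hc0 κ hκ0
      _ = R.card * (2 * κ * ((c : ℝ) / a) + 4 * H (2 ^ m) / a) := by
          rw [sum_const, nsmul_eq_mul]
          field_simp
  refine (sum_le_sum h3).trans ?_
  rw [← mul_sum, sum_add_distrib, ← mul_sum, sum_const, nsmul_eq_mul]
  have h4 : ∑ c ∈ Nat.divisors a, (c : ℝ) / a ≤ H (2 ^ m) := by
    unfold H
    apply sum_le_sum_of_inj _ _ (fun c => a / c)
    · intro c hc
      have hc' := Nat.mem_divisors.1 hc
      have hc0 : 0 < c := Nat.pos_of_mem_divisors hc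
      rw [mem_Icc]
      exact ⟨Nat.div_pos (Nat.le_of_dvd ha0 hc'.1) hc0, (Nat.div_le_self _ _).trans han.le⟩
    · intro c hc c' hc' heq
      have h5 := Nat.mem_divisors.1 hc
      have h6 := Nat.mem_divisors.1 hc'
      have h7 : c * (a / c) = a := Nat.mul_div_cancel' h5.1
      have h8 : c' * (a / c') = a := Nat.mul_div_cancel' h6.1
      rw [← heq] at h8
      have h9 : 0 < a / c := Nat.div_pos (Nat.le_of_dvd ha0 h5.1) (Nat.pos_of_mem_divisors hc)
      exact Nat.eq_of_mul_eq_mul_right h9 (h7.trans h8.symm)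
    · intro c hc
      have h5 := Nat.mem_divisors.1 hc
      have hc0 : 0 < c := Nat.pos_of_mem_divisors hc
      have h7 : c * (a / c) = a := Nat.mul_div_cancel' h5.1
      have h9 : 0 < a / c := Nat.div_pos (Nat.le_of_dvd ha0 h5.1) hc0
      have h7R : (c : ℝ) * ((a / c : ℕ) : ℝ) = a := by exact_mod_cast h7
      have hcR : (0 : ℝ) < c := by exact_mod_cast hc0
      have h9R : (0 : ℝ) < ((a / c : ℕ) : ℝ) := by exact_mod_cast h9
      apply le_of_eq
      rw [← h7R]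
      field_simp
    · intro y _
      positivity
  have hRc : (0 : ℝ) ≤ R.card := by positivity
  apply mul_le_mul_of_nonneg_left _ hRc
  have h5 : 2 * κ * ∑ c ∈ Nat.divisors a, (c : ℝ) / a ≤ 2 * κ * H (2 ^ m) :=
    mul_le_mul_of_nonneg_left h4 (by positivity)
  have h6 : ((Nat.divisors a).card : ℝ) * (4 * H (2 ^ m) / a) =
      4 * H (2 ^ m) * ((Nat.divisors a).card : ℝ) / a := by ring
  rw [h6]
  linarith

theorem sum_tau_le (n : ℕ) : ∑ a ∈ Icc 1 n, ((Nat.divisors a).card : ℝ) / a ≤ H n ^ 2 := by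
  have h1 : ∀ a ∈ Icc 1 n, ((Nat.divisors a).card : ℝ) / a = ∑ c ∈ Nat.divisors a, (1 : ℝ) / a := by
    intro a _
    rw [sum_const, nsmul_eq_mul]
    ring
  rw [sum_congr rfl h1, ← sum_inv_le, sum_sigma' (Icc 1 n) (fun a => Nat.divisors a)
    (fun a _ => (1 : ℝ) / (a : ℝ))]
  apply sum_le_sum_of_inj _ _ (fun x => (x.2, x.1 / x.2))
  · rintro ⟨a, c⟩ h
    simp only [mem_sigma, mem_Icc] at h
    obtain ⟨⟨ha1, ha2⟩, hc⟩ := h
    have hc' := Nat.mem_divisors.1 hc
    have hc0 : 0 < c := Nat.pos_of_mem_divisors hc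
    have hca : c ≤ a := Nat.le_of_dvd ha1 hc'.1
    simp only [mem_product, mem_Icc]
    exact ⟨⟨hc0, hca.trans ha2⟩, Nat.div_pos hca hc0, (Nat.div_le_self _ _).trans ha2⟩
  · rintro ⟨a, c⟩ h ⟨a', c'⟩ h' heq
    simp only [mem_sigma, mem_Icc] at h h'
    simp only [Prod.mk.injEq] at heq
    obtain ⟨h1, h2⟩ := heq
    have e1 : c * (a / c) = a := Nat.mul_div_cancel' (Nat.mem_divisors.1 h.2).1
    have e2 : c' * (a' / c') = a' := Nat.mul_div_cancel' (Nat.mem_divisors.1 h'.2).1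
    have e3 : a = a' := by rw [← e1, ← e2, h2, h1]
    subst e3
    subst h1
    rfl
  · rintro ⟨a, c⟩ h
    simp only [mem_sigma, mem_Icc] at h
    have e1 : c * (a / c) = a := Nat.mul_div_cancel' (Nat.mem_divisors.1 h.2).1
    have e2 : (c : ℝ) * ((a / c : ℕ) : ℝ) = a := by exact_mod_cast e1
    simp only
    rw [e2]
  · rintro ⟨a, c⟩ _
    positivity

/-- `S2` -/
theorem sum_S2_le {m : ℕ} (r : Fin (2 ^ m)) :
    ∑ T ∈ (univ : Finset (Fin (2 ^ m) × Fin (2 ^ m))).filter (fun T => T.1 ≠ r ∧ T.2 ≠ T.1),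
      (Nat.gcd (dd T.1 r) (dd T.2 r) : ℝ) / ((dd T.1 r : ℝ) * (dd T.2 T.1 : ℝ)) ≤
      4 * H (2 ^ m) ^ 3 := by
  have h := sum_le_sum_of_inj
    ((univ : Finset (Fin (2 ^ m) × Fin (2 ^ m))).filter (fun T => T.1 ≠ r ∧ T.2 ≠ T.1))
    ((univ : Finset (Bool × Bool)) ×ˢ (Icc 1 (2 ^ m) ×ˢ Icc 1 (2 ^ m)))
    (fun T => ((decide ((r : ℕ) < T.1), decide ((T.1 : ℕ) < T.2)), (dd T.1 r, dd T.2 T.1)))
    (fun T => (Nat.gcd (dd T.1 r) (dd T.2 r) : ℝ) / ((dd T.1 r : ℝ) * (dd T.2 T.1 : ℝ)))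
    (fun x => (Nat.gcd x.2.1 x.2.2 : ℝ) / ((x.2.1 : ℝ) * x.2.2)) ?_ ?_ ?_ ?_
  · refine h.trans ?_
    rw [sum_product]
    simp only [sum_const, card_univ, Fintype.card_prod, Fintype.card_bool, nsmul_eq_mul]
    have := sum_gcd_le (2 ^ m)
    push_cast
    linarith
  · rintro ⟨p, q⟩ h
    rw [mem_filter] at h
    have h1 := dd_pos h.2.1
    have h2 := dd_lt p r
    have h3 := dd_pos h.2.2
    have h4 := dd_lt q p
    simp only [mem_product, mem_univ, true_and, mem_Icc]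
    simp only at h1 h3
    omega
  · rintro ⟨p, q⟩ h ⟨p', q'⟩ h' heq
    rw [mem_filter] at h h'
    simp only [Prod.mk.injEq, decide_eq_decide] at heq
    unfold dd at heq
    simp only [Prod.mk.injEq, Fin.ext_iff]
    omega
  · rintro ⟨p, q⟩ _
    simp only
    have : Nat.gcd (dd p r) (dd q r) = Nat.gcd (dd p r) (dd q p) := by
      unfold dd
      rw [← Int.gcd_eq_natAbs, ← Int.gcd_eq_natAbs, ← Int.gcd_sub_self_right]
      congr 1
      ring
    rw [this]
  · intro x _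
    positivity

end Pool.Agent.NTL
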