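import Pool.Agent.Hhelper37.NTLCount

set_option autoImplicit false

namespace Pool.Agent.NTL

open Finset Pool.Agent.Counting

/-- the quadratic curve around which the sequence is chosen -/
noncomputable def bf (n s : ℕ) (j : ℕ) : ℝ := (s : ℝ) * j + (s : ℝ) * (j : ℝ) ^ 2 / n

noncomputable def Wd (n s : ℕ) (j : Fin n) : Finset ℤ := Ioc ⌊bf n s j⌋ (⌊bf n s j⌋ + s)

theorem mem_Wd {n s : ℕ} {j : Fin n} {z : ℤ} (h : z ∈ Wd n s j) :
    bf n s j < z ∧ (z : ℝ) ≤ bf n s j + s := by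
  unfold Wd at h
  rw [mem_Ioc] at h
  constructor
  · exact Int.floor_lt.1 h.1
  · have h2 : (z : ℝ) ≤ ((⌊bf n s j⌋ + s : ℤ) : ℝ) := by exact_mod_cast h.2
    push_cast at h2
    have h3 := Int.floor_le (bf n s j)
    linarith

theorem gap_lt {n s : ℕ} (hs : 0 < s) (i j l : Fin n) (hij : i < j) (hjl : j < l)
    (a : Fin n → ℤ) (hi : a i ∈ Wd n s i) (hj : a j ∈ Wd n s j) (hl : a l ∈ Wd n s l)
    (hb : bad i j l a) : ((j : ℕ) - (i : ℕ)) * ((l : ℕ) - (j : ℕ)) < n := by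
  have hij' : (i : ℕ) < j := hij
  have hjl' : (j : ℕ) < l := hjl
  have hn : 0 < n := by have := i.2; omega
  obtain ⟨hi1, hi2⟩ := mem_Wd hi
  obtain ⟨hj1, hj2⟩ := mem_Wd hj
  obtain ⟨hl1, hl2⟩ := mem_Wd hl
  have hbR : ((a j : ℝ) - a i) * (((l : ℕ) : ℝ) - ((i : ℕ) : ℝ)) =
      ((a l : ℝ) - a i) * (((j : ℕ) : ℝ) - ((i : ℕ) : ℝ)) := by
    unfold bad at hb
    exact_mod_cast hb
  have hnR : (0 : ℝ) < n := by exact_mod_cast hn
  have hsR : (0 : ℝ) < s := by exact_mod_cast hs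
  have he : (0 : ℝ) < ((j : ℕ) : ℝ) - ((i : ℕ) : ℝ) := by
    have : ((i : ℕ) : ℝ) < ((j : ℕ) : ℝ) := by exact_mod_cast hij'
    linarith
  have hf : (0 : ℝ) < ((l : ℕ) : ℝ) - ((j : ℕ) : ℝ) := by
    have : ((j : ℕ) : ℝ) < ((l : ℕ) : ℝ) := by exact_mod_cast hjl'
    linarith
  have key : (((j : ℕ) : ℝ) - ((i : ℕ) : ℝ)) * (((l : ℕ) : ℝ) - ((j : ℕ) : ℝ)) < n := by
    unfold bf at hi1 hi2 hj1 hj2 hl1 hl2
    generalize ((i : ℕ) : ℝ) = x at *
    generalize ((j : ℕ) : ℝ) = y at *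
    generalize ((l : ℕ) : ℝ) = z at *
    generalize (a i : ℝ) = A at *
    generalize (a j : ℝ) = B at *
    generalize (a l : ℝ) = C at *
    have h1 : (z - y) * (s * x + s * x ^ 2 / n) < (z - y) * A := mul_lt_mul_of_pos_left hi1 hf
    have h2 : (y - x) * (s * z + s * z ^ 2 / n) < (y - x) * C := mul_lt_mul_of_pos_left hl1 he
    have h3 : (z - x) * B ≤ (z - x) * (s * y + s * y ^ 2 / n + s) :=
      mul_le_mul_of_nonneg_left hj2 (by linarith)
    have h4 : (z - y) * A + (y - x) * C = (z - x) * B := by linear_combination -hbR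
    have h5 : (z - y) * (s * x + s * x ^ 2 / n) + (y - x) * (s * z + s * z ^ 2 / n) -
        (z - x) * (s * y + s * y ^ 2 / n) = (z - x) * s * ((y - x) * (z - y) / n) := by
      ring
    have h6 : (z - x) * s * ((y - x) * (z - y) / n) < (z - x) * s * 1 := by
      rw [← h5]
      linarith
    have h7 : (y - x) * (z - y) / n < 1 :=
      lt_of_mul_lt_mul_left h6 (mul_nonneg (by linarith) hsR.le)
    rwa [div_lt_one hnR] at h7
  have e1 : (((j : ℕ) - (i : ℕ) : ℕ) : ℝ) = ((j : ℕ) : ℝ) - ((i : ℕ) : ℝ) := by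
    rw [Nat.cast_sub hij'.le]
  have e2 : (((l : ℕ) - (j : ℕ) : ℕ) : ℝ) = ((l : ℕ) : ℝ) - ((j : ℕ) : ℝ) := by
    rw [Nat.cast_sub hjl'.le]
  rw [← e1, ← e2] at key
  exact_mod_cast key

theorem cnt_le_wt {n s : ℕ} (hs : 0 < s) (p q k i j l : Fin n)
    (hset : ({p, q, k} : Finset (Fin n)) = {i, j, l})
    (hbad : ∀ a, bad p q k a → bad i j l a) (hij : i < j) (hjl : j < l) :
    (cnt (Wd n s) bad p q k : ℝ) ≤ wt n s ((j : ℕ) - i, (l : ℕ) - j) := by
  unfold wt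
  split_ifs with h
  · exact cnt_le (Wd n s) (fun j => ⌊bf n s j⌋) s (fun j => rfl) p q k i j l hset hbad hij hjl
  · have h0 : cnt (Wd n s) bad p q k = 0 := by
      unfold cnt
      rw [card_eq_zero, filter_eq_empty_iff]
      intro a ha hb
      rw [hset, mem_A] at ha
      exact h (gap_lt hs i j l hij hjl a (ha.1 i (by simp)) (ha.1 j (by simp)) (ha.1 l (by simp))
        (hbad a hb))
    rw [h0]
    simp

theorem sum_cnt_le {n s : ℕ} (hs : 0 < s) (k : Fin n) :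
    ∑ pq ∈ (univ : Finset (Fin n × Fin n)).filter
        (fun pq => pq.1 ≠ pq.2 ∧ pq.1 ≠ k ∧ pq.2 ≠ k), (cnt (Wd n s) bad pq.1 pq.2 k : ℝ) ≤
      8 * ∑ d ∈ Icc 1 n ×ˢ Icc 1 n, wt n s d := by
  let e : Fin n × Fin n → (Bool × Bool × Bool) × (ℕ × ℕ) := fun pq =>
    ((decide ((pq.1 : ℕ) < pq.2), decide ((pq.1 : ℕ) < k), decide ((pq.2 : ℕ) < k)),
      (((pq.1 : ℕ) + pq.2 + k - min (pq.1 : ℕ) (min (pq.2 : ℕ) k) - max (pq.1 : ℕ) (max (pq.2 : ℕ) k)
        - min (pq.1 : ℕ) (min (pq.2 : ℕ) k)),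
       (max (pq.1 : ℕ) (max (pq.2 : ℕ) k) - ((pq.1 : ℕ) + pq.2 + k -
        min (pq.1 : ℕ) (min (pq.2 : ℕ) k) - max (pq.1 : ℕ) (max (pq.2 : ℕ) k)))))
  have h := sum_le_sum_of_inj ((univ : Finset (Fin n × Fin n)).filter
        (fun pq => pq.1 ≠ pq.2 ∧ pq.1 ≠ k ∧ pq.2 ≠ k))
      ((univ : Finset (Bool × Bool × Bool)) ×ˢ (Icc 1 n ×ˢ Icc 1 n)) e
      (fun pq => (cnt (Wd n s) bad pq.1 pq.2 k : ℝ)) (fun td => wt n s td.2) ?_ ?_ ?_ ?_
  · refine h.trans (le_of_eq ?_)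
    rw [sum_product]
    simp only [sum_const]
    rw [nsmul_eq_mul]
    norm_num
  · rintro ⟨p, q⟩ hpq
    simp only [mem_filter, mem_univ, true_and, ne_eq, Fin.ext_iff] at hpq
    simp only [e, mem_product, mem_univ, true_and, mem_Icc]
    have := p.2
    have := q.2
    have := k.2
    omega
  · rintro ⟨p, q⟩ hpq ⟨p', q'⟩ hpq' heq
    simp only [mem_filter, mem_univ, true_and, ne_eq, Fin.ext_iff] at hpq hpq'
    simp only [e, Prod.mk.injEq, decide_eq_decide] at heq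
    obtain ⟨⟨h1, h2, h3⟩, h4, h5⟩ := heq
    simp only [Prod.mk.injEq, Fin.ext_iff]
    omega
  · rintro ⟨p, q⟩ hpq
    simp only [mem_filter, mem_univ, true_and, ne_eq, Fin.ext_iff] at hpq
    simp only [e]
    obtain ⟨hpq1, hpk, hqk⟩ := hpq
    have hw : ∀ x y : ℕ, ∀ x' y' : ℕ, x = x' → y = y' → wt n s (x, y) = wt n s (x', y') := by
      intro x y x' y' h1 h2; rw [h1, h2]
    rcases lt_or_gt_of_ne hpq1 with h1 | h1 <;> rcases lt_or_gt_of_ne hpk with h2 | h2 <;>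
      rcases lt_or_gt_of_ne hqk with h3 | h3
    · -- p<q<k
      refine (cnt_le_wt hs p q k p q k rfl (fun a h => h) h1 h3).trans (le_of_eq (hw _ _ _ _ ?_ ?_))
      · omega
      · omega
    · -- p<k<q
      refine (cnt_le_wt hs p q k p k q ?_ (fun a h => bad_swap' _ _ _ _ h) h2 h3).trans
        (le_of_eq (hw _ _ _ _ ?_ ?_))
      · ext x; simp only [mem_insert, mem_singleton]; tauto
      · omega
      · omega
    · omega
    · -- k<p<q
      refine (cnt_le_wt hs p q k k p q ?_ (fun a h => bad_swap _ _ _ _ (bad_swap' _ _ _ _ h)) h2 h1).trans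
        (le_of_eq (hw _ _ _ _ ?_ ?_))
      · ext x; simp only [mem_insert, mem_singleton]; tauto
      · omega
      · omega
    · -- q<p<k
      refine (cnt_le_wt hs p q k q p k ?_ (fun a h => bad_swap _ _ _ _ h) h1 h2).trans
        (le_of_eq (hw _ _ _ _ ?_ ?_))
      · ext x; simp only [mem_insert, mem_singleton]; tauto
      · omega
      · omega
    · omega
    · -- q<k<p
      refine (cnt_le_wt hs p q k q k p ?_ (fun a h => bad_swap' _ _ _ _ (bad_swap _ _ _ _ h)) h3 h2).trans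
        (le_of_eq (hw _ _ _ _ ?_ ?_))
      · ext x; simp only [mem_insert, mem_singleton]; tauto
      · omega
      · omega
    · -- k<q<p
      refine (cnt_le_wt hs p q k k q p ?_
        (fun a h => bad_swap _ _ _ _ (bad_swap' _ _ _ _ (bad_swap _ _ _ _ h))) h3 h1).trans
        (le_of_eq (hw _ _ _ _ ?_ ?_))
      · ext x; simp only [mem_insert, mem_singleton]; tauto
      · omega
      · omega
  · intro td _
    exact wt_nonneg n s td.2

theorem admissible_of_large {n s : ℕ} (hn : 0 < n)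
    (hs : 64 * Real.sqrt n * (1 + Real.log n) ^ 3 ≤ s) (x : ℝ) (hx : 3 * (s : ℝ) * n ≤ x) :
    Admissible n x := by
  have hnR : (1 : ℝ) ≤ n := by exact_mod_cast hn
  have hlog : 0 ≤ Real.log n := Real.log_nonneg hnR
  have hsq : 1 ≤ Real.sqrt n := Real.one_le_sqrt.2 hnR
  set L : ℝ := 1 + Real.log n with hL
  have hL1 : 1 ≤ L := by linarith
  have hL3 : 1 ≤ L ^ 3 := one_le_pow₀ hL1
  have hs64 : (64 : ℝ) ≤ s := by
    have : 64 * 1 * 1 ≤ 64 * Real.sqrt n * L ^ 3 := by gcongr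
    linarith
  have hs0 : 0 < s := by
    have : (0 : ℝ) < s := by linarith
    exact_mod_cast this
  have hH : H n ≤ L := H_le n
  have hH0 : 0 ≤ H n := H_nonneg n
  have hsum : ∀ k : Fin n, 8 * ∑ pq ∈ (univ : Finset (Fin n × Fin n)).filter
        (fun pq => pq.1 ≠ pq.2 ∧ pq.1 ≠ k ∧ pq.2 ≠ k), cnt (Wd n s) bad pq.1 pq.2 k ≤ s ^ 3 := by
    intro k
    have h1 := sum_cnt_le hs0 k
    have h2 := sum_wt_le n s
    have h3 : (s : ℝ) * ((s : ℝ) * (Real.sqrt n / 2) * H n ^ 3 + n * H n ^ 2) ≤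
        (s : ℝ) * ((s : ℝ) * (Real.sqrt n / 2) * L ^ 3 + n * L ^ 2) := by gcongr
    have h4 : (8 : ℝ) * ∑ pq ∈ (univ : Finset (Fin n × Fin n)).filter
        (fun pq => pq.1 ≠ pq.2 ∧ pq.1 ≠ k ∧ pq.2 ≠ k), (cnt (Wd n s) bad pq.1 pq.2 k : ℝ) ≤
        (s : ℝ) ^ 3 := by
      have h5 : (8 : ℝ) * (8 * ((s : ℝ) * ((s : ℝ) * (Real.sqrt n / 2) * L ^ 3 + n * L ^ 2))) ≤
          (s : ℝ) ^ 3 := by
        set y : ℝ := Real.sqrt n * L ^ 3 with hy
        have hy0 : 0 ≤ y := by positivity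
        have hys : 64 * y ≤ s := by rw [hy]; linarith
        have hnL : (n : ℝ) * L ^ 2 ≤ y ^ 2 := by
          have e1 : y ^ 2 = n * (L ^ 3) ^ 2 := by
            rw [hy, mul_pow, Real.sq_sqrt (by positivity)]
          rw [e1]
          have e2 : L ^ 2 ≤ (L ^ 3) ^ 2 := by
            rw [← pow_mul]
            exact pow_le_pow_right₀ hL1 (by norm_num)
          gcongr
        have e3 : (s : ℝ) * (Real.sqrt n / 2) * L ^ 3 = s * y / 2 := by rw [hy]; ring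
        rw [e3]
        have e4 : (8 : ℝ) * (8 * ((s : ℝ) * (s * y / 2 + n * L ^ 2))) ≤
            8 * (8 * ((s : ℝ) * (s * y / 2 + y ^ 2))) := by gcongr
        refine e4.trans ?_
        have hsR : (0 : ℝ) ≤ s := by positivity
        have e5 : 64 * (s * y / 2 + y ^ 2) ≤ (s : ℝ) ^ 2 := by nlinarith
        nlinarith
      linarith
    exact_mod_cast h4
  obtain ⟨a, ha, hgood⟩ : ∃ a : Fin n → ℤ, (∀ j, a j ∈ Wd n s j) ∧
      ∀ p q r, p ≠ q → q ≠ r → p ≠ r → ¬ bad p q r a := by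
    have hcard : ∀ j, (Wd n s j).card = s := by
      intro j
      unfold Wd
      rw [Int.card_Ioc]
      simp
    exact exists_good (Wd n s) bad bad_loc bad_swap bad_swap' s hs0 hcard hsum
  -- the sequence
  refine ⟨fun j => if h : j - 1 < n then a ⟨j - 1, h⟩ else 0, ?_, ?_, ?_⟩
  · intro j hj1 hjn
    have hlt : j - 1 < n := by omega
    simp only [hlt, dif_pos]
    obtain ⟨h1, h2⟩ := mem_Wd (ha ⟨j - 1, hlt⟩)
    have hb0 : 0 ≤ bf n s (j - 1) := by unfold bf; positivity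
    constructor
    · have : (0 : ℝ) < a ⟨j - 1, hlt⟩ := lt_of_le_of_lt hb0 h1
      exact_mod_cast this
    · refine le_trans h2 (le_trans ?_ hx)
      simp only
      unfold bf
      have hjn' : ((j - 1 : ℕ) : ℝ) ≤ n := by exact_mod_cast hlt.le
      have hj0 : (0 : ℝ) ≤ ((j - 1 : ℕ) : ℝ) := by positivity
      have e1 : (s : ℝ) * ((j - 1 : ℕ) : ℝ) ≤ s * n := by gcongr
      have e2 : (s : ℝ) * ((j - 1 : ℕ) : ℝ) ^ 2 / n ≤ s * n := by
        rw [div_le_iff₀ (by linarith)]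
        have : ((j - 1 : ℕ) : ℝ) ^ 2 ≤ (n : ℝ) ^ 2 := by gcongr
        nlinarith
      have e3 : (s : ℝ) ≤ s * n := by nlinarith
      linarith
  · intro i j hi hij hj
    have hlt : j - 1 < n := by omega
    have hlt' : i - 1 < n := by omega
    simp only [hlt, hlt', dif_pos]
    obtain ⟨h1, -⟩ := mem_Wd (ha ⟨j - 1, hlt⟩)
    obtain ⟨-, h2⟩ := mem_Wd (ha ⟨i - 1, hlt'⟩)
    have h3 : bf n s (i - 1) + s ≤ bf n s (j - 1) := by
      unfold bf
      have e0 : ((i - 1 : ℕ) : ℝ) + 1 ≤ ((j - 1 : ℕ) : ℝ) := by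
        have : (i - 1) + 1 ≤ j - 1 := by omega
        exact_mod_cast this
      have hi0 : (0 : ℝ) ≤ ((i - 1 : ℕ) : ℝ) := by positivity
      have e1 : (s : ℝ) * ((i - 1 : ℕ) : ℝ) + s ≤ s * ((j - 1 : ℕ) : ℝ) := by
        have := mul_le_mul_of_nonneg_left e0 (by positivity : (0 : ℝ) ≤ s)
        linarith
      have e2 : (s : ℝ) * ((i - 1 : ℕ) : ℝ) ^ 2 / n ≤ (s : ℝ) * ((j - 1 : ℕ) : ℝ) ^ 2 / n := by
        gcongr
      linarith
    have : (a ⟨i - 1, hlt'⟩ : ℝ) < a ⟨j - 1, hlt⟩ := by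
      simp only at h1 h2
      linarith
    exact_mod_cast this
  · intro i j k hi hij hjk hk
    have hlti : i - 1 < n := by omega
    have hltj : j - 1 < n := by omega
    have hltk : k - 1 < n := by omega
    simp only [hlti, hltj, hltk, dif_pos]
    rw [collinear_iff_det i j k hij]
    intro hcol
    apply hgood ⟨i - 1, hlti⟩ ⟨j - 1, hltj⟩ ⟨k - 1, hltk⟩
    · intro h; rw [Fin.mk.injEq] at h; omega
    · intro h; rw [Fin.mk.injEq] at h; omega
    · intro h; rw [Fin.mk.injEq] at h; omega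
    · unfold bad
      simp only
      have e1 : ((k - 1 : ℕ) : ℤ) - ((i - 1 : ℕ) : ℤ) = (k : ℤ) - i := by omega
      have e2 : ((j - 1 : ℕ) : ℤ) - ((i - 1 : ℕ) : ℤ) = (j : ℤ) - i := by omega
      rw [e1, e2]
      exact hcol

end Pool.Agent.NTL
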