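import Pool.Agent.Hhelper37.NTLDensity
import Pool.Agent.Hhelper37.NTLCount

set_option autoImplicit false

namespace Pool.Agent.NTL

open Finset

/-- indices of the coarse variables: level and block -/
abbrev VI (m : ℕ) := Fin m × Fin (2 ^ m)

/-- the block of level `k + 1` containing the column `j` -/
def blk {m : ℕ} (k : Fin m) (j : Fin (2 ^ m)) : Fin (2 ^ m) :=
  ⟨(j : ℕ) / 2 ^ ((k : ℕ) + 1), lt_of_le_of_lt (Nat.div_le_self _ _) j.2⟩

theorem blk_eq_iff {m : ℕ} (k : Fin m) (i j : Fin (2 ^ m)) :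
    blk k i = blk k j ↔ (i : ℕ) / 2 ^ ((k : ℕ) + 1) = (j : ℕ) / 2 ^ ((k : ℕ) + 1) := by
  unfold blk
  rw [Fin.mk.injEq]

/-- the deterministic part of the base curve -/
def cst (m s : ℕ) (j : Fin (2 ^ m)) : ℤ :=
  ∑ k : Fin m, ((s : ℤ) * 2 ^ ((k : ℕ) + 1) * (((j : ℕ) / 2 ^ ((k : ℕ) + 1) : ℕ) : ℤ)) +
    (s : ℤ) * ((j : ℕ) : ℤ)

/-- the base curve -/
def base (m s : ℕ) (ω : VI m → ℤ) (j : Fin (2 ^ m)) : ℤ :=
  cst m s j + ∑ k : Fin m, ω (k, blk k j)

noncomputable def full (m s : ℕ) : Finset (VI m → ℤ) :=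
  Fintype.piFinset (fun v : VI m => Ico (0 : ℤ) ((s * 2 ^ ((v.1 : ℕ) + 1) : ℕ) : ℤ))

noncomputable def cellS (m s : ℕ) (R : Finset (Fin (2 ^ m))) (ω₀ : VI m → ℤ) (v : VI m) : Finset ℤ :=
  if ∃ t ∈ R, blk v.1 t = v.2 then {ω₀ v} else Ico (0 : ℤ) ((s * 2 ^ ((v.1 : ℕ) + 1) : ℕ) : ℤ)

noncomputable def cell (m s : ℕ) (R : Finset (Fin (2 ^ m))) (ω₀ : VI m → ℤ) : Finset (VI m → ℤ) :=
  Fintype.piFinset (cellS m s R ω₀)

theorem mem_full {m s : ℕ} {ω : VI m → ℤ} :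
    ω ∈ full m s ↔ ∀ v, 0 ≤ ω v ∧ ω v < ((s * 2 ^ ((v.1 : ℕ) + 1) : ℕ) : ℤ) := by
  unfold full
  simp only [Fintype.mem_piFinset, mem_Ico]

theorem mem_cell {m s : ℕ} {R : Finset (Fin (2 ^ m))} {ω₀ ω : VI m → ℤ} (h₀ : ω₀ ∈ full m s) :
    ω ∈ cell m s R ω₀ ↔ ω ∈ full m s ∧ ∀ v, (∃ t ∈ R, blk v.1 t = v.2) → ω v = ω₀ v := by
  rw [mem_full] at h₀ ⊢
  unfold cell cellS
  rw [Fintype.mem_piFinset]
  constructor
  · intro h
    constructor
    · intro v
      have hv := h v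
      by_cases hr : ∃ t ∈ R, blk v.1 t = v.2
      · rw [if_pos hr, mem_singleton] at hv
        rw [hv]; exact h₀ v
      · rw [if_neg hr, mem_Ico] at hv
        exact hv
    · intro v hr
      have hv := h v
      rw [if_pos hr, mem_singleton] at hv
      exact hv
  · rintro ⟨h1, h2⟩ v
    by_cases hr : ∃ t ∈ R, blk v.1 t = v.2
    · rw [if_pos hr, mem_singleton]
      exact h2 v hr
    · rw [if_neg hr, mem_Ico]
      exact h1 v

theorem cell_self {m s : ℕ} (R : Finset (Fin (2 ^ m))) {ω : VI m → ℤ} (h : ω ∈ full m s) :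
    ω ∈ cell m s R ω := (mem_cell h).2 ⟨h, fun _ _ => rfl⟩

theorem cell_sub {m s : ℕ} (R : Finset (Fin (2 ^ m))) {ω : VI m → ℤ} (h : ω ∈ full m s) :
    cell m s R ω ⊆ full m s := fun _ hx => ((mem_cell h).1 hx).1

theorem cell_eq {m s : ℕ} (R : Finset (Fin (2 ^ m))) {ω ω' : VI m → ℤ} (h : ω ∈ full m s)
    (h' : ω' ∈ cell m s R ω) : cell m s R ω' = cell m s R ω := by
  have hf := cell_sub R h h'
  have h2 := ((mem_cell h).1 h').2
  ext x
  rw [mem_cell hf, mem_cell h]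
  constructor
  · rintro ⟨a, b⟩
    exact ⟨a, fun v hv => (b v hv).trans (h2 v hv)⟩
  · rintro ⟨a, b⟩
    exact ⟨a, fun v hv => (b v hv).trans (h2 v hv).symm⟩

theorem cell_mono {m s : ℕ} {R R' : Finset (Fin (2 ^ m))} (hR : R ⊆ R') {ω : VI m → ℤ}
    (h : ω ∈ full m s) : cell m s R' ω ⊆ cell m s R ω := by
  intro x hx
  rw [mem_cell h] at hx ⊢
  refine ⟨hx.1, ?_⟩
  rintro v ⟨t, ht, hv⟩
  exact hx.2 v ⟨t, hR ht, hv⟩

theorem base_cell {m s : ℕ} {R : Finset (Fin (2 ^ m))} {ω ω' : VI m → ℤ} (h : ω ∈ full m s)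
    (h' : ω' ∈ cell m s R ω) {j : Fin (2 ^ m)} (hj : j ∈ R) : base m s ω' j = base m s ω j := by
  unfold base
  congr 1
  apply sum_congr rfl
  intro k _
  exact ((mem_cell h).1 h').2 (k, blk k j) ⟨j, hj, rfl⟩

/-! ### levels -/

/-- the highest level at which the block of `p` is not revealed by `R` (`0` if none) -/
def lev (m : ℕ) (R : Finset (Fin (2 ^ m))) (p : Fin (2 ^ m)) : ℕ :=
  Nat.findGreatest (fun l => ∀ t ∈ R, (t : ℕ) / 2 ^ l ≠ (p : ℕ) / 2 ^ l) m

theorem lev_le {m : ℕ} (R : Finset (Fin (2 ^ m))) (p : Fin (2 ^ m)) : lev m R p ≤ m :=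
  Nat.findGreatest_le m

theorem lev_free {m : ℕ} (R : Finset (Fin (2 ^ m))) (p : Fin (2 ^ m)) (l : ℕ) (hl0 : 0 < l)
    (hl : l ≤ lev m R p) : ∀ t ∈ R, (t : ℕ) / 2 ^ l ≠ (p : ℕ) / 2 ^ l := by
  intro t ht heq
  have h0 : lev m R p ≠ 0 := by omega
  have h1 := Nat.findGreatest_of_ne_zero (P := fun l => ∀ t ∈ R, (t : ℕ) / 2 ^ l ≠ (p : ℕ) / 2 ^ l)
    (n := m) (m := lev m R p) rfl h0
  apply h1 t ht
  have h2 : (2 : ℕ) ^ (lev m R p) = 2 ^ l * 2 ^ (lev m R p - l) := by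
    rw [← pow_add]; congr 1; omega
  rw [h2, ← Nat.div_div_eq_div_mul, ← Nat.div_div_eq_div_mul, heq]

theorem lev_revealed {m : ℕ} (R : Finset (Fin (2 ^ m))) (p : Fin (2 ^ m)) (l : ℕ)
    (hl : lev m R p < l) (hlm : l ≤ m) : ∃ t ∈ R, (t : ℕ) / 2 ^ l = (p : ℕ) / 2 ^ l := by
  have h1 := Nat.findGreatest_is_greatest hl hlm
  push Not at h1
  exact h1

theorem natAbs_lt_of_div_eq {a b d : ℕ} (hd : 0 < d) (h : a / d = b / d) :
    Int.natAbs ((a : ℤ) - b) < d := by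
  have h1 := Nat.div_add_mod a d
  have h2 := Nat.div_add_mod b d
  have h3 := Nat.mod_lt a hd
  have h4 := Nat.mod_lt b hd
  rw [h] at h1
  omega

theorem lev_dist {m : ℕ} (R : Finset (Fin (2 ^ m))) (p : Fin (2 ^ m)) (hR : R.Nonempty) :
    ∃ t ∈ R, Int.natAbs (((p : ℕ) : ℤ) - ((t : ℕ) : ℤ)) < 2 ^ (lev m R p + 1) := by
  rcases lt_or_ge (lev m R p) m with h | h
  · obtain ⟨t, ht, heq⟩ := lev_revealed R p (lev m R p + 1) (by omega) (by omega)
    exact ⟨t, ht, natAbs_lt_of_div_eq (by positivity) heq.symm⟩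
  · obtain ⟨t, ht⟩ := hR
    refine ⟨t, ht, ?_⟩
    have h1 := p.2
    have h2 := t.2
    have h3 : (2 : ℕ) ^ m ≤ 2 ^ (lev m R p + 1) := Nat.pow_le_pow_right (by norm_num) (by omega)
    omega

theorem lev_insert {m : ℕ} (R : Finset (Fin (2 ^ m))) (p q : Fin (2 ^ m)) :
    lev m R q ≤ lev m (insert p R) q ∨
      Int.natAbs (((q : ℕ) : ℤ) - ((p : ℕ) : ℤ)) < 2 ^ (lev m (insert p R) q + 1) := by
  by_cases h : lev m R q ≤ lev m (insert p R) q
  · exact Or.inl h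
  right
  push Not at h
  have hm := lev_le R q
  obtain ⟨t, ht, heq⟩ := lev_revealed (insert p R) q (lev m (insert p R) q + 1) (by omega) (by omega)
  rcases mem_insert.1 ht with h1 | h1
  · rw [h1] at heq
    exact natAbs_lt_of_div_eq (by positivity) heq.symm
  · exact absurd heq (lev_free R q _ (by omega) (by omega) t h1)

/-! ### extended configurations -/

abbrev EI (m : ℕ) := VI m ⊕ Bool

noncomputable def extS (m s : ℕ) (R : Finset (Fin (2 ^ m))) (ω₀ : VI m → ℤ) : EI m → Finset ℤ :=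
  Sum.elim (cellS m s R ω₀) (fun _ => Ico (0 : ℤ) s)

/-- the branch of coordinates on which the value at `p` depends -/
def br {m : ℕ} (p : Fin (2 ^ m)) (b : Bool) : Finset (EI m) :=
  insert (Sum.inr b) (univ.image (fun k : Fin m => (Sum.inl (k, blk k p) : EI m)))

def Fv (m s : ℕ) (p : Fin (2 ^ m)) (b : Bool) (θ : EI m → ℤ) : ℤ :=
  base m s (fun v => θ (Sum.inl v)) p + θ (Sum.inr b)

theorem Fv_eq {m s : ℕ} (p : Fin (2 ^ m)) (b : Bool) (θ : EI m → ℤ) :
    Fv m s p b θ = cst m s p + ∑ e ∈ br p b, θ e := by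
  unfold Fv base br
  rw [sum_insert, sum_image]
  · ring
  · intro k _ k' _ h
    simp only [Sum.inl.injEq, Prod.mk.injEq] at h
    exact h.1
  · simp

theorem Fv_inj {m s : ℕ} (p : Fin (2 ^ m)) (b : Bool) (θ θ' : EI m → ℤ) (e₀ : EI m)
    (he : e₀ ∈ br p b) (hoff : ∀ e ∈ br p b, e ≠ e₀ → θ e = θ' e)
    (hF : Fv m s p b θ = Fv m s p b θ') : θ e₀ = θ' e₀ := by
  rw [Fv_eq, Fv_eq, ← add_sum_erase _ _ he, ← add_sum_erase _ _ he] at hF
  have h1 : ∑ e ∈ (br p b).erase e₀, θ e = ∑ e ∈ (br p b).erase e₀, θ' e := by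
    apply sum_congr rfl
    intro e hee
    exact hoff e (mem_of_mem_erase hee) (ne_of_mem_erase hee)
  rw [h1] at hF
  linarith

/-- the driving coordinate of `p` at level `f` -/
def drv {m : ℕ} (p : Fin (2 ^ m)) (b : Bool) (f : ℕ) (hf : f ≤ m) : EI m :=
  if h : f = 0 then Sum.inr b else
    Sum.inl (⟨f - 1, by omega⟩, blk ⟨f - 1, by omega⟩ p)

theorem drv_mem {m : ℕ} (p : Fin (2 ^ m)) (b : Bool) (f : ℕ) (hf : f ≤ m) :
    drv p b f hf ∈ br p b := by
  unfold drv br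
  split_ifs with h
  · exact mem_insert_self _ _
  · apply mem_insert_of_mem
    apply mem_image_of_mem (fun k : Fin m => (Sum.inl (k, blk k p) : EI m))
    exact mem_univ _

theorem drv_card {m s : ℕ} (R : Finset (Fin (2 ^ m))) (ω₀ : VI m → ℤ) (p : Fin (2 ^ m)) (b : Bool)
    (f : ℕ) (hf : f ≤ m) (hfree : 0 < f → ∀ t ∈ R, (t : ℕ) / 2 ^ f ≠ (p : ℕ) / 2 ^ f) :
    (extS m s R ω₀ (drv p b f hf)).card = s * 2 ^ f := by
  unfold drv extS
  split_ifs with h
  · simp only [Sum.elim_inr, Int.card_Ico, sub_zero, Int.toNat_natCast, h, pow_zero, mul_one]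
  · simp only [Sum.elim_inl]
    unfold cellS
    have hcast : f - 1 + 1 = f := by omega
    rw [if_neg]
    · simp only [Int.card_Ico, sub_zero, Int.toNat_natCast, hcast]
    · rintro ⟨t, ht, heq⟩
      simp only at heq
      rw [blk_eq_iff] at heq
      simp only [hcast] at heq
      exact hfree (by omega) t ht heq

/-- joint density of the values at `p` and `q` -/
theorem joint_le {m s : ℕ} (R : Finset (Fin (2 ^ m))) (ω₀ : VI m → ℤ) (p q : Fin (2 ^ m))
    (y₁ y₂ : ℤ) :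
    ((Fintype.piFinset (extS m s R ω₀)).filter
        (fun θ => Fv m s p false θ = y₁ ∧ Fv m s q true θ = y₂)).card *
      ((s * 2 ^ (lev m R p)) * (s * 2 ^ (lev m (insert p R) q))) ≤
      (Fintype.piFinset (extS m s R ω₀)).card := by
  set f := lev m R p with hf
  set f' := lev m (insert p R) q with hf'
  have hfm : f ≤ m := lev_le R p
  have hfm' : f' ≤ m := lev_le (insert p R) q
  have hfree : 0 < f → ∀ t ∈ R, (t : ℕ) / 2 ^ f ≠ (p : ℕ) / 2 ^ f :=
    fun h => lev_free R p f h le_rfl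
  have hfree' : 0 < f' → ∀ t ∈ insert p R, (t : ℕ) / 2 ^ f' ≠ (q : ℕ) / 2 ^ f' :=
    fun h => lev_free (insert p R) q f' h le_rfl
  have hnot : drv q true f' hfm' ∉ br p false := by
    unfold drv br
    split_ifs with h
    · simp
    · intro hmem
      rcases mem_insert.1 hmem with h1 | h1
      · simp at h1
      · obtain ⟨k, -, hk⟩ := mem_image.1 h1
        simp only [Sum.inl.injEq, Prod.mk.injEq] at hk
        obtain ⟨h2, h3⟩ := hk
        subst h2
        rw [blk_eq_iff] at h3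
        have hcast : f' - 1 + 1 = f' := by omega
        simp only [hcast] at h3
        exact hfree' (by omega) p (mem_insert_self _ _) h3
  have hne : drv p false f hfm ≠ drv q true f' hfm' := by
    intro h
    exact hnot (h ▸ drv_mem p false f hfm)
  have h1 := two_coord (extS m s R ω₀) (Fv m s p false) (Fv m s q true) (drv p false f hfm)
    (drv q true f' hfm') hne
    (by
      intro θ θ' hoff hF
      apply Fv_inj p false θ θ' _ (drv_mem p false f hfm) _ hF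
      intro e he1 he2
      exact hoff e he2 (fun h => hnot (h ▸ he1)))
    (by
      intro θ θ' hoff hF
      apply Fv_inj q true θ θ' _ (drv_mem q true f' hfm') _ hF
      intro e _ he2
      exact hoff e he2) y₁ y₂
  rw [drv_card R ω₀ p false f hfm hfree, drv_card R ω₀ q true f' hfm'
    (fun h t ht => hfree' h t (mem_insert_of_mem ht))] at h1
  exact h1

theorem pow_sum_aux (f : ℕ) : ∀ m : ℕ,
    (∑ k ∈ range m, (if f < k + 1 then 0 else 2 ^ (k + 1)) + 2 ≤ 2 ^ (m + 1)) ∧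
    (∑ k ∈ range m, (if f < k + 1 then 0 else 2 ^ (k + 1)) + 2 ≤ 2 ^ (f + 1)) := by
  intro m
  induction m with
  | zero =>
    constructor
    · simp
    · simp only [range_zero, sum_empty, zero_add]
      calc 2 = 2 ^ 1 := rfl
        _ ≤ 2 ^ (f + 1) := Nat.pow_le_pow_right (by norm_num) (by omega)
  | succ m ih =>
    rw [sum_range_succ]
    have h1 : (2 : ℕ) ^ (m + 1 + 1) = 2 ^ (m + 1) + 2 ^ (m + 1) := by ring
    split_ifs with h
    · refine ⟨by omega, by omega⟩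
    · have h2 : (2 : ℕ) ^ (m + 1 + 1) ≤ 2 ^ (f + 1) := Nat.pow_le_pow_right (by norm_num) (by omega)
      refine ⟨by omega, by omega⟩

/-- all possible values at `p` given the revealed set lie in a short interval -/
theorem range_le {m s : ℕ} (hs : 0 < s) (R : Finset (Fin (2 ^ m))) {ω₀ : VI m → ℤ}
    (h₀ : ω₀ ∈ full m s) (p : Fin (2 ^ m)) (b : Bool) :
    ∃ c : ℤ, ∀ θ ∈ Fintype.piFinset (extS m s R ω₀),
      c < Fv m s p b θ ∧ Fv m s p b θ ≤ c + ((2 * s * 2 ^ (lev m R p) : ℕ) : ℤ) := by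
  set f := lev m R p with hf
  refine ⟨cst m s p + ∑ k : Fin m, (if f < (k : ℕ) + 1 then ω₀ (k, blk k p) else 0) - 1, ?_⟩
  intro θ hθ
  rw [Fintype.mem_piFinset] at hθ
  have hθ1 : (fun v => θ (Sum.inl v)) ∈ cell m s R ω₀ := by
    unfold cell
    rw [Fintype.mem_piFinset]
    intro v
    have := hθ (Sum.inl v)
    unfold extS at this
    simpa using this
  have hθ2 : θ (Sum.inr b) ∈ Ico (0 : ℤ) s := by
    have := hθ (Sum.inr b)
    unfold extS at this
    simpa using this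
  rw [mem_Ico] at hθ2
  obtain ⟨hfull, hrev⟩ := (mem_cell h₀).1 hθ1
  rw [mem_full] at hfull
  have hsplit : ∑ k : Fin m, θ (Sum.inl (k, blk k p)) =
      ∑ k : Fin m, (if f < (k : ℕ) + 1 then ω₀ (k, blk k p) else 0) +
      ∑ k : Fin m, (if f < (k : ℕ) + 1 then 0 else θ (Sum.inl (k, blk k p))) := by
    rw [← sum_add_distrib]
    apply sum_congr rfl
    intro k _
    split_ifs with h
    · rw [add_zero]
      apply hrev (k, blk k p)
      obtain ⟨t, ht, heq⟩ := lev_revealed R p ((k : ℕ) + 1) h (by have := k.2; omega)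
      refine ⟨t, ht, ?_⟩
      simp only
      rw [blk_eq_iff]
      exact heq
    · rw [zero_add]
  have hlow : 0 ≤ ∑ k : Fin m, (if f < (k : ℕ) + 1 then 0 else θ (Sum.inl (k, blk k p))) := by
    apply sum_nonneg
    intro k _
    split_ifs with h
    · exact le_rfl
    · exact (hfull (k, blk k p)).1
  have hup : ∑ k : Fin m, (if f < (k : ℕ) + 1 then 0 else θ (Sum.inl (k, blk k p))) ≤
      (s : ℤ) * ((∑ k ∈ range m, (if f < k + 1 then 0 else 2 ^ (k + 1)) : ℕ) : ℤ) := by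
    rw [← Fin.sum_univ_eq_sum_range (fun k => if f < k + 1 then 0 else 2 ^ (k + 1)) m]
    push_cast
    rw [mul_sum]
    apply sum_le_sum
    intro k _
    split_ifs with h
    · simp
    · have := (hfull (k, blk k p)).2
      simp only at this
      push_cast at this
      exact this.le
  have hp := (pow_sum_aux f m).2
  have hF : Fv m s p b θ = cst m s p + ∑ k : Fin m, θ (Sum.inl (k, blk k p)) + θ (Sum.inr b) := rfl
  rw [hF, hsplit]
  have hpz : ((∑ k ∈ range m, (if f < k + 1 then 0 else 2 ^ (k + 1)) : ℕ) : ℤ) + 2 ≤ 2 * 2 ^ f := by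
    have : (∑ k ∈ range m, (if f < k + 1 then 0 else 2 ^ (k + 1))) + 2 ≤ 2 * 2 ^ f := by
      have e : (2 : ℕ) ^ (f + 1) = 2 * 2 ^ f := by ring
      omega
    exact_mod_cast this
  have hsz : (0 : ℤ) < s := by exact_mod_cast hs
  have hmul : (s : ℤ) * (((∑ k ∈ range m, (if f < k + 1 then 0 else 2 ^ (k + 1)) : ℕ) : ℤ) + 2) ≤
      (s : ℤ) * (2 * 2 ^ f) := mul_le_mul_of_nonneg_left hpz hsz.le
  have hcast : ((2 * s * 2 ^ f : ℕ) : ℤ) = (s : ℤ) * (2 * 2 ^ f) := by push_cast; ring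
  rw [hcast]
  constructor
  · linarith [hθ2.1]
  · linarith [hθ2.2]

end Pool.Agent.NTL
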