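import Pool.Agent.Hhelper37.NTLModel

set_option autoImplicit false

namespace Pool.Agent.NTL

open Finset

/-- number of extended configurations for which `p, q` and the fixed point over `r` are collinear -/
theorem coll_le {m s : ℕ} (hs : 0 < s) (R : Finset (Fin (2 ^ m))) {ω₀ : VI m → ℤ}
    (h₀ : ω₀ ∈ full m s) (p q r : Fin (2 ^ m)) (hpr : p ≠ r) (z : ℤ) :
    (((Fintype.piFinset (extS m s R ω₀)).filter (fun θ =>
      (Fv m s p false θ - z) * (((q : ℕ) : ℤ) - ((r : ℕ) : ℤ)) =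
        (Fv m s q true θ - z) * (((p : ℕ) : ℤ) - ((r : ℕ) : ℤ)))).card : ℝ) ≤
    ((Fintype.piFinset (extS m s R ω₀)).card : ℝ) *
      ((2 * s * 2 ^ (lev m R p) * (Int.gcd (((p : ℕ) : ℤ) - ((r : ℕ) : ℤ))
        (((q : ℕ) : ℤ) - ((r : ℕ) : ℤ)) : ℝ) / ((((p : ℕ) : ℤ) - ((r : ℕ) : ℤ)).natAbs : ℝ) + 1) /
        (((s : ℝ) * 2 ^ (lev m R p)) * ((s : ℝ) * 2 ^ (lev m (insert p R) q)))) := by
  set P : ℤ := ((p : ℕ) : ℤ) - ((r : ℕ) : ℤ) with hP
  set Q : ℤ := ((q : ℕ) : ℤ) - ((r : ℕ) : ℤ) with hQ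
  have hP0 : P ≠ 0 := by
    intro h
    apply hpr
    rw [Fin.ext_iff]
    omega
  set g : ℕ := Int.gcd P Q with hg
  have hgpos : 0 < g := by
    rw [hg]
    exact Int.gcd_pos_of_ne_zero_left _ hP0
  set f := lev m R p with hf
  set f' := lev m (insert p R) q with hf'
  have hgz : (g : ℤ) ≠ 0 := by exact_mod_cast hgpos.ne'
  obtain ⟨P', hP'⟩ : (g : ℤ) ∣ P := Int.gcd_dvd_left P Q
  obtain ⟨Q', hQ'⟩ : (g : ℤ) ∣ Q := Int.gcd_dvd_right P Q
  have hP'0 : P' ≠ 0 := by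
    intro h
    apply hP0
    rw [hP', h, mul_zero]
  have hcop : IsCoprime P' Q' := by
    rw [Int.isCoprime_iff_gcd_eq_one]
    have h1 := Int.gcd_mul_left g P' Q'
    have h2 : (Int.gcd ((g : ℤ) * P') ((g : ℤ) * Q')) = g := by rw [← hP', ← hQ']
    rw [h2] at h1
    simp only [Int.natAbs_natCast] at h1
    have h3 : g * 1 = g * P'.gcd Q' := by rw [mul_one]; exact h1
    exact (Nat.eq_of_mul_eq_mul_left hgpos h3).symm
  set ρ : ℕ := P'.natAbs with hρ
  have hρpos : 0 < ρ := Int.natAbs_pos.2 hP'0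
  obtain ⟨c, hc⟩ := range_le hs R h₀ p false
  rw [← hf] at hc
  set L : ℕ := 2 * s * 2 ^ f with hL
  set K := Fintype.piFinset (extS m s R ω₀) with hK
  let Y : Finset ℤ := (Ioc c (c + L)).filter (fun y => y ≡ z [ZMOD (ρ : ℤ)])
  have hY : (Y.card : ℝ) ≤ L / (ρ : ℝ) + 1 := by
    have := card_modEq_le c L (ρ : ℤ) (by exact_mod_cast hρpos) z
    push_cast at this ⊢
    exact this
  have hsub : K.filter (fun θ => (Fv m s p false θ - z) * Q = (Fv m s q true θ - z) * P) ⊆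
      Y.biUnion (fun y => K.filter (fun θ => Fv m s p false θ = y ∧
        Fv m s q true θ = z + (y - z) / P' * Q')) := by
    intro θ hθ
    rw [mem_filter] at hθ
    obtain ⟨hθK, heq⟩ := hθ
    rw [mem_biUnion]
    have h1 : (Fv m s p false θ - z) * Q' = (Fv m s q true θ - z) * P' := by
      apply mul_left_cancel₀ hgz
      rw [hP', hQ'] at heq
      linear_combination heq
    have hdvd : P' ∣ (Fv m s p false θ - z) := by
      apply hcop.dvd_of_dvd_mul_right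
      rw [h1]
      exact dvd_mul_left _ _
    refine ⟨Fv m s p false θ, ?_, ?_⟩
    · simp only [Y, mem_filter, mem_Ioc]
      refine ⟨hc θ hθK, ?_⟩
      have h2 : ((ρ : ℕ) : ℤ) ∣ Fv m s p false θ - z := by
        rw [hρ]
        exact Int.natAbs_dvd.2 hdvd
      exact (Int.modEq_iff_dvd.2 h2).symm
    · rw [mem_filter]
      refine ⟨hθK, rfl, ?_⟩
      obtain ⟨w, hw⟩ := hdvd
      rw [hw, Int.mul_ediv_cancel_left _ hP'0]
      have h3 : w * Q' = Fv m s q true θ - z := by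
        rw [hw] at h1
        apply mul_left_cancel₀ hP'0
        linear_combination h1
      linarith
  have hD : (0 : ℝ) < ((s : ℝ) * 2 ^ f) * ((s : ℝ) * 2 ^ f') := by
    have : (0 : ℝ) < s := by exact_mod_cast hs
    positivity
  have hcard : ∀ y ∈ Y, ((K.filter (fun θ => Fv m s p false θ = y ∧
        Fv m s q true θ = z + (y - z) / P' * Q')).card : ℝ) ≤
      (K.card : ℝ) / (((s : ℝ) * 2 ^ f) * ((s : ℝ) * 2 ^ f')) := by
    intro y _
    rw [le_div_iff₀ hD]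
    have := joint_le (s := s) R ω₀ p q y (z + (y - z) / P' * Q')
    rw [← hf, ← hf'] at this
    exact_mod_cast this
  have h1 : ((K.filter (fun θ => (Fv m s p false θ - z) * Q = (Fv m s q true θ - z) * P)).card : ℝ)
      ≤ (Y.card : ℝ) * ((K.card : ℝ) / (((s : ℝ) * 2 ^ f) * ((s : ℝ) * 2 ^ f'))) := by
    calc ((K.filter (fun θ => (Fv m s p false θ - z) * Q = (Fv m s q true θ - z) * P)).card : ℝ)
        ≤ ((Y.biUnion (fun y => K.filter (fun θ => Fv m s p false θ = y ∧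
        Fv m s q true θ = z + (y - z) / P' * Q'))).card : ℝ) := by
          exact_mod_cast card_le_card hsub
      _ ≤ ((∑ y ∈ Y, (K.filter (fun θ => Fv m s p false θ = y ∧
        Fv m s q true θ = z + (y - z) / P' * Q')).card : ℕ) : ℝ) := by
          exact_mod_cast card_biUnion_le
      _ = ∑ y ∈ Y, ((K.filter (fun θ => Fv m s p false θ = y ∧
        Fv m s q true θ = z + (y - z) / P' * Q')).card : ℝ) := by push_cast; rfl
      _ ≤ ∑ y ∈ Y, (K.card : ℝ) / (((s : ℝ) * 2 ^ f) * ((s : ℝ) * 2 ^ f')) := sum_le_sum hcard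
      _ = _ := by rw [sum_const, nsmul_eq_mul]
  refine h1.trans ?_
  have h2 : (L : ℝ) / (ρ : ℝ) = 2 * s * 2 ^ f * (g : ℝ) / (P.natAbs : ℝ) := by
    have h3 : (P.natAbs : ℝ) = (g : ℝ) * (ρ : ℝ) := by
      have : P.natAbs = g * ρ := by
        rw [hP', Int.natAbs_mul, Int.natAbs_natCast]
      exact_mod_cast this
    have hgR : (g : ℝ) ≠ 0 := by exact_mod_cast hgpos.ne'
    have hρR : (ρ : ℝ) ≠ 0 := by exact_mod_cast hρpos.ne'
    rw [h3, hL]
    push_cast
    field_simp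
  rw [← h2]
  have hK0 : (0 : ℝ) ≤ (K.card : ℝ) := Nat.cast_nonneg _
  calc (Y.card : ℝ) * ((K.card : ℝ) / (((s : ℝ) * 2 ^ f) * ((s : ℝ) * 2 ^ f')))
      ≤ ((L : ℝ) / (ρ : ℝ) + 1) * ((K.card : ℝ) / (((s : ℝ) * 2 ^ f) * ((s : ℝ) * 2 ^ f'))) := by
        exact mul_le_mul_of_nonneg_right hY (div_nonneg hK0 hD.le)
    _ = _ := by ring

/-- the weight: fraction of local choices making the triple collinear -/
noncomputable def wgt (m s : ℕ) (r : Fin (2 ^ m)) (u : ℤ) (T : Fin (2 ^ m) × Fin (2 ^ m))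
    (ω : VI m → ℤ) : ℝ :=
  if T.1 ≠ T.2 ∧ T.1 ≠ r ∧ T.2 ≠ r then
    (((Ico (0 : ℤ) s ×ˢ Ico (0 : ℤ) s).filter (fun x =>
      (base m s ω T.1 + x.1 - (base m s ω r + u)) * (((T.2 : ℕ) : ℤ) - ((r : ℕ) : ℤ)) =
        (base m s ω T.2 + x.2 - (base m s ω r + u)) * (((T.1 : ℕ) : ℤ) - ((r : ℕ) : ℤ)))).card : ℝ) /
      (s : ℝ) ^ 2
  else 0

theorem wgt_nonneg (m s : ℕ) (r : Fin (2 ^ m)) (u : ℤ) (T : Fin (2 ^ m) × Fin (2 ^ m))
    (ω : VI m → ℤ) : 0 ≤ wgt m s r u T ω := by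
  unfold wgt
  split_ifs
  · positivity
  · exact le_rfl

theorem card_ext {m s : ℕ} (R : Finset (Fin (2 ^ m))) (ω₀ : VI m → ℤ) :
    (Fintype.piFinset (extS m s R ω₀)).card = (cell m s R ω₀).card * s ^ 2 := by
  unfold cell
  rw [Fintype.card_piFinset, Fintype.card_piFinset, Fintype.prod_sum_type]
  congr 1
  unfold extS
  simp only [Sum.elim_inr, Fintype.prod_bool, Int.card_Ico, sub_zero, Int.toNat_natCast]
  ring

/-- average weight over a cell -/
theorem avg_wgt {m s : ℕ} (hs : 0 < s) (R : Finset (Fin (2 ^ m))) {ω₀ : VI m → ℤ}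
    (h₀ : ω₀ ∈ full m s) (r : Fin (2 ^ m)) (hr : r ∈ R) (u : ℤ) (p q : Fin (2 ^ m))
    (hpq : p ≠ q) (hpr : p ≠ r) (hqr : q ≠ r) :
    ∑ ω ∈ cell m s R ω₀, wgt m s r u (p, q) ω ≤ ((cell m s R ω₀).card : ℝ) *
      ((2 * s * 2 ^ (lev m R p) * (Int.gcd (((p : ℕ) : ℤ) - ((r : ℕ) : ℤ))
        (((q : ℕ) : ℤ) - ((r : ℕ) : ℤ)) : ℝ) / ((((p : ℕ) : ℤ) - ((r : ℕ) : ℤ)).natAbs : ℝ) + 1) /
        (((s : ℝ) * 2 ^ (lev m R p)) * ((s : ℝ) * 2 ^ (lev m (insert p R) q)))) := by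
  have hcoll := coll_le hs R h₀ p q r hpr (base m s ω₀ r + u)
  rw [card_ext] at hcoll
  have hsR : (0 : ℝ) < s := by exact_mod_cast hs
  have hs2 : (0 : ℝ) < (s : ℝ) ^ 2 := by positivity
  -- the number of pairs
  have key : ∑ ω ∈ cell m s R ω₀, wgt m s r u (p, q) ω * (s : ℝ) ^ 2 ≤
      (((Fintype.piFinset (extS m s R ω₀)).filter (fun θ =>
      (Fv m s p false θ - (base m s ω₀ r + u)) * (((q : ℕ) : ℤ) - ((r : ℕ) : ℤ)) =
        (Fv m s q true θ - (base m s ω₀ r + u)) * (((p : ℕ) : ℤ) - ((r : ℕ) : ℤ)))).card : ℝ) := by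
    have h1 : ∀ ω ∈ cell m s R ω₀, wgt m s r u (p, q) ω * (s : ℝ) ^ 2 =
        (((Ico (0 : ℤ) s ×ˢ Ico (0 : ℤ) s).filter (fun x =>
      (base m s ω p + x.1 - (base m s ω₀ r + u)) * (((q : ℕ) : ℤ) - ((r : ℕ) : ℤ)) =
        (base m s ω q + x.2 - (base m s ω₀ r + u)) * (((p : ℕ) : ℤ) - ((r : ℕ) : ℤ)))).card : ℝ) := by
      intro ω hω
      unfold wgt
      rw [if_pos ⟨hpq, hpr, hqr⟩, div_mul_cancel₀ _ hs2.ne', base_cell h₀ hω hr]
    rw [sum_congr rfl h1]
    rw [← Nat.cast_sum, ← card_sigma]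
    apply Nat.cast_le.2
    apply card_le_card_of_injOn
      (fun t => (Sum.elim t.1 (fun b => if b then t.2.2 else t.2.1) : EI m → ℤ))
    · rintro ⟨ω, x, y⟩ ht
      simp only [coe_sigma, Set.mem_sigma_iff, mem_coe, mem_filter, mem_product] at ht
      obtain ⟨hω, ⟨hx, hy⟩, heq⟩ := ht
      simp only [mem_coe, mem_filter, Fintype.mem_piFinset]
      constructor
      · rintro (v | b)
        · unfold extS
          simp only [Sum.elim_inl]
          unfold cell at hω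
          rw [Fintype.mem_piFinset] at hω
          exact hω v
        · unfold extS
          cases b
          · simpa using hx
          · simpa using hy
      · unfold Fv
        simp only [Sum.elim_inl, Sum.elim_inr, if_true, Bool.false_eq_true, if_false]
        exact heq
    · rintro ⟨ω, x, y⟩ _ ⟨ω', x', y'⟩ _ heq
      simp only at heq
      have h2 : ω = ω' := by
        funext v
        have := congrFun heq (Sum.inl v)
        simpa using this
      have h3 : x = x' := by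
        have := congrFun heq (Sum.inr false)
        simpa using this
      have h4 : y = y' := by
        have := congrFun heq (Sum.inr true)
        simpa using this
      subst h2
      subst h3
      subst h4
      rfl
  rw [← sum_mul] at key
  have h2 := key.trans hcoll
  have h3 : (∑ ω ∈ cell m s R ω₀, wgt m s r u (p, q) ω) * (s : ℝ) ^ 2 ≤
      (((cell m s R ω₀).card : ℝ) *
      ((2 * s * 2 ^ (lev m R p) * (Int.gcd (((p : ℕ) : ℤ) - ((r : ℕ) : ℤ))
        (((q : ℕ) : ℤ) - ((r : ℕ) : ℤ)) : ℝ) / ((((p : ℕ) : ℤ) - ((r : ℕ) : ℤ)).natAbs : ℝ) + 1) /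
        (((s : ℝ) * 2 ^ (lev m R p)) * ((s : ℝ) * 2 ^ (lev m (insert p R) q))))) * (s : ℝ) ^ 2 := by
    refine h2.trans (le_of_eq ?_)
    push_cast
    ring
  exact le_of_mul_le_mul_right h3 hs2

end Pool.Agent.NTL
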