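import Pool.Agent.Hhelper37.NTLBasic

set_option autoImplicit false

namespace Pool.Agent.NTL

open Finset

/-- no three collinear, for unordered distinct triples -/
theorem det_ne_of_distinct {a : ℕ → ℤ} {n : ℕ}
    (h : ∀ i j k, 1 ≤ i → i < j → j < k → k ≤ n →
      ¬ ((a j - a i) * ((k : ℤ) - i) = (a k - a i) * ((j : ℤ) - i)))
    (p q r : ℕ) (hp : 1 ≤ p ∧ p ≤ n) (hq : 1 ≤ q ∧ q ≤ n) (hr : 1 ≤ r ∧ r ≤ n)
    (hpq : p ≠ q) (hpr : p ≠ r) (hqr : q ≠ r) (u v z : ℤ) (hu : 0 < u)
    (h1 : u * a p - v * p = z) (h2 : u * a q - v * q = z) (h3 : u * a r - v * r = z) : False := by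
  have key : ∀ i j k : ℕ, 1 ≤ i → i < j → j < k → k ≤ n →
      u * a i - v * i = z → u * a j - v * j = z → u * a k - v * k = z → False := by
    intro i j k hi hij hjk hk e1 e2 e3
    apply h i j k hi hij hjk hk
    apply mul_left_cancel₀ hu.ne'
    have e4 : u * (a j - a i) = v * ((j : ℤ) - i) := by linear_combination e2 - e1
    have e5 : u * (a k - a i) = v * ((k : ℤ) - i) := by linear_combination e3 - e1
    linear_combination ((k : ℤ) - i) * e4 - ((j : ℤ) - i) * e5
  rcases lt_or_gt_of_ne hpq with a1 | a1 <;> rcases lt_or_gt_of_ne hpr with a2 | a2 <;>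
    rcases lt_or_gt_of_ne hqr with a3 | a3
  · exact key p q r hp.1 a1 a3 hr.2 h1 h2 h3
  · exact key p r q hp.1 a2 a3 hq.2 h1 h3 h2
  · omega
  · exact key r p q hr.1 a2 a1 hq.2 h3 h1 h2
  · exact key q p r hq.1 a1 a2 hr.2 h2 h1 h3
  · omega
  · exact key q r p hq.1 a3 a2 hp.2 h2 h3 h1
  · exact key r q p hr.1 a3 a1 hp.2 h3 h2 h1

theorem descend {a : ℕ → ℤ} {n : ℕ}
    (h : ∀ i j k, 1 ≤ i → i < j → j < k → k ≤ n →
      ¬ ((a j - a i) * ((k : ℤ) - i) = (a k - a i) * ((j : ℤ) - i)))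
    (u l : ℕ) (hu : 1 ≤ u) (hl : 32 ≤ l) (hul : u + l ≤ n) (μ : ℝ)
    (hμ : (a (u + l) : ℝ) - a u = μ * l) :
    ∃ m : ℕ, l ≤ 8 * m ∧ 8 * m ≤ 7 * l ∧
      ((a (u + m) : ℝ) - a u ≤ (μ - 1 / 128) * m ∨
        (a (u + l) : ℝ) - a (u + m) ≤ (μ - 1 / 128) * ((l : ℝ) - m)) := by
  by_contra hcon
  push Not at hcon
  have hlR : (32 : ℝ) ≤ l := by exact_mod_cast hl
  obtain ⟨p, q, hq0, hq3, hpq⟩ := Real.exists_int_int_abs_mul_sub_le μ (n := 3) (by norm_num)
  set θ : ℝ := (q : ℝ) * μ - p with hθ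
  have hθ' : |θ| ≤ 1 / 4 := by
    refine hpq.trans (le_of_eq (by norm_num))
  have hq0R : (0 : ℝ) < q := by exact_mod_cast hq0
  have hq3R : (q : ℝ) ≤ 3 := by exact_mod_cast hq3
  let S : Finset ℕ := Icc ((l + 7) / 8) (7 * l / 8)
  let lo : ℝ := -(3 / 128) * l + min θ 0 * l
  let hi : ℝ := (3 / 128) * l + max θ 0 * l
  let T : Finset ℤ := Icc ⌈lo⌉ ⌊hi⌋
  have hmem : ∀ m ∈ S, l ≤ 8 * m ∧ 8 * m ≤ 7 * l := by
    intro m hm
    simp only [S, mem_Icc] at hm
    omega
  have hmaps : ∀ m ∈ S, q * (a (u + m) - a u) - p * m ∈ T := by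
    intro m hm
    obtain ⟨hm1, hm2⟩ := hmem m hm
    obtain ⟨g1, g2⟩ := hcon m hm1 hm2
    have hmR0 : (0 : ℝ) ≤ m := by positivity
    have hmR : (m : ℝ) ≤ l := by
      have : m ≤ l := by omega
      exact_mod_cast this
    set y : ℝ := (a (u + m) : ℝ) - a u - μ * m with hy
    have y1 : -(1 / 128) * (l : ℝ) ≤ y := by
      have : -(1 / 128) * (l : ℝ) ≤ -(1 / 128) * m := by nlinarith
      linarith
    have y2 : y ≤ (1 / 128) * (l : ℝ) := by
      have e1 : y < (1 / 128) * ((l : ℝ) - m) := by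
        rw [hy]; linarith
      linarith
    have hz : (((q * (a (u + m) - a u) - p * m : ℤ)) : ℝ) = q * y + θ * m := by
      push_cast
      rw [hy, hθ]
      ring
    have qy1 : -(3 / 128) * (l : ℝ) ≤ q * y := by nlinarith
    have qy2 : q * y ≤ (3 / 128) * (l : ℝ) := by nlinarith
    have t1 : min θ 0 * (l : ℝ) ≤ θ * m := by
      rcases le_total θ 0 with h0 | h0
      · rw [min_eq_left h0]; nlinarith
      · rw [min_eq_right h0]; nlinarith
    have t2 : θ * m ≤ max θ 0 * (l : ℝ) := by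
      rcases le_total θ 0 with h0 | h0
      · rw [max_eq_right h0]; nlinarith
      · rw [max_eq_left h0]; nlinarith
    simp only [T, mem_Icc]
    constructor
    · apply Int.ceil_le.2
      rw [hz]
      simp only [lo]
      linarith
    · apply Int.le_floor.2
      rw [hz]
      simp only [hi]
      linarith
  have hwidth : hi - lo ≤ 19 / 64 * (l : ℝ) := by
    simp only [hi, lo]
    have : max θ 0 - min θ 0 = |θ| := by
      rcases le_total θ 0 with h0 | h0
      · rw [max_eq_right h0, min_eq_left h0, abs_of_nonpos h0]; ring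
      · rw [max_eq_left h0, min_eq_right h0, abs_of_nonneg h0]; ring
    nlinarith
  have hcardT : (T.card : ℝ) ≤ 19 / 64 * (l : ℝ) + 1 := by
    simp only [T, Int.card_Icc]
    have h1 : ((⌊hi⌋ + 1 - ⌈lo⌉ : ℤ) : ℝ) ≤ 19 / 64 * (l : ℝ) + 1 := by
      push_cast
      have e1 := Int.floor_le hi
      have e2 := Int.le_ceil lo
      linarith
    have h2 : (0 : ℝ) ≤ 19 / 64 * (l : ℝ) + 1 := by positivity
    have h3 : (((⌊hi⌋ + 1 - ⌈lo⌉).toNat : ℤ) : ℝ) ≤ 19 / 64 * (l : ℝ) + 1 := by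
      rw [Int.toNat_eq_max]
      push_cast
      push_cast at h1
      exact max_le h1 h2
    exact_mod_cast h3
  have hcardS : 3 / 4 * (l : ℝ) - 1 ≤ (S.card : ℝ) := by
    have h1 : 3 * l ≤ 4 * S.card + 4 := by
      simp only [S, Nat.card_Icc]
      omega
    have h2 : (3 : ℝ) * l ≤ 4 * S.card + 4 := by exact_mod_cast h1
    linarith
  have hpig : T.card * 2 < S.card := by
    have : (T.card : ℝ) * 2 < S.card := by nlinarith
    exact_mod_cast this
  obtain ⟨z, -, hz⟩ := exists_lt_card_fiber_of_mul_lt_card_of_maps_to hmaps hpig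
  rw [two_lt_card] at hz
  obtain ⟨m1, hm1, m2, hm2, m3, hm3, h12, h13, h23⟩ := hz
  rw [mem_filter] at hm1 hm2 hm3
  have b1 := hmem m1 hm1.1
  have b2 := hmem m2 hm2.1
  have b3 := hmem m3 hm3.1
  refine det_ne_of_distinct h (u + m1) (u + m2) (u + m3) (by omega) (by omega) (by omega)
    (by omega) (by omega) (by omega) q p (z + q * a u - p * u) hq0 ?_ ?_ ?_
  · push_cast; linarith [hm1.2]
  · push_cast; linarith [hm2.2]
  · push_cast; linarith [hm3.2]

theorem slope_lower {a : ℕ → ℤ} {n : ℕ}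
    (hinc : ∀ i j, 1 ≤ i → i < j → j ≤ n → a i < a j)
    (h : ∀ i j k, 1 ≤ i → i < j → j < k → k ≤ n →
      ¬ ((a j - a i) * ((k : ℤ) - i) = (a k - a i) * ((j : ℤ) - i))) (k : ℕ) :
    ∀ u l : ℕ, 1 ≤ u → 32 * 8 ^ k ≤ l → u + l ≤ n →
      (1 + (k : ℝ) / 128) * l ≤ (a (u + l) : ℝ) - a u := by
  induction k with
  | zero =>
    intro u l hu hl hul
    have key : ∀ m : ℕ, u + m ≤ n → (m : ℤ) ≤ a (u + m) - a u := by
      intro m
      induction m with
      | zero => intro _; simp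
      | succ m ih =>
        intro hm
        have h1 := ih (by omega)
        have h2 := hinc (u + m) (u + (m + 1)) (by omega) (by omega) hm
        push_cast
        omega
    have h1 := key l hul
    have h2 : (l : ℝ) ≤ (a (u + l) : ℝ) - a u := by exact_mod_cast h1
    simp only [Nat.cast_zero, zero_div, add_zero, one_mul]
    exact h2
  | succ k ih =>
    intro u l hu hl hul
    have hl32 : 32 ≤ l := by
      have : 1 ≤ 8 ^ (k + 1) := Nat.one_le_pow _ _ (by norm_num)
      omega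
    have hlR : (0 : ℝ) < l := by
      have : 0 < l := by omega
      exact_mod_cast this
    set μ : ℝ := ((a (u + l) : ℝ) - a u) / l with hμ
    have hμl : (a (u + l) : ℝ) - a u = μ * l := by rw [hμ]; field_simp
    obtain ⟨m, hm1, hm2, hor⟩ := descend h u l hu hl32 hul μ hμl
    have hpow : 8 ^ (k + 1) = 8 * 8 ^ k := by ring
    rw [hpow] at hl
    have hm0 : 0 < m := by omega
    have hml : m ≤ l := by omega
    have key : 1 + (k : ℝ) / 128 ≤ μ - 1 / 128 := by
      rcases hor with h1 | h1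
      · have h2 := ih u m hu (by omega) (by omega)
        have hmR : (0 : ℝ) < m := by exact_mod_cast hm0
        exact le_of_mul_le_mul_right (h2.trans h1) hmR
      · have h2 := ih (u + m) (l - m) (by omega) (by omega) (by omega)
        have e1 : u + m + (l - m) = u + l := by omega
        rw [e1, Nat.cast_sub hml] at h2
        have hmR : (0 : ℝ) < (l : ℝ) - m := by
          have : m < l := by omega
          have : (m : ℝ) < l := by exact_mod_cast this
          linarith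
        exact le_of_mul_le_mul_right (h2.trans h1) hmR
    rw [hμl]
    push_cast
    have : 1 + ((k : ℝ) + 1) / 128 ≤ μ := by linarith
    exact mul_le_mul_of_nonneg_right this hlR.le

theorem admissible_log {n : ℕ} {x : ℝ} (hn : 1 ≤ n) (hadm : Admissible n x) :
    (n : ℝ) * Real.log n ≤ 600 * x := by
  have hnx : (n : ℝ) ≤ x := by
    have := admissible_le hadm
    have hn0 : (0 : ℝ) < n := by exact_mod_cast hn
    rcases le_total x 0 with h | h
    · rw [max_eq_right h] at this; linarith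
    · rwa [max_eq_left h] at this
  have hnR : (1 : ℝ) ≤ n := by exact_mod_cast hn
  have hl8 : Real.log 8 ≤ 2.08 := by
    have : Real.log 8 = 3 * Real.log 2 := by
      rw [show (8 : ℝ) = 2 ^ 3 by norm_num, Real.log_pow]; norm_num
    rw [this]
    have := Real.log_two_lt_d9
    linarith
  have hl80 : 0 < Real.log 8 := Real.log_pos (by norm_num)
  by_cases hsmall : n < 33
  · have h1 : Real.log n ≤ Real.log 64 := by
      apply Real.log_le_log (by linarith)
      have : (n : ℝ) ≤ 64 := by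
        have : n ≤ 64 := by omega
        exact_mod_cast this
      exact this
    have h2 : Real.log 64 = 2 * Real.log 8 := by
      rw [show (64 : ℝ) = 8 ^ 2 by norm_num, Real.log_pow]; norm_num
    have h3 : Real.log n ≤ 5 := by linarith
    have h4 : 0 ≤ Real.log n := Real.log_nonneg hnR
    nlinarith
  push Not at hsmall
  obtain ⟨a, hpos, hinc, hcol⟩ := hadm
  have hcol' : ∀ i j k, 1 ≤ i → i < j → j < k → k ≤ n →
      ¬ ((a j - a i) * ((k : ℤ) - i) = (a k - a i) * ((j : ℤ) - i)) := by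
    intro i j k h1 h2 h3 h4 h5
    exact hcol i j k h1 h2 h3 h4 ((collinear_iff_det i j k h2 _ _ _).2 h5)
  set M : ℕ := (n - 1) / 32 with hM
  have hM0 : M ≠ 0 := by omega
  set k : ℕ := Nat.log 8 M with hk
  have hk1 : 8 ^ k ≤ M := Nat.pow_log_le_self 8 hM0
  have hk2 : M < 8 ^ (k + 1) := Nat.lt_pow_succ_log_self (by norm_num) M
  have hslope := slope_lower hinc hcol' k 1 (n - 1) le_rfl (by omega) (by omega)
  have e1 : 1 + (n - 1) = n := by omega
  rw [e1] at hslope
  have ha1 : (0 : ℝ) < a 1 := by exact_mod_cast (hpos 1 le_rfl (by omega)).1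
  have han : (a n : ℝ) ≤ x := (hpos n (by omega) le_rfl).2
  have hx : (1 + (k : ℝ) / 128) * ((n - 1 : ℕ) : ℝ) ≤ x := by linarith
  have hn64 : n ≤ 64 * 8 ^ (k + 1) := by
    have : n - 1 < 32 * 8 ^ (k + 1) := by omega
    omega
  have hlogn : Real.log n ≤ ((k : ℝ) + 3) * Real.log 8 := by
    have h1 : (n : ℝ) ≤ (8 : ℝ) ^ (k + 3) := by
      have : n ≤ 8 ^ (k + 3) := by
        calc n ≤ 64 * 8 ^ (k + 1) := hn64
          _ = 8 ^ (k + 3) := by ring
      exact_mod_cast this
    calc Real.log n ≤ Real.log ((8 : ℝ) ^ (k + 3)) := Real.log_le_log (by linarith) h1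
      _ = ((k : ℝ) + 3) * Real.log 8 := by rw [Real.log_pow]; push_cast; ring
  have hn1 : (n : ℝ) ≤ 2 * ((n - 1 : ℕ) : ℝ) := by
    have : n ≤ 2 * (n - 1) := by omega
    exact_mod_cast this
  have hk0 : (0 : ℝ) ≤ k := by positivity
  have hlogn0 : 0 ≤ Real.log n := Real.log_nonneg hnR
  have hnn0 : (0 : ℝ) ≤ ((n - 1 : ℕ) : ℝ) := by positivity
  have hlog2 : Real.log n ≤ ((k : ℝ) + 3) * 2.08 := by
    refine hlogn.trans ?_
    apply mul_le_mul_of_nonneg_left hl8 (by linarith)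
  have h5 : ((k : ℝ) + 3) * ((n - 1 : ℕ) : ℝ) ≤ 128 * x := by
    have : ((k : ℝ) + 3) * ((n - 1 : ℕ) : ℝ) ≤ 128 * ((1 + (k : ℝ) / 128) * ((n - 1 : ℕ) : ℝ)) := by
      nlinarith
    linarith
  calc (n : ℝ) * Real.log n ≤ (2 * ((n - 1 : ℕ) : ℝ)) * (((k : ℝ) + 3) * 2.08) := by gcongr
    _ = 4.16 * (((k : ℝ) + 3) * ((n - 1 : ℕ) : ℝ)) := by ring
    _ ≤ 4.16 * (128 * x) := by gcongr
    _ ≤ 600 * x := by linarith

theorem upper_bound (x : ℝ) (hx : 2 ≤ x) : (N x : ℝ) ≤ 1200 * (x / Real.log x) := by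
  have hadm := N_admissible x
  have hN1 : 1 ≤ N x := le_N (admissible_one (by linarith))
  have h1 := admissible_log hN1 hadm
  have hlogx : 0 < Real.log x := Real.log_pos (by linarith)
  have hN1R : (1 : ℝ) ≤ N x := by exact_mod_cast hN1
  rw [mul_div_assoc', le_div_iff₀ hlogx]
  by_cases hcase : (N x : ℝ) ≤ Real.sqrt x
  · have h2 : Real.log x ≤ 2 * Real.sqrt x := by
      have := Real.log_le_rpow_div (show (0 : ℝ) ≤ x by linarith) (show (0 : ℝ) < 1 / 2 by norm_num)
      rw [← Real.sqrt_eq_rpow] at this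
      linarith
    have h3 : Real.sqrt x * Real.sqrt x = x := Real.mul_self_sqrt (by linarith)
    have h4 : 0 ≤ Real.sqrt x := Real.sqrt_nonneg x
    calc (N x : ℝ) * Real.log x ≤ Real.sqrt x * (2 * Real.sqrt x) := by gcongr
      _ = 2 * x := by linear_combination 2 * h3
      _ ≤ 1200 * x := by linarith
  · push Not at hcase
    have h2 : Real.log x ≤ 2 * Real.log (N x) := by
      have e1 : Real.log (Real.sqrt x) ≤ Real.log (N x) :=
        Real.log_le_log (Real.sqrt_pos.2 (by linarith)) hcase.le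
      rw [Real.log_sqrt (by linarith)] at e1
      linarith
    calc (N x : ℝ) * Real.log x ≤ (N x : ℝ) * (2 * Real.log (N x)) := by gcongr
      _ = 2 * ((N x : ℝ) * Real.log (N x)) := by ring
      _ ≤ 1200 * x := by linarith

end Pool.Agent.NTL
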