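import Pool.Agent.Hhelper37.UCLow

set_option autoImplicit false

open MeasureTheory ProbabilityTheory
open scoped ENNReal symmDiff

namespace Pool.Agent.UC

/-- sets determined by finitely many colours of the coordinates -/
def colSets (I X : Type) [MeasurableSpace X] : Set (Set (I → X)) :=
  {A | ∃ (C : Type) (_ : Finite C) (col : X → C) (_ : ∀ c, MeasurableSet (col ⁻¹' {c}))
    (G : Set (I → C)), A = {x | (fun i => col (x i)) ∈ G}}

theorem colSets_algebra (I X : Type) [MeasurableSpace X] : IsSetAlgebra (colSets I X) where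
  empty_mem := by
    refine ⟨Unit, inferInstance, fun _ => (), fun c => ?_, ∅, ?_⟩
    · have : (fun _ : X => ()) ⁻¹' {c} = Set.univ := by
        ext x; simp
      rw [this]
      exact MeasurableSet.univ
    · ext x; simp
  compl_mem := by
    rintro _ ⟨C, hC, col, hcol, G, rfl⟩
    refine ⟨C, hC, col, hcol, Gᶜ, ?_⟩
    ext x; simp
  union_mem := by
    rintro _ _ ⟨C, hC, col, hcol, G, rfl⟩ ⟨C', hC', col', hcol', G', rfl⟩
    refine ⟨C × C', inferInstance, fun x => (col x, col' x), ?_,
      {y | (fun i => (y i).1) ∈ G ∨ (fun i => (y i).2) ∈ G'}, ?_⟩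
    · rintro ⟨c, c'⟩
      have : (fun x => (col x, col' x)) ⁻¹' {(c, c')} = col ⁻¹' {c} ∩ col' ⁻¹' {c'} := by
        ext x; simp
      rw [this]
      exact (hcol c).inter (hcol' c')
    · ext x; simp

theorem colSets_measurable {I X : Type} [Finite I] [MeasurableSpace X] {A : Set (I → X)}
    (hA : A ∈ colSets I X) : MeasurableSet A := by
  obtain ⟨C, hC, col, hcol, G, rfl⟩ := hA
  have : {x : I → X | (fun i => col (x i)) ∈ G} = ⋃ y ∈ G, ⋂ i, {x | x i ∈ col ⁻¹' {y i}} := by
    ext x
    simp only [Set.mem_ofPred_eq, Set.mem_iUnion, Set.mem_iInter, Set.mem_preimage,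
      Set.mem_singleton_iff, exists_prop]
    constructor
    · intro h
      exact ⟨_, h, fun i => rfl⟩
    · rintro ⟨y, hy, h⟩
      have : (fun i => col (x i)) = y := funext h
      rwa [this]
  rw [this]
  apply MeasurableSet.biUnion (Set.to_countable G)
  intro y _
  exact MeasurableSet.iInter fun i => (measurable_pi_apply i) (hcol _)

theorem colSets_generate (I X : Type) [Finite I] [mX : MeasurableSpace X] :
    (MeasurableSpace.pi : MeasurableSpace (I → X)) = MeasurableSpace.generateFrom (colSets I X) := by
  apply le_antisymm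
  · apply iSup_le
    rintro i _ ⟨t, ht, rfl⟩
    apply MeasurableSpace.measurableSet_generateFrom
    classical
    refine ⟨Prop, inferInstance, fun x => x ∈ t, fun c => ?_, {y | y i}, ?_⟩
    · by_cases hc : c
      · have : (fun x : X => x ∈ t) ⁻¹' {c} = t := by
          ext x; simp [hc]
        rw [this]; exact ht
      · have : (fun x : X => x ∈ t) ⁻¹' {c} = tᶜ := by
          ext x; simp [hc]
        rw [this]; exact ht.compl
    · rfl
  · apply MeasurableSpace.generateFrom_le
    intro A hA
    exact colSets_measurable hA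

/-- Approximation of measurable sets by sets depending on finitely many colours. -/
theorem exists_approx {I X : Type} [Finite I] [MeasurableSpace X] (ν : Measure (I → X))
    [IsFiniteMeasure ν] (A : Set (I → X)) (hA : MeasurableSet A) (ε : ℝ) (hε : 0 < ε) :
    ∃ (C : Type) (_ : Finite C) (col : X → C) (_ : ∀ c, MeasurableSet (col ⁻¹' {c}))
      (G : Set (I → C)), MeasurableSet {x : I → X | (fun i => col (x i)) ∈ G} ∧
      ν.real (A ∆ {x | (fun i => col (x i)) ∈ G}) < ε := by
  obtain ⟨t, ht, hlt⟩ := (Measure.MeasureDense.of_generateFrom_isSetAlgebra_finite ν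
    (colSets_algebra I X) (colSets_generate I X)).approx A hA (measure_ne_top _ _) ε hε
  have htm := colSets_measurable ht
  obtain ⟨C, hC, col, hcol, G, rfl⟩ := ht
  refine ⟨C, hC, col, hcol, G, htm, ?_⟩
  unfold Measure.real
  exact (ENNReal.lt_ofReal_iff_toReal_lt (measure_ne_top _ _)).1 hlt

end Pool.Agent.UC
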