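import Pool.Agent.Hhelper37.UCDefs

set_option autoImplicit false

open MeasureTheory ProbabilityTheory FirstOrder FirstOrder.Language
open scoped ENNReal

namespace Pool.Agent.UC

/-! ### Pulling back coordinates along injections -/

theorem NE.map_injective {U V : Type} (s : U ↪ V) : Function.Injective (NE.map s) := by
  intro A B h
  apply Subtype.ext
  have := congrArg Subtype.val h
  exact Finset.map_injective s this

theorem NE.map_map {U V W : Type} (s : U ↪ V) (t : V ↪ W) (A : NE U) :
    NE.map t (NE.map s A) = NE.map (s.trans t) A := by
  apply Subtype.ext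
  simp [NE.map, Finset.map_map]

@[simp] theorem NE.map_val {U V : Type} (s : U ↪ V) (A : NE U) : (NE.map s A).1 = A.1.map s := rfl

/-- Pull back of coordinates along an injection. -/
def pull {X U V : Type} (s : U ↪ V) (θ : NE V → X) : NE U → X := fun A => θ (NE.map s A)

theorem pull_pull {X U V W : Type} (s : U ↪ V) (t : V ↪ W) (θ : NE W → X) :
    pull s (pull t θ) = pull (s.trans t) θ := by
  funext A
  simp [pull, NE.map_map]

/-- The i.i.d. law on `NE V → X`. -/
noncomputable def iid {X : Type} [MeasurableSpace X] (μ : Measure X) (V : Type) :
    Measure (NE V → X) := Measure.infinitePi (fun _ : NE V => μ)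

instance {X : Type} [MeasurableSpace X] (μ : Measure X) [IsProbabilityMeasure μ] (V : Type) :
    IsProbabilityMeasure (iid μ V) := by unfold iid; infer_instance

theorem coords_eq {X : Type} [MeasurableSpace X] (μ : Measure X) : coords μ = iid μ ℕ := rfl

theorem measurable_pull {X U V : Type} [MeasurableSpace X] (s : U ↪ V) :
    Measurable (pull s : (NE V → X) → (NE U → X)) := by
  unfold pull
  fun_prop

theorem map_pull {X U V : Type} [MeasurableSpace X] (μ : Measure X) [IsProbabilityMeasure μ]
    (s : U ↪ V) : (iid μ V).map (pull s) = iid μ U := by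
  unfold iid pull
  exact Measure.map_infinitePi_infinitePi_of_inj (P := fun _ : NE V => μ) (NE.map_injective s)

section

variable {L : FirstOrder.Language.{0, 0}} [L.IsRelational] {X : Type} [MeasurableSpace X]

/-- pull back of a structure along a map -/
@[reducible] def comapStr {U V : Type} (s : U → V) (S : L.Structure V) : L.Structure U where
  funMap := fun f => isEmptyElim f
  RelMap := fun {k} P x => S.RelMap P (s ∘ x)

theorem restr_eq (S : L.Structure ℕ) (m : ℕ) :
    restr S m = comapStr (fun i : Fin m => (i : ℕ)) S := rfl

theorem str_ext {U : Type} {S T : L.Structure U}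
    (h : ∀ (k : ℕ) (P : L.Relations k) (x : Fin k → U), S.RelMap P x ↔ T.RelMap P x) : S = T := by
  apply Structure.ext
  · funext k f
    exact isEmptyElim f
  · funext k P x
    exact propext (h k P x)

theorem comapStr_comapStr {U V W : Type} (s : U → V) (t : V → W) (S : L.Structure W) :
    comapStr s (comapStr t S) = comapStr (t ∘ s) S := rfl

theorem comapStr_str {U V : Type} (s : U ↪ V) (N : Peons L X) (θ : NE V → X) :
    comapStr s (N.str V θ) = N.str U (pull s θ) := by
  apply str_ext
  intro k P x
  constructor
  · rintro ⟨h, hx⟩
    have h' : Function.Injective x := fun a b hab => h (by simp [hab])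
    refine ⟨h', ?_⟩
    convert hx using 2
    unfold pull
    rw [NE.map_map]
    congr 1
  · rintro ⟨h, hx⟩
    have h' : Function.Injective (s ∘ x) := s.injective.comp h
    refine ⟨h', ?_⟩
    convert hx using 2
    unfold pull
    rw [NE.map_map]
    congr 1

/-- finite code of a structure -/
def strCode (U : Type) (S : L.Structure U) :
    (Σ p : (Σ k, L.Relations k), (Fin p.1 → U)) → Prop := fun q => S.RelMap q.1.2 q.2

theorem strCode_injective (U : Type) : Function.Injective (strCode (L := L) U) := by
  intro S T h
  apply str_ext
  intro k P x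
  have := congrFun h ⟨⟨k, P⟩, x⟩
  exact iff_of_eq this

instance finiteStr [Finite (Σ k, L.Relations k)] (U : Type) [Finite U] : Finite (L.Structure U) :=
  Finite.of_injective _ (strCode_injective U)

/-- the discrete sigma-algebra on structures -/
instance msStr (U : Type) : MeasurableSpace (L.Structure U) := ⊤

theorem measurable_relMap (N : Peons L X) (U : Type) {k : ℕ} (P : L.Relations k) (x : Fin k → U) :
    MeasurableSet {θ : NE U → X | (N.str U θ).RelMap P x} := by
  by_cases h : Function.Injective x
  · have : {θ : NE U → X | (N.str U θ).RelMap P x} = (pull ⟨x, h⟩) ⁻¹' (N.peon P) := by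
      ext θ
      constructor
      · rintro ⟨_, hx⟩
        exact hx
      · intro hx
        exact ⟨h, hx⟩
    rw [this]
    exact measurable_pull _ (N.measurableSet_peon P)
  · have : {θ : NE U → X | (N.str U θ).RelMap P x} = ∅ := by
      ext θ
      constructor
      · rintro ⟨h', _⟩
        exact absurd h' h
      · intro h'
        exact absurd h' (Set.notMem_empty _)
    rw [this]
    exact MeasurableSet.empty

theorem measurable_str [Finite (Σ k, L.Relations k)] (N : Peons L X) (U : Type) [Finite U] :
    Measurable (N.str U) := by
  have : Countable (L.Structure U) := Finite.to_countable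
  apply measurable_to_countable'
  intro M
  have : N.str U ⁻¹' {M} = ⋂ q : (Σ p : (Σ k, L.Relations k), (Fin p.1 → U)),
      {θ : NE U → X | (N.str U θ).RelMap q.1.2 q.2 ↔ M.RelMap q.1.2 q.2} := by
    ext θ
    simp only [Set.mem_preimage, Set.mem_singleton_iff, Set.mem_iInter]
    constructor
    · intro h q
      change _ ↔ _
      rw [h]
    · intro h
      apply str_ext
      intro k P x
      exact h ⟨⟨k, P⟩, x⟩
  rw [this]
  apply MeasurableSet.iInter
  intro q
  by_cases hM : M.RelMap q.1.2 q.2
  · have h2 : {θ : NE U → X | (N.str U θ).RelMap q.1.2 q.2 ↔ M.RelMap q.1.2 q.2}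
        = {θ : NE U → X | (N.str U θ).RelMap q.1.2 q.2} := by
      ext θ
      exact iff_true_right hM
    rw [h2]
    exact measurable_relMap N U _ _
  · have h2 : {θ : NE U → X | (N.str U θ).RelMap q.1.2 q.2 ↔ M.RelMap q.1.2 q.2}
        = {θ : NE U → X | (N.str U θ).RelMap q.1.2 q.2}ᶜ := by
      ext θ
      exact iff_false_right hM
    rw [h2]
    exact (measurable_relMap N U _ _).compl

/-- The labelled law of the random structure on `U`. -/
noncomputable def Peons.law (N : Peons L X) (μ : Measure X) (U : Type) : Measure (L.Structure U) :=
  (iid μ U).map (N.str U)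

instance Peons.law_prob [Finite (Σ k, L.Relations k)] (N : Peons L X) (μ : Measure X)
    [IsProbabilityMeasure μ] (U : Type) [Finite U] : IsProbabilityMeasure (N.law μ U) := by
  unfold Peons.law
  exact Measure.isProbabilityMeasure_map (measurable_str N U).aemeasurable

theorem law_comap [Finite (Σ k, L.Relations k)] (N : Peons L X) (μ : Measure X)
    [IsProbabilityMeasure μ] {U V : Type} [Finite U] [Finite V] (s : U ↪ V) :
    (N.law μ V).map (comapStr s) = N.law μ U := by
  unfold Peons.law
  rw [Measure.map_map (measurable_of_countable _) (measurable_str N V)]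
  have : comapStr s ∘ N.str V = N.str U ∘ pull s := by
    funext θ
    exact comapStr_str s N θ
  rw [this, ← Measure.map_map (measurable_str N U) (measurable_pull s), map_pull]

end

end Pool.Agent.UC
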