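import Mathlib

/-!
Definitions for the problem on unique coupleability and rank (MP_ae8f8e_co).

* A theory is a universal first-order theory `T : L.Theory` (Mathlib) in a relational language `L`
  with finitely many predicate symbols.  Predicates are evaluated only on tuples of distinct
  elements: in the random structure below a predicate is false on a non-injective tuple.
* `TOn T` is the type of all `T`-ons over all probability spaces.
* `Limit L` is the type of functions on finite `L`-structures; `N.limit` is `φ_N`.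
-/

set_option autoImplicit false

open MeasureTheory FirstOrder FirstOrder.Language
open scoped ENNReal

namespace Pool.Agent.UC

/-- Nonempty finite subsets of `V`; `NE (Fin k)` is the index set `r(k)`. -/
abbrev NE (V : Type) : Type := {A : Finset V // A.Nonempty}

/-- The image of a nonempty finite set under an injection. -/
def NE.map {U V : Type} (s : U ↪ V) (A : NE U) : NE V := ⟨A.1.map s, A.2.map⟩

/-- A family of measurable peons `N_P ⊆ E_k(X) = X^{r(k)}`, one for each predicate symbol `P`
of the language `L` (of arity `k`). -/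
structure Peons (L : FirstOrder.Language.{0, 0}) (X : Type) [MeasurableSpace X] where
  /-- the peon of a predicate symbol -/
  peon : ∀ {k : ℕ}, L.Relations k → Set (NE (Fin k) → X)
  /-- peons are measurable -/
  measurableSet_peon : ∀ {k : ℕ} (P : L.Relations k), MeasurableSet (peon P)

section

variable {L : FirstOrder.Language.{0, 0}} [L.IsRelational] {X : Type} [MeasurableSpace X]

/-- The `L`-structure on `V` read off from the coordinates `θ_A`: for an injective tuple `x`,
`P(x)` holds iff `(θ_{x(B)})_{B ∈ r(k)}` lies in the peon of `P`; it is false for a non-injective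
tuple. -/
@[reducible] def Peons.str (N : Peons L X) (V : Type) (θ : NE V → X) : L.Structure V where
  funMap := fun f => isEmptyElim f
  RelMap := fun {k} P x => ∃ h : Function.Injective x, (fun B : NE (Fin k) => θ (NE.map ⟨x, h⟩ B)) ∈ N.peon P

/-- The restriction of a structure on `ℕ` to its first `m` elements. -/
@[reducible] def restr (S : L.Structure ℕ) (m : ℕ) : L.Structure (Fin m) where
  funMap := fun f => isEmptyElim f
  RelMap := fun {k} P x => S.RelMap P (fun i : Fin k => ((x i : Fin m) : ℕ))

/-- The law of the i.i.d. coordinates `(θ_A)`, indexed by all finite nonempty `A ⊆ ℕ`. -/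
noncomputable def coords (μ : Measure X) : Measure (NE ℕ → X) :=
  Measure.infinitePi (fun _ : NE ℕ => μ)

end

/-- Limit objects are recorded as functions on finite structures. -/
abbrev Limit (L : FirstOrder.Language.{0, 0}) : Type := ∀ m : ℕ, L.Structure (Fin m) → ℝ≥0∞

section

variable {L : FirstOrder.Language.{0, 0}} [L.IsRelational] {X : Type} [MeasurableSpace X]

/-- `φ_N(M) = Pr[K|_[m] ≅ M]`, where `K` is the random structure on `ℕ`. -/
noncomputable def Peons.limit (N : Peons L X) (μ : Measure X) : Limit L :=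
  fun m M => coords μ {θ | Nonempty (@FirstOrder.Language.Equiv L (Fin m) (Fin m) (restr (N.str ℕ θ) m) M)}

end

/-- A `T`-on: a family of measurable peons over a probability space such that the random structure
`K` on `ℕ` is almost surely a model of `T`. -/
structure TOn {L : FirstOrder.Language.{0, 0}} [L.IsRelational] (T : L.Theory) where
  /-- the underlying set of the probability space -/
  X : Type
  /-- its sigma-algebra -/
  mX : MeasurableSpace X
  /-- its probability measure -/
  μ : Measure X
  prob : IsProbabilityMeasure μ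
  /-- the peons -/
  peons : Peons L X
  ae_model : ∀ᵐ θ ∂(coords μ), @Theory.Model L ℕ (peons.str ℕ θ) T

attribute [instance] TOn.mX TOn.prob

/-- `φ_N` for a `T`-on `N`. -/
noncomputable def TOn.limit {L : FirstOrder.Language.{0, 0}} [L.IsRelational] {T : L.Theory} (N : TOn T) :
    Limit L := N.peons.limit N.μ

/-- `Hom⁺(T)`. -/
def HomPlus {L : FirstOrder.Language.{0, 0}} [L.IsRelational] (T : L.Theory) : Set (Limit L) :=
  {φ | ∃ N : TOn T, N.limit = φ}

/-- All peons have rank at most `r`: each is of the form `G × X^{B : |B| > r}`. -/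
def Peons.RankLE {L : FirstOrder.Language.{0, 0}} {X : Type} [MeasurableSpace X] (N : Peons L X) (r : ℕ) :
    Prop :=
  ∀ (k : ℕ) (P : L.Relations k), ∃ G : Set ({B : NE (Fin k) // B.1.card ≤ r} → X),
    N.peon P = {x | (fun B : {B : NE (Fin k) // B.1.card ≤ r} => x B.1) ∈ G}

/-- `rk(φ) ≤ r`: some `T`-on of rank at most `r` represents `φ`. -/
def RkLE {L : FirstOrder.Language.{0, 0}} [L.IsRelational] (T : L.Theory) (φ : Limit L) (r : ℕ) : Prop :=
  ∃ N : TOn T, N.limit = φ ∧ N.peons.RankLE r

section

variable {L₁ L₂ : FirstOrder.Language.{0, 0}}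

/-- The theory `T₁ ∪ T₂` in the disjoint union of the two languages. -/
def unionTheory (T₁ : L₁.Theory) (T₂ : L₂.Theory) : (L₁.sum L₂).Theory :=
  (LHom.sumInl : L₁ →ᴸ L₁.sum L₂).onTheory T₁ ∪ (LHom.sumInr : L₂ →ᴸ L₁.sum L₂).onTheory T₂

/-- The reduct of a family of peons to the first language. -/
def Peons.reductL {X : Type} [MeasurableSpace X] (N : Peons (L₁.sum L₂) X) : Peons L₁ X where
  peon := fun {k} P => N.peon (k := k) (Sum.inl P)
  measurableSet_peon := fun {k} P => N.measurableSet_peon (k := k) (Sum.inl P)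

/-- The reduct of a family of peons to the second language. -/
def Peons.reductR {X : Type} [MeasurableSpace X] (N : Peons (L₁.sum L₂) X) : Peons L₂ X where
  peon := fun {k} P => N.peon (k := k) (Sum.inr P)
  measurableSet_peon := fun {k} P => N.measurableSet_peon (k := k) (Sum.inr P)

/-- `N₁ ⊗ N₂`, over the product space: the peon of a predicate symbol of `L_i` is the preimage of
its peon in `N_i` under the projection to the `i`-th factor. -/
def Peons.tensor {X₁ X₂ : Type} [MeasurableSpace X₁] [MeasurableSpace X₂]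
    (N₁ : Peons L₁ X₁) (N₂ : Peons L₂ X₂) : Peons (L₁.sum L₂) (X₁ × X₂) where
  peon := fun {k} P => match P with
    | Sum.inl P => {x : NE (Fin k) → X₁ × X₂ | (fun B => (x B).1) ∈ N₁.peon P}
    | Sum.inr P => {x : NE (Fin k) → X₁ × X₂ | (fun B => (x B).2) ∈ N₂.peon P}
  measurableSet_peon := fun {k} P => by
    rcases P with P | P
    · exact (measurable_pi_lambda _ fun B => (measurable_pi_apply B).fst) (N₁.measurableSet_peon P)
    · exact (measurable_pi_lambda _ fun B => (measurable_pi_apply B).snd) (N₂.measurableSet_peon P)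

variable [L₁.IsRelational] [L₂.IsRelational]

/-- `ξ` is a coupling of `φ₁` and `φ₂`: it lies in `Hom⁺(T₁ ∪ T₂)` and its reducts are `φ₁`, `φ₂`. -/
def IsCoupling (T₁ : L₁.Theory) (T₂ : L₂.Theory) (φ₁ : Limit L₁) (φ₂ : Limit L₂)
    (ξ : Limit (L₁.sum L₂)) : Prop :=
  ∃ N : TOn (unionTheory T₁ T₂), N.limit = ξ ∧
    N.peons.reductL.limit N.μ = φ₁ ∧ N.peons.reductR.limit N.μ = φ₂

/-- `φ₁` and `φ₂` are uniquely coupleable: every coupling is the independent coupling
`φ₁ ⊗ φ₂ = φ_{N₁ ⊗ N₂}` (for all `T_i`-ons `N_i` representing `φ_i`). -/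
def UniquelyCoupleable (T₁ : L₁.Theory) (T₂ : L₂.Theory) (φ₁ : Limit L₁) (φ₂ : Limit L₂) : Prop :=
  ∀ ξ : Limit (L₁.sum L₂), IsCoupling T₁ T₂ φ₁ φ₂ ξ →
    ∀ (N₁ : TOn T₁) (N₂ : TOn T₂), N₁.limit = φ₁ → N₂.limit = φ₂ →
      ξ = (N₁.peons.tensor N₂.peons).limit (N₁.μ.prod N₂.μ)

end

/-- `φ ∈ UCouple[ℓ]`: `φ` and `ψ` are uniquely coupleable for every theory `T'` and every
`ψ ∈ Hom⁺(T')` with `rk(ψ) ≤ ℓ`. -/
def UCouple (ℓ : ℕ) {L : FirstOrder.Language.{0, 0}} [L.IsRelational] (T : L.Theory) (φ : Limit L) : Prop :=
  ∀ (L' : FirstOrder.Language.{0, 0}) [L'.IsRelational] [Finite (Σ k, L'.Relations k)]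
    (T' : L'.Theory) [T'.IsUniversal] (ψ : Limit L'),
    ψ ∈ HomPlus T' → RkLE T' ψ ℓ → UniquelyCoupleable T T' φ ψ

end Pool.Agent.UC
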