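import Pool.Agent.Hhelper37.UCTensor

set_option autoImplicit false

open MeasureTheory ProbabilityTheory
open scoped ENNReal

namespace Pool.Agent.UC

/-! ### A family of `q^(ℓ+1)` injections with small pairwise intersections -/

/-- evaluation of the polynomial with coefficients `a` at `i` -/
def pev (ℓ q : ℕ) (a : Fin (ℓ + 1) → Fin q) (i : ℕ) : ℕ := ∑ j : Fin (ℓ + 1), (a j : ℕ) * i ^ (j : ℕ)

/-- the constant `D` -/
def DD (ℓ m : ℕ) : ℕ := m * ((ℓ + 1) * m ^ ℓ)

theorem pev_lt {ℓ q m : ℕ} (a : Fin (ℓ + 1) → Fin q) {i : ℕ} (hi : i < m) :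
    m * pev ℓ q a i + i < DD ℓ m * q := by
  have hq : 0 < q := lt_of_le_of_lt (Nat.zero_le _) (a 0).isLt
  have hm : 1 ≤ m := by omega
  have h1 : pev ℓ q a i ≤ (q - 1) * ((ℓ + 1) * m ^ ℓ) := by
    unfold pev
    calc ∑ j : Fin (ℓ + 1), (a j : ℕ) * i ^ (j : ℕ)
        ≤ ∑ j : Fin (ℓ + 1), (q - 1) * m ^ ℓ := by
          apply Finset.sum_le_sum
          intro j _
          apply Nat.mul_le_mul
          · have := (a j).isLt; omega
          · calc i ^ (j : ℕ) ≤ m ^ (j : ℕ) := Nat.pow_le_pow_left hi.le _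
              _ ≤ m ^ ℓ := Nat.pow_le_pow_right hm (by have := j.isLt; omega)
      _ = (q - 1) * ((ℓ + 1) * m ^ ℓ) := by
          rw [Finset.sum_const, Finset.card_univ, Fintype.card_fin, smul_eq_mul]; ring
  have h2 : 1 ≤ (ℓ + 1) * m ^ ℓ := by
    have : 0 < m ^ ℓ := Nat.pow_pos hm
    nlinarith
  unfold DD
  have h3 : (q - 1) * ((ℓ + 1) * m ^ ℓ) + (ℓ + 1) * m ^ ℓ = q * ((ℓ + 1) * m ^ ℓ) := by
    obtain ⟨q', rfl⟩ : ∃ q', q = q' + 1 := ⟨q - 1, by omega⟩
    simp only [Nat.add_sub_cancel]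
    ring
  calc m * pev ℓ q a i + i < m * pev ℓ q a i + m := by omega
    _ = m * (pev ℓ q a i + 1) := by ring
    _ ≤ m * (q * ((ℓ + 1) * m ^ ℓ)) := by
        apply Nat.mul_le_mul_left
        omega
    _ = m * ((ℓ + 1) * m ^ ℓ) * q := by ring

/-- the injection attached to the coefficient vector `a` -/
def inj (ℓ q m : ℕ) (a : Fin (ℓ + 1) → Fin q) : Fin m ↪ Fin (DD ℓ m * q) where
  toFun := fun i => ⟨m * pev ℓ q a i + i, pev_lt a i.isLt⟩
  inj' := by
    intro i j h
    simp only [Fin.mk.injEq] at h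
    have hi := i.isLt
    have hj := j.isLt
    have h1 : (m * pev ℓ q a i + i) % m = i := by
      rw [Nat.mul_add_mod]; exact Nat.mod_eq_of_lt hi
    have h2 : (m * pev ℓ q a j + j) % m = j := by
      rw [Nat.mul_add_mod]; exact Nat.mod_eq_of_lt hj
    apply Fin.ext
    rw [← h1, ← h2, h]

theorem inj_apply_eq {ℓ q m : ℕ} {a b : Fin (ℓ + 1) → Fin q} {i j : Fin m}
    (h : inj ℓ q m a i = inj ℓ q m b j) : i = j ∧ pev ℓ q a i = pev ℓ q b i := by
  have h' : m * pev ℓ q a i + i = m * pev ℓ q b j + j := by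
    have := congrArg Fin.val h
    exact this
  have hi := i.isLt
  have hj := j.isLt
  have h1 : (m * pev ℓ q a i + i) % m = i := by
    rw [Nat.mul_add_mod]; exact Nat.mod_eq_of_lt hi
  have h2 : (m * pev ℓ q b j + j) % m = j := by
    rw [Nat.mul_add_mod]; exact Nat.mod_eq_of_lt hj
  have hij : i = j := by
    apply Fin.ext
    rw [← h1, ← h2, h']
  subst hij
  refine ⟨rfl, ?_⟩
  have hm : 0 < m := by omega
  have : m * pev ℓ q a i = m * pev ℓ q b i := by omega
  exact Nat.eq_of_mul_eq_mul_left hm this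

open Polynomial in
theorem card_le_of_agree {ℓ q m : ℕ} {a b : Fin (ℓ + 1) → Fin q} (hab : a ≠ b)
    (B : Finset (Fin m)) (hB : ∀ i ∈ B, pev ℓ q a (i : Fin m) = pev ℓ q b (i : Fin m)) :
    B.card ≤ ℓ := by
  classical
  let p : ℤ[X] := ∑ j : Fin (ℓ + 1), Polynomial.C (((a j : ℕ) : ℤ) - ((b j : ℕ) : ℤ)) * Polynomial.X ^ (j : ℕ)
  have hcoeff : ∀ j : Fin (ℓ + 1), p.coeff (j : ℕ) = ((a j : ℕ) : ℤ) - ((b j : ℕ) : ℤ) := by
    intro j
    simp only [p, Polynomial.finsetSum_coeff, Polynomial.coeff_C_mul, Polynomial.coeff_X_pow]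
    rw [Finset.sum_eq_single j]
    · simp
    · intro j' _ hj'
      have : (j : ℕ) ≠ (j' : ℕ) := fun h => hj' (Fin.ext h.symm)
      simp [this]
    · simp
  have hp : p ≠ 0 := by
    intro h0
    apply hab
    funext j
    have := hcoeff j
    rw [h0, Polynomial.coeff_zero] at this
    apply Fin.ext
    omega
  have hdeg : p.natDegree ≤ ℓ := by
    apply Polynomial.natDegree_sum_le_of_forall_le
    intro j _
    refine (Polynomial.natDegree_C_mul_X_pow_le _ _).trans ?_
    have := j.isLt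
    omega
  have hroot : ∀ i ∈ B, ((i : ℕ) : ℤ) ∈ p.roots := by
    intro i hi
    rw [Polynomial.mem_roots hp, Polynomial.IsRoot.def]
    have h := hB i hi
    simp only [p, Polynomial.eval_finsetSum, Polynomial.eval_mul, Polynomial.eval_C,
      Polynomial.eval_pow, Polynomial.eval_X]
    unfold pev at h
    have h' : (∑ j : Fin (ℓ + 1), ((a j : ℕ) : ℤ) * ((i : ℕ) : ℤ) ^ (j : ℕ))
        = ∑ j : Fin (ℓ + 1), ((b j : ℕ) : ℤ) * ((i : ℕ) : ℤ) ^ (j : ℕ) := by
      exact_mod_cast h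
    simp only [sub_mul, Finset.sum_sub_distrib]
    rw [h', sub_self]
  let g : Fin m ↪ ℤ := ⟨fun i => ((i : ℕ) : ℤ), fun i j h => Fin.ext (by simpa using h)⟩
  have hsub : B.map g ⊆ p.roots.toFinset := by
    intro x hx
    rw [Finset.mem_map] at hx
    obtain ⟨i, hi, rfl⟩ := hx
    rw [Multiset.mem_toFinset]
    exact hroot i hi
  calc B.card = (B.map g).card := (Finset.card_map g).symm
    _ ≤ p.roots.toFinset.card := Finset.card_le_card hsub
    _ ≤ Multiset.card p.roots := Multiset.toFinset_card_le _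
    _ ≤ p.natDegree := Polynomial.card_roots' p
    _ ≤ ℓ := hdeg

/-- index sets of size more than `ℓ` -/
abbrev Up (ℓ : ℕ) (V : Type) : Type := {B : NE V // ℓ < B.1.card}

/-- index sets of size at most `ℓ` -/
abbrev Low (ℓ : ℕ) (V : Type) : Type := {B : NE V // B.1.card ≤ ℓ}

theorem up_injective (ℓ q m : ℕ) :
    Function.Injective (fun p : (Fin (ℓ + 1) → Fin q) × Up ℓ (Fin m) =>
      NE.map (inj ℓ q m p.1) p.2.1) := by
  rintro ⟨a, B⟩ ⟨b, B'⟩ h
  simp only at h
  have h' : B.1.1.map (inj ℓ q m a) = B'.1.1.map (inj ℓ q m b) := congrArg Subtype.val h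
  have hmem : ∀ i ∈ B.1.1, ∃ j ∈ B'.1.1, inj ℓ q m b j = inj ℓ q m a i := by
    intro i hi
    have : inj ℓ q m a i ∈ B'.1.1.map (inj ℓ q m b) := by
      rw [← h']
      exact Finset.mem_map_of_mem _ hi
    rw [Finset.mem_map] at this
    exact this
  by_cases hab : a = b
  · subst hab
    have : B.1 = B'.1 := NE.map_injective _ h
    have : B = B' := Subtype.ext this
    rw [this]
  · exfalso
    have : B.1.1.card ≤ ℓ := by
      apply card_le_of_agree hab
      intro i hi
      obtain ⟨j, hj, hij⟩ := hmem i hi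
      exact (inj_apply_eq hij.symm).2
    have := B.2
    omega

/-- Lower index sets are few. -/
theorem card_low (ℓ n : ℕ) : Nat.card (Low ℓ (Fin n)) ≤ n ^ ℓ := by
  classical
  have : Finite (Low ℓ (Fin n)) := inferInstance
  let f : (Fin ℓ → Fin n) → Option (Low ℓ (Fin n)) := fun x =>
    if h : (Finset.univ.image x).Nonempty then
      some ⟨⟨Finset.univ.image x, h⟩, by
        refine Finset.card_image_le.trans ?_
        simp⟩
    else none
  have hsurj : ∀ B : Low ℓ (Fin n), ∃ x, f x = some B := by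
    intro B
    have hpos : 0 < B.1.1.card := Finset.card_pos.2 B.1.2
    have hle : B.1.1.card ≤ ℓ := B.2
    let e := B.1.1.orderEmbOfFin rfl
    let x : Fin ℓ → Fin n := fun i =>
      if h : (i : ℕ) < B.1.1.card then e ⟨i, h⟩ else e ⟨0, hpos⟩
    have himg : Finset.univ.image x = B.1.1 := by
      ext y
      simp only [Finset.mem_image, Finset.mem_univ, true_and]
      constructor
      · rintro ⟨i, rfl⟩
        by_cases h : (i : ℕ) < B.1.1.card
        · simp only [x, h, dif_pos]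
          exact Finset.orderEmbOfFin_mem _ _ _
        · simp only [x, h, dif_neg, not_false_eq_true]
          exact Finset.orderEmbOfFin_mem _ _ _
      · intro hy
        have : y ∈ Set.range e := by
          rw [Finset.range_orderEmbOfFin]; exact hy
        obtain ⟨j, rfl⟩ := this
        refine ⟨⟨j, lt_of_lt_of_le j.isLt hle⟩, ?_⟩
        simp only [x, j.isLt, dif_pos]
    refine ⟨x, ?_⟩
    have hne : (Finset.univ.image x).Nonempty := by rw [himg]; exact B.1.2
    simp only [f, dif_pos hne]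
    congr 1
    apply Subtype.ext
    apply Subtype.ext
    exact himg
  choose g hg using hsurj
  have hginj : Function.Injective g := by
    intro B B' h
    have h1 := hg B
    rw [h, hg B'] at h1
    exact (Option.some_injective _ h1).symm
  calc Nat.card (Low ℓ (Fin n)) ≤ Nat.card (Fin ℓ → Fin n) := Nat.card_le_card_of_injective g hginj
    _ = n ^ ℓ := by simp

/-- the upper coordinates seen through an injection -/
def upc {X : Type} {ℓ : ℕ} {U V : Type} (s : U ↪ V) (θ : NE V → X) : Up ℓ U → X :=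
  fun B => θ (NE.map s B.1)

/-- law of the upper coordinates -/
noncomputable def upLaw {X : Type} [MeasurableSpace X] (μ : Measure X) (ℓ : ℕ) (U : Type) :
    Measure (Up ℓ U → X) := Measure.infinitePi (fun _ : Up ℓ U => μ)

instance {X : Type} [MeasurableSpace X] (μ : Measure X) [IsProbabilityMeasure μ] (ℓ : ℕ) (U : Type) :
    IsProbabilityMeasure (upLaw μ ℓ U) := by unfold upLaw; infer_instance

theorem map_upc {X : Type} [MeasurableSpace X] (μ : Measure X) [IsProbabilityMeasure μ]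
    {ℓ : ℕ} {U V : Type} (s : U ↪ V) :
    (iid μ V).map (upc (ℓ := ℓ) s) = upLaw μ ℓ U := by
  unfold iid upc upLaw
  exact Measure.map_infinitePi_infinitePi_of_inj (P := fun _ : NE V => μ)
    (f := fun B : Up ℓ U => NE.map s B.1)
    (fun B B' h => Subtype.ext (NE.map_injective s h))

/-- The blocks of upper coordinates are independent. -/
theorem map_blocks {X : Type} [MeasurableSpace X] (μ : Measure X) [IsProbabilityMeasure μ]
    (ℓ q m : ℕ) :
    (iid μ (Fin (DD ℓ m * q))).map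
      (fun θ (a : Fin (ℓ + 1) → Fin q) => upc (ℓ := ℓ) (inj ℓ q m a) θ)
      = Measure.infinitePi (fun _ : Fin (ℓ + 1) → Fin q => upLaw μ ℓ (Fin m)) := by
  unfold iid upLaw
  rw [← Measure.infinitePi_map_curry (fun (_ : Fin (ℓ + 1) → Fin q) (_ : Up ℓ (Fin m)) => μ)]
  have h := Measure.map_infinitePi_infinitePi_of_inj (P := fun _ : NE (Fin (DD ℓ m * q)) => μ)
    (up_injective ℓ q m)
  rw [← h, Measure.map_map]
  · rfl
  · exact (MeasurableEquiv.measurable _)
  · fun_prop

/-- Exponential moment bound for a weighted sum of independent centred block functions. -/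
theorem exp_moment {X : Type} [MeasurableSpace X] (μ : Measure X) [IsProbabilityMeasure μ]
    (ℓ q m : ℕ) (f : (Up ℓ (Fin m) → X) → ℝ) (hf : Measurable f) (hf1 : ∀ y, |f y| ≤ 1)
    (hf0 : ∫ y, f y ∂(upLaw μ ℓ (Fin m)) = 0) (w : (Fin (ℓ + 1) → Fin q) → ℝ)
    (hw : ∀ a, |w a| ≤ 1) (lam : ℝ) (hl0 : 0 ≤ lam) (hl1 : lam ≤ 1) :
    ∫ θ, Real.exp (lam * ∑ a : Fin (ℓ + 1) → Fin q, w a * f (upc (inj ℓ q m a) θ))
      ∂(iid μ (Fin (DD ℓ m * q))) ≤ Real.exp (lam ^ 2 * (q : ℝ) ^ (ℓ + 1)) := by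
  have hmeasblock : Measurable (fun (θ : NE (Fin (DD ℓ m * q)) → X) (a : Fin (ℓ + 1) → Fin q) =>
      upc (ℓ := ℓ) (inj ℓ q m a) θ) := by
    unfold upc
    fun_prop
  have h1 : ∫ θ, Real.exp (lam * ∑ a : Fin (ℓ + 1) → Fin q, w a * f (upc (inj ℓ q m a) θ))
      ∂(iid μ (Fin (DD ℓ m * q))) =
      ∫ y, ∏ a : Fin (ℓ + 1) → Fin q, Real.exp (lam * (w a * f (y a)))
        ∂(Measure.pi (fun _ : Fin (ℓ + 1) → Fin q => upLaw μ ℓ (Fin m))) := by
    rw [← Measure.infinitePi_eq_pi, ← map_blocks μ ℓ q m, integral_map hmeasblock.aemeasurable]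
    · apply integral_congr_ae
      filter_upwards with θ
      rw [← Real.exp_sum, Finset.mul_sum]
    · apply Measurable.aestronglyMeasurable
      fun_prop
  rw [h1, integral_fintype_prod_eq_prod (f := fun a y => Real.exp (lam * (w a * f y)))]
  have h2 : ∀ a, ∫ y, Real.exp (lam * (w a * f y)) ∂(upLaw μ ℓ (Fin m)) ≤ Real.exp (lam ^ 2) := by
    intro a
    have hb : ∀ y, Real.exp (lam * (w a * f y)) ≤ 1 + lam * w a * f y + lam ^ 2 := by
      intro y
      have habs : |lam * (w a * f y)| ≤ lam := by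
        rw [abs_mul, abs_mul, abs_of_nonneg hl0]
        have : |w a| * |f y| ≤ 1 * 1 := mul_le_mul (hw a) (hf1 y) (abs_nonneg _) zero_le_one
        nlinarith
      have h3 := Real.abs_exp_sub_one_sub_id_le (habs.trans hl1)
      have h4 := (abs_le.1 h3).2
      have h5 : (lam * (w a * f y)) ^ 2 ≤ lam ^ 2 := by
        rw [← sq_abs]
        exact pow_le_pow_left₀ (abs_nonneg _) habs 2
      nlinarith
    have hint : Integrable f (upLaw μ ℓ (Fin m)) :=
      Integrable.of_bound hf.aestronglyMeasurable 1 (Filter.Eventually.of_forall fun y => by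
        simpa using hf1 y)
    have hint2 : Integrable (fun y => lam * w a * f y) (upLaw μ ℓ (Fin m)) := hint.const_mul _
    have hint3 : Integrable (fun _ : Up ℓ (Fin m) → X => 1 + lam ^ 2) (upLaw μ ℓ (Fin m)) :=
      integrable_const _
    calc ∫ y, Real.exp (lam * (w a * f y)) ∂(upLaw μ ℓ (Fin m))
        ≤ ∫ y, ((1 + lam ^ 2) + lam * w a * f y) ∂(upLaw μ ℓ (Fin m)) := by
          apply integral_mono_of_nonneg
          · exact Filter.Eventually.of_forall fun y => (Real.exp_pos _).le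
          · exact hint3.add hint2
          · refine Filter.Eventually.of_forall fun y => ?_
            have := hb y
            simp only at this ⊢
            linarith
      _ = 1 + lam ^ 2 := by
          rw [integral_add hint3 hint2, integral_const_mul, hf0]
          simp
      _ ≤ Real.exp (lam ^ 2) := by
          have := Real.add_one_le_exp (lam ^ 2)
          linarith
  calc ∏ a : Fin (ℓ + 1) → Fin q, ∫ y, Real.exp (lam * (w a * f y)) ∂(upLaw μ ℓ (Fin m))
      ≤ ∏ _a : Fin (ℓ + 1) → Fin q, Real.exp (lam ^ 2) := by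
        apply Finset.prod_le_prod
        · intro a _
          exact integral_nonneg fun y => (Real.exp_pos _).le
        · intro a _
          exact h2 a
    _ = Real.exp (lam ^ 2 * (q : ℝ) ^ (ℓ + 1)) := by
        rw [Finset.prod_const, Finset.card_univ, Fintype.card_fun, Fintype.card_fin,
          Fintype.card_fin, ← Real.exp_nat_mul]
        congr 1
        push_cast
        ring

/-- The final numerical contradiction. -/
theorem numeric_contra (ℓ D : ℕ) (C0 δ : ℝ) (hδ : 0 < δ)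
    (h : ∀ q : ℕ, ∀ lam : ℝ, 0 < lam → lam ≤ 1 →
      lam * (δ * (q : ℝ) ^ (ℓ + 1)) ≤ C0 * ((D * q : ℕ) : ℝ) ^ ℓ + lam ^ 2 * (q : ℝ) ^ (ℓ + 1)) :
    False := by
  let lam := min 1 (δ / 2)
  have hl0 : 0 < lam := lt_min one_pos (by linarith)
  have hl1 : lam ≤ 1 := min_le_left _ _
  have hl2 : lam ≤ δ / 2 := min_le_right _ _
  obtain ⟨q, hq⟩ := exists_nat_gt ((C0 * (D : ℝ) ^ ℓ) / (lam * (δ / 2)))
  have hq' : C0 * (D : ℝ) ^ ℓ < q * (lam * (δ / 2)) := by
    rwa [div_lt_iff₀ (by positivity)] at hq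
  have h1 := h (q + 1) lam hl0 hl1
  have hqpos : (0 : ℝ) < ((q + 1 : ℕ) : ℝ) ^ ℓ := by positivity
  have h2 : lam * (δ / 2) * ((q + 1 : ℕ) : ℝ) ^ (ℓ + 1) ≤ C0 * (D : ℝ) ^ ℓ * ((q + 1 : ℕ) : ℝ) ^ ℓ := by
    have h3 : ((D * (q + 1) : ℕ) : ℝ) ^ ℓ = (D : ℝ) ^ ℓ * ((q + 1 : ℕ) : ℝ) ^ ℓ := by
      push_cast; rw [mul_pow]
    rw [h3] at h1
    have h4 : lam ^ 2 * ((q + 1 : ℕ) : ℝ) ^ (ℓ + 1) ≤ lam * (δ / 2) * ((q + 1 : ℕ) : ℝ) ^ (ℓ + 1) := by
      apply mul_le_mul_of_nonneg_right _ (by positivity)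
      nlinarith
    nlinarith
  have h5 : lam * (δ / 2) * ((q + 1 : ℕ) : ℝ) ≤ C0 * (D : ℝ) ^ ℓ := by
    rw [pow_succ] at h2
    have : (lam * (δ / 2) * ((q + 1 : ℕ) : ℝ)) * ((q + 1 : ℕ) : ℝ) ^ ℓ ≤
      (C0 * (D : ℝ) ^ ℓ) * ((q + 1 : ℕ) : ℝ) ^ ℓ := by linarith
    exact le_of_mul_le_mul_right this hqpos
  push_cast at h5
  nlinarith [mul_pos hl0 hδ]

end Pool.Agent.UC
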