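import Pool.Agent.Hhelper37.UCBasic

set_option autoImplicit false

open MeasureTheory ProbabilityTheory FirstOrder FirstOrder.Language
open scoped ENNReal

namespace Pool.Agent.UC

section

variable {L : FirstOrder.Language.{0, 0}} [L.IsRelational] {X : Type} [MeasurableSpace X]

/-- isomorphism of structures on the same set -/
def Iso {U : Type} (S T : L.Structure U) : Prop := Nonempty (@FirstOrder.Language.Equiv L U U S T)

theorem comapStr_id {U : Type} (S : L.Structure U) : comapStr id S = S := by
  apply str_ext
  intro k P x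
  exact Iff.rfl

theorem iso_iff {U : Type} (S T : L.Structure U) :
    Iso S T ↔ ∃ e : U ≃ U, comapStr e T = S := by
  constructor
  · rintro ⟨e⟩
    refine ⟨@FirstOrder.Language.Equiv.toEquiv L U U S T e, ?_⟩
    apply str_ext
    intro k P x
    exact @FirstOrder.Language.Equiv.map_rel' L U U S T e k P x
  · rintro ⟨e, rfl⟩
    exact ⟨@FirstOrder.Language.Equiv.mk L U U (comapStr e T) T e
      (fun f _ => isEmptyElim f) (fun _ _ => Iff.rfl)⟩

theorem limit_eq_law [Finite (Σ k, L.Relations k)] (N : Peons L X) (μ : Measure X)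
    [IsProbabilityMeasure μ] (m : ℕ) (M : L.Structure (Fin m)) :
    N.limit μ m M = N.law μ (Fin m) {S | Iso S M} := by
  have hs : Measurable (N.str (Fin m)) := measurable_str N (Fin m)
  unfold Peons.limit Peons.law
  rw [Measure.map_apply hs (by trivial)]
  have h1 : iid μ (Fin m) = (iid μ ℕ).map (pull Fin.valEmbedding) := (map_pull μ _).symm
  rw [h1, Measure.map_apply (measurable_pull _) (hs (by trivial)), coords_eq]
  congr 1
  ext θ
  change Nonempty _ ↔ Iso (N.str (Fin m) (pull Fin.valEmbedding θ)) M
  rw [← comapStr_str]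
  rfl

theorem law_iso [Finite (Σ k, L.Relations k)] (N : Peons L X) (μ : Measure X)
    [IsProbabilityMeasure μ] (m : ℕ) {S M : L.Structure (Fin m)} (h : Iso S M) :
    N.law μ (Fin m) {S} = N.law μ (Fin m) {M} := by
  obtain ⟨e, rfl⟩ := (iso_iff S M).1 h
  have h1 := law_comap N μ (U := Fin m) (V := Fin m) e.toEmbedding
  have h2 : N.law μ (Fin m) {comapStr e M} =
      ((N.law μ (Fin m)).map (comapStr e.toEmbedding)) {comapStr e M} := by rw [h1]
  rw [h2, Measure.map_apply (measurable_of_countable _) (by trivial)]
  congr 1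
  ext T
  change comapStr e T = comapStr e M ↔ T = M
  constructor
  · intro hT
    have := congrArg (comapStr e.symm) hT
    rw [comapStr_comapStr, comapStr_comapStr] at this
    simpa [comapStr_id] using this
  · rintro rfl
    rfl

theorem limit_eq_card_mul [Finite (Σ k, L.Relations k)] (N : Peons L X) (μ : Measure X)
    [IsProbabilityMeasure μ] (m : ℕ) (M : L.Structure (Fin m)) :
    N.limit μ m M = (Set.ncard {S : L.Structure (Fin m) | Iso S M} : ℝ≥0∞) *
      N.law μ (Fin m) {M} := by
  classical
  have : Fintype (L.Structure (Fin m)) := Fintype.ofFinite _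
  rw [limit_eq_law]
  have h1 : {S : L.Structure (Fin m) | Iso S M} =
      ((Finset.univ.filter (fun S => Iso S M) : Finset (L.Structure (Fin m))) : Set _) := by
    ext S; simp
  rw [h1, ← MeasureTheory.sum_measure_singleton, Set.ncard_coe_finset]
  rw [Finset.sum_congr rfl (g := fun _ => N.law μ (Fin m) {M})]
  · simp
  · intro S hS
    exact law_iso N μ m (by simpa using hS)

theorem iso_refl {U : Type} (S : L.Structure U) : Iso S S :=
  (iso_iff S S).2 ⟨_root_.Equiv.refl U, comapStr_id S⟩

/-- Two families of peons have the same limit iff all their labelled laws agree. -/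
theorem limit_eq_iff [Finite (Σ k, L.Relations k)] {X' : Type} [MeasurableSpace X']
    (N : Peons L X) (μ : Measure X) [IsProbabilityMeasure μ]
    (N' : Peons L X') (μ' : Measure X') [IsProbabilityMeasure μ'] :
    N.limit μ = N'.limit μ' ↔ ∀ m : ℕ, N.law μ (Fin m) = N'.law μ' (Fin m) := by
  constructor
  · intro h m
    have : Countable (L.Structure (Fin m)) := Finite.to_countable
    apply Measure.ext_of_singleton
    intro M
    have h1 : N.limit μ m M = N'.limit μ' m M := by rw [h]
    rw [limit_eq_card_mul, limit_eq_card_mul] at h1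
    have hpos : 0 < Set.ncard {S : L.Structure (Fin m) | Iso S M} :=
      (Set.ncard_pos (Set.toFinite _)).2 ⟨M, iso_refl M⟩
    have hne : (Set.ncard {S : L.Structure (Fin m) | Iso S M} : ℝ≥0∞) ≠ 0 := by
      exact_mod_cast hpos.ne'
    exact (ENNReal.mul_right_inj hne (ENNReal.natCast_ne_top _)).1 h1
  · intro h
    funext m M
    rw [limit_eq_law, limit_eq_law, h m]

end

end Pool.Agent.UC
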