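import Pool.Agent.Hhelper37.UCPartB

set_option autoImplicit false

open MeasureTheory ProbabilityTheory
open scoped ENNReal

namespace Pool.Agent.UC

variable {X : Type} [MeasurableSpace X]

/-- the coordinates of index size `≤ ℓ` -/
def lowr {ℓ : ℕ} {U : Type} (θ : NE U → X) : Low ℓ U → X := fun B => θ B.1

theorem measurable_lowr {ℓ : ℕ} {U : Type} :
    Measurable (lowr : (NE U → X) → (Low ℓ U → X)) := by
  unfold lowr; fun_prop

/-- law of the lower coordinates -/
noncomputable def lowLaw (μ : Measure X) (ℓ : ℕ) (U : Type) :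
    Measure (Low ℓ U → X) := Measure.infinitePi (fun _ : Low ℓ U => μ)

instance (μ : Measure X) [IsProbabilityMeasure μ] (ℓ : ℕ) (U : Type) :
    IsProbabilityMeasure (lowLaw μ ℓ U) := by unfold lowLaw; infer_instance

theorem map_lowr (μ : Measure X) [IsProbabilityMeasure μ]
    {ℓ : ℕ} {U : Type} : (iid μ U).map (lowr (ℓ := ℓ)) = lowLaw μ ℓ U := by
  unfold iid lowr lowLaw
  exact Measure.map_infinitePi_infinitePi_of_inj (P := fun _ : NE U => μ)
    (f := fun B : Low ℓ U => B.1) (fun B B' h => Subtype.ext h)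

/-- recombination of the two blocks of coordinates -/
def comb {ℓ : ℕ} {U : Type} (p : (Low ℓ U → X) × (Up ℓ U → X)) : NE U → X :=
  fun B => if h : B.1.card ≤ ℓ then p.1 ⟨B, h⟩ else p.2 ⟨B, not_le.1 h⟩

theorem measurable_comb {ℓ : ℕ} {U : Type} :
    Measurable (comb : (Low ℓ U → X) × (Up ℓ U → X) → (NE U → X)) := by
  apply measurable_pi_lambda
  intro B
  unfold comb
  by_cases h : B.1.card ≤ ℓ
  · simp only [h, dif_pos]
    exact (measurable_pi_apply _).comp measurable_fst
  · simp only [h, dif_neg, not_false_eq_true]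
    exact (measurable_pi_apply _).comp measurable_snd

theorem comb_split {ℓ : ℕ} {U : Type} (x : NE U → X) :
    comb (ℓ := ℓ) (lowr x, upr x) = x := by
  funext B
  unfold comb lowr upr
  by_cases h : B.1.card ≤ ℓ <;> simp [h]

theorem split_comb {ℓ : ℕ} {U : Type} (p : (Low ℓ U → X) × (Up ℓ U → X)) :
    (lowr (comb p), upr (comb p)) = p := by
  apply Prod.ext
  · funext B
    simp only [lowr, comb, B.2, dif_pos]
  · funext B
    simp only [upr, comb, not_le.2 B.2, dif_neg, not_false_eq_true]

theorem map_comb (μ : Measure X) [IsProbabilityMeasure μ] {ℓ k : ℕ} :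
    ((lowLaw μ ℓ (Fin k)).prod (upLaw μ ℓ (Fin k))).map comb = iid μ (Fin k) := by
  classical
  unfold iid
  rw [Measure.infinitePi_eq_pi]
  symm
  apply Measure.pi_eq
  intro s hs
  rw [Measure.map_apply measurable_comb (MeasurableSet.univ_pi hs)]
  have h1 : comb ⁻¹' (Set.univ.pi s) =
      (Set.univ.pi (fun B : Low ℓ (Fin k) => s B.1)) ×ˢ
        (Set.univ.pi (fun B : Up ℓ (Fin k) => s B.1)) := by
    ext p
    simp only [Set.mem_preimage, Set.mem_pi, Set.mem_univ, true_implies, Set.mem_prod]
    constructor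
    · intro h
      constructor
      · intro B
        have := h B.1
        simpa only [comb, B.2, dif_pos] using this
      · intro B
        have := h B.1
        simpa only [comb, not_le.2 B.2, dif_neg, not_false_eq_true] using this
    · rintro ⟨h1, h2⟩ B
      unfold comb
      by_cases h : B.1.card ≤ ℓ
      · simp only [h, dif_pos]
        exact h1 ⟨B, h⟩
      · simp only [h, dif_neg, not_false_eq_true]
        exact h2 ⟨B, not_le.1 h⟩
  rw [h1, Measure.prod_prod]
  unfold lowLaw upLaw
  rw [Measure.infinitePi_eq_pi, Measure.infinitePi_eq_pi, Measure.pi_pi, Measure.pi_pi]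
  rw [← Fintype.prod_subtype_mul_prod_subtype (fun B : NE (Fin k) => B.1.card ≤ ℓ)]
  congr 1
  exact Fintype.prod_equiv (Equiv.subtypeEquivRight fun B => (not_le).symm) _ _ (fun B => rfl)

theorem map_split (μ : Measure X) [IsProbabilityMeasure μ] {ℓ k : ℕ} :
    (iid μ (Fin k)).map (fun x => (lowr (ℓ := ℓ) x, upr (ℓ := ℓ) x)) =
      (lowLaw μ ℓ (Fin k)).prod (upLaw μ ℓ (Fin k)) := by
  rw [← map_comb, Measure.map_map (measurable_lowr.prodMk measurable_upr) measurable_comb]
  have : (fun x : NE (Fin k) → X => (lowr (ℓ := ℓ) x, upr (ℓ := ℓ) x)) ∘ comb = id := by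
    funext p
    exact split_comb p
  rw [this, Measure.map_id]

/-- If the box identities hold then `W` only depends on the lower coordinates, up to a null set. -/
theorem exists_low_set (μ : Measure X) [IsProbabilityMeasure μ] {ℓ k : ℕ}
    (W : Set (NE (Fin k) → X)) (hW : MeasurableSet W)
    (h : ∀ s : NE (Fin k) → Set X, (∀ B, MeasurableSet (s B)) →
      ∫ x, ind W x * ind (boxLow ℓ s) x *
        (ind (boxUp ℓ s) (upr x) - (upLaw μ ℓ (Fin k)).real (boxUp ℓ s)) ∂(iid μ (Fin k)) = 0) :
    ∃ G : Set (Low ℓ (Fin k) → X), MeasurableSet G ∧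
      ∀ᵐ x ∂(iid μ (Fin k)), (x ∈ W ↔ lowr x ∈ G) := by
  classical
  -- the measure form of the hypothesis
  have h1 : ∀ s : NE (Fin k) → Set X, (∀ B, MeasurableSet (s B)) →
      iid μ (Fin k) (W ∩ (boxLow ℓ s ∩ upr ⁻¹' (boxUp ℓ s))) =
        iid μ (Fin k) (W ∩ boxLow ℓ s) * upLaw μ ℓ (Fin k) (boxUp ℓ s) := by
    intro s hs
    have hL := measurableSet_boxLow ℓ s hs
    have hU : MeasurableSet (upr ⁻¹' (boxUp ℓ s) : Set (NE (Fin k) → X)) :=
      measurable_upr (measurableSet_boxUp ℓ s hs)
    have h2 := h s hs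
    have e1 : ∀ x, ind W x * ind (boxLow ℓ s) x *
        (ind (boxUp ℓ s) (upr x) - (upLaw μ ℓ (Fin k)).real (boxUp ℓ s)) =
        ind (W ∩ (boxLow ℓ s ∩ upr ⁻¹' (boxUp ℓ s))) x -
          (upLaw μ ℓ (Fin k)).real (boxUp ℓ s) * ind (W ∩ boxLow ℓ s) x := by
      intro x
      unfold ind
      by_cases a : x ∈ W <;> by_cases b : x ∈ boxLow ℓ s <;> by_cases c : upr x ∈ boxUp ℓ s <;>
        simp [a, b, c]
    simp_rw [e1] at h2
    have hi : ∀ A : Set (NE (Fin k) → X), MeasurableSet A → Integrable (ind A) (iid μ (Fin k)) := by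
      intro A hA
      refine Integrable.of_bound (measurable_ind hA).aestronglyMeasurable 1
        (Filter.Eventually.of_forall fun y => ?_)
      rw [Real.norm_eq_abs, abs_of_nonneg (ind_nonneg _ _)]
      exact ind_le_one _ _
    rw [integral_sub (hi _ (hW.inter (hL.inter hU))) ((hi _ (hW.inter hL)).const_mul _),
      integral_const_mul, integral_ind (hW.inter (hL.inter hU)), integral_ind (hW.inter hL)] at h2
    have h3 : (iid μ (Fin k)).real (W ∩ (boxLow ℓ s ∩ upr ⁻¹' (boxUp ℓ s))) =
        (iid μ (Fin k)).real (W ∩ boxLow ℓ s) * (upLaw μ ℓ (Fin k)).real (boxUp ℓ s) := by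
      linarith
    unfold Measure.real at h3
    rw [← ENNReal.toReal_mul] at h3
    exact (ENNReal.toReal_eq_toReal_iff' (measure_ne_top _ _)
      (ENNReal.mul_ne_top (measure_ne_top _ _) (measure_ne_top _ _))).1 h3
  let W' : Set ((Low ℓ (Fin k) → X) × (Up ℓ (Fin k) → X)) := comb ⁻¹' W
  have hW' : MeasurableSet W' := measurable_comb hW
  let hh : (Low ℓ (Fin k) → X) → ℝ≥0∞ := fun x => upLaw μ ℓ (Fin k) (Prod.mk x ⁻¹' W')
  have hhm : Measurable hh := measurable_measure_prodMk_left hW'
  have hh1 : ∀ x, hh x ≤ 1 := fun x => prob_le_one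
  have hsplitm : Measurable (fun x : NE (Fin k) → X => (lowr (ℓ := ℓ) x, upr (ℓ := ℓ) x)) :=
    measurable_lowr.prodMk measurable_upr
  have key : (iid μ (Fin k)).withDensity (W.indicator 1) =
      (iid μ (Fin k)).withDensity (fun x => hh (lowr x)) := by
    rw [withDensity_indicator_one hW]
    have hfin : IsFiniteMeasure ((iid μ (Fin k)).withDensity (fun x => hh (lowr x))) := by
      apply isFiniteMeasure_withDensity
      apply ne_of_lt
      calc ∫⁻ x, hh (lowr x) ∂(iid μ (Fin k)) ≤ ∫⁻ _x, 1 ∂(iid μ (Fin k)) :=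
            lintegral_mono fun x => hh1 _
        _ < ∞ := by simp
    have hbox : ∀ s : NE (Fin k) → Set X, (∀ B, MeasurableSet (s B)) →
        ((iid μ (Fin k)).restrict W) (Set.univ.pi s) =
          ((iid μ (Fin k)).withDensity (fun x => hh (lowr x))) (Set.univ.pi s) := by
      intro s hs
      have hS : MeasurableSet (Set.univ.pi s) := MeasurableSet.univ_pi hs
      have hL := measurableSet_boxLow ℓ s hs
      have hUp := measurableSet_boxUp ℓ s hs
      have e1 : Set.univ.pi s = boxLow ℓ s ∩ upr ⁻¹' (boxUp ℓ s) := by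
        ext x
        simp only [Set.mem_pi, Set.mem_univ, true_implies, Set.mem_inter_iff, Set.mem_preimage]
        constructor
        · intro hx
          exact ⟨fun B => hx B.1, fun B => hx B.1⟩
        · rintro ⟨h1, h2⟩ B
          by_cases hB : B.1.card ≤ ℓ
          · exact h1 ⟨B, hB⟩
          · exact h2 ⟨B, not_le.1 hB⟩
      rw [Measure.restrict_apply hS, withDensity_apply _ hS, Set.inter_comm, e1, h1 s hs]
      -- right-hand side through the splitting
      let A : Set (Low ℓ (Fin k) → X) := {y | ∀ B : Low ℓ (Fin k), y B ∈ s B.1}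
      have hA : MeasurableSet A := by
        have : A = ⋂ B : Low ℓ (Fin k), {y | y B ∈ s B.1} := by
          ext x; simp [A]
        rw [this]
        exact MeasurableSet.iInter fun B => (measurable_pi_apply _) (hs _)
      have e2 : boxLow ℓ s ∩ upr ⁻¹' (boxUp ℓ s) =
          (fun x : NE (Fin k) → X => (lowr (ℓ := ℓ) x, upr (ℓ := ℓ) x)) ⁻¹' (A ×ˢ boxUp ℓ s) := by
        ext x; exact Iff.rfl
      have e3 : W ∩ boxLow ℓ s =
          (fun x : NE (Fin k) → X => (lowr (ℓ := ℓ) x, upr (ℓ := ℓ) x)) ⁻¹'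
            (W' ∩ (A ×ˢ Set.univ)) := by
        ext x
        simp only [Set.mem_inter_iff, Set.mem_preimage, W', comb_split, Set.mem_prod, Set.mem_univ,
          and_true]
        exact Iff.rfl
      have hhm1 : Measurable (fun p : (Low ℓ (Fin k) → X) × (Up ℓ (Fin k) → X) => hh p.1) :=
        hhm.comp measurable_fst
      have e4 : ∫⁻ x in boxLow ℓ s ∩ upr ⁻¹' (boxUp ℓ s), hh (lowr x) ∂(iid μ (Fin k)) =
          ∫⁻ p in A ×ˢ boxUp ℓ s, hh p.1
            ∂((lowLaw μ ℓ (Fin k)).prod (upLaw μ ℓ (Fin k))) := by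
        rw [← map_split, setLIntegral_map (hA.prod hUp) hhm1 hsplitm, ← e2]
      rw [e4, setLIntegral_prod _ hhm1.aemeasurable]
      simp only [lintegral_const, Measure.restrict_apply MeasurableSet.univ, Set.univ_inter]
      rw [lintegral_mul_const _ hhm]
      congr 1
      rw [e3, ← Measure.map_apply hsplitm (hW'.inter (hA.prod MeasurableSet.univ)), map_split,
        Measure.prod_apply (hW'.inter (hA.prod MeasurableSet.univ)), ← lintegral_indicator hA]
      apply lintegral_congr
      intro x
      by_cases hx : x ∈ A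
      · rw [Set.indicator_of_mem hx]
        congr 1
        ext y
        simp [hx]
      · rw [Set.indicator_of_notMem hx]
        have : (Prod.mk x ⁻¹' (W' ∩ A ×ˢ Set.univ) : Set (Up ℓ (Fin k) → X)) = ∅ := by
          ext y; simp [hx]
        rw [this, measure_empty]
    apply ext_of_generate_finite _ generateFrom_pi.symm isPiSystem_pi
    · rintro _ ⟨s, hs, rfl⟩
      exact hbox s (fun B => hs B (Set.mem_univ _))
    · have := hbox (fun _ => Set.univ) (fun _ => MeasurableSet.univ)
      simpa using this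
  have hae : W.indicator 1 =ᵐ[iid μ (Fin k)] fun x => hh (lowr x) := by
    refine (withDensity_eq_iff (measurable_one.indicator hW).aemeasurable
      (hhm.comp measurable_lowr).aemeasurable ?_).1 key
    apply ne_of_lt
    calc ∫⁻ x, W.indicator 1 x ∂(iid μ (Fin k)) ≤ ∫⁻ _x, 1 ∂(iid μ (Fin k)) := by
          apply lintegral_mono
          intro x
          exact Set.indicator_le_self' (fun _ _ => zero_le_one) x
      _ < ∞ := by simp
  refine ⟨{x | hh x = 1}, hhm (measurableSet_singleton 1), ?_⟩
  filter_upwards [hae] with x hx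
  by_cases hxW : x ∈ W
  · rw [Set.indicator_of_mem hxW] at hx
    constructor
    · intro _
      exact hx.symm
    · intro _
      exact hxW
  · rw [Set.indicator_of_notMem hxW] at hx
    constructor
    · intro h
      exact absurd h hxW
    · intro h
      have h' : hh (lowr x) = 1 := h
      rw [h'] at hx
      exact absurd hx (by norm_num)

end Pool.Agent.UC
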