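import Pool.Agent.Hhelper37.UCPartA

set_option autoImplicit false

open MeasureTheory ProbabilityTheory FirstOrder FirstOrder.Language
open scoped ENNReal symmDiff

namespace Pool.Agent.UC

/-- `φ₁ ⊗ φ₂` does not depend on the representing `T_i`-ons. -/
theorem independent_coupling_well_defined {L₁ L₂ : FirstOrder.Language.{0, 0}} [L₁.IsRelational]
    [L₂.IsRelational] [Finite (Σ k, L₁.Relations k)] [Finite (Σ k, L₂.Relations k)]
    {T₁ : L₁.Theory} {T₂ : L₂.Theory} (N₁ N₁' : TOn T₁) (N₂ N₂' : TOn T₂)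
    (h₁ : N₁.limit = N₁'.limit) (h₂ : N₂.limit = N₂'.limit) :
    (N₁.peons.tensor N₂.peons).limit (N₁.μ.prod N₂.μ) =
      (N₁'.peons.tensor N₂'.peons).limit (N₁'.μ.prod N₂'.μ) :=
  tensor_limit_congr _ _ _ _ _ _ _ _ h₁ h₂

/-- Quasirandom structures built from coordinates of index size `> ℓ` are in `UCouple[ℓ]`. -/
theorem setTOn_UCouple {C X : Type} [Finite C] [MeasurableSpace X] (S : C → Set X)
    (hS : ∀ c, MeasurableSet (S c)) (ℓ K : ℕ) (μ : Measure X) [IsProbabilityMeasure μ] :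
    UCouple ℓ (∅ : (setLang C ℓ K).Theory) (setTOn S hS ℓ K μ).limit := by
  intro L' _ _ T' _ ψ _ hrk ξ hξ N₁' N₂' hN₁' hN₂'
  obtain ⟨N₂, hN₂, hrank⟩ := hrk
  obtain ⟨N', hN', hl, hr⟩ := hξ
  have key := partA S hS ℓ K μ N'.peons N'.μ N₂.peons N₂.μ hrank hl (hr.trans hN₂.symm)
  rw [← hN']
  have key' : N'.limit = ((setPeons S hS ℓ K).tensor N₂.peons).limit (μ.prod N₂.μ) := key
  rw [key']
  apply tensor_limit_congr
  · exact hN₁'.symm
  · exact hN₂.trans hN₂'.symm

/-- the join of a `T`-on with `setPeons` over the same space -/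
def joinTOn {L : FirstOrder.Language.{0, 0}} [L.IsRelational] {T : L.Theory} (N : TOn T)
    {C : Type} (S : C → Set N.X) (hS : ∀ c, MeasurableSet (S c)) (ℓ K : ℕ) :
    TOn (unionTheory T (∅ : (setLang C ℓ K).Theory)) where
  X := N.X
  mX := N.mX
  μ := N.μ
  prob := N.prob
  peons := joinPeons N.peons (setPeons S hS ℓ K)
  ae_model := by
    filter_upwards [N.ae_model] with θ hθ
    unfold unionTheory
    let i1 : L.Structure ℕ := N.peons.str ℕ θ
    let i2 : (setLang C ℓ K).Structure ℕ := (setPeons S hS ℓ K).str ℕ θ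
    let i3 : (L.sum (setLang C ℓ K)).Structure ℕ := (joinPeons N.peons (setPeons S hS ℓ K)).str ℕ θ
    have e1 : (LHom.sumInl : L →ᴸ L.sum (setLang C ℓ K)).IsExpansionOn ℕ :=
      ⟨fun f _ => isEmptyElim f, fun _ _ => rfl⟩
    have e2 : (LHom.sumInr : (setLang C ℓ K) →ᴸ L.sum (setLang C ℓ K)).IsExpansionOn ℕ :=
      ⟨fun f _ => isEmptyElim f, fun _ _ => rfl⟩
    have m1 : ℕ ⊨ (LHom.sumInl : L →ᴸ L.sum (setLang C ℓ K)).onTheory T :=
      (LHom.onTheory_model _ _).2 hθ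
    have m2 : ℕ ⊨ (LHom.sumInr : (setLang C ℓ K) →ᴸ L.sum (setLang C ℓ K)).onTheory
        (∅ : (setLang C ℓ K).Theory) :=
      (LHom.onTheory_model _ _).2 inferInstance
    exact Theory.model_union_iff.2 ⟨m1, m2⟩

theorem pair_law {L : FirstOrder.Language.{0, 0}} [L.IsRelational] [Finite (Σ k, L.Relations k)]
    {T : L.Theory} (N : TOn T) {C : Type} [Finite C] (S : C → Set N.X)
    (hS : ∀ c, MeasurableSet (S c)) (ℓ K : ℕ)
    (h : (joinTOn N S hS ℓ K).limit =
      (N.peons.tensor (setPeons S hS ℓ K)).limit (N.μ.prod N.μ)) (n : ℕ) :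
    (iid N.μ (Fin n)).map
        (fun θ => (N.peons.str (Fin n) θ, (setPeons S hS ℓ K).str (Fin n) θ))
      = (N.peons.law N.μ (Fin n)).prod ((setPeons S hS ℓ K).law N.μ (Fin n)) := by
  have h' : (joinPeons N.peons (setPeons S hS ℓ K)).limit N.μ =
      (N.peons.tensor (setPeons S hS ℓ K)).limit (N.μ.prod N.μ) := h
  rw [limit_eq_iff] at h'
  have h1 := h' n
  have hcnt : Countable (L.Structure (Fin n) × (setLang C ℓ K).Structure (Fin n)) :=
    Finite.to_countable
  have hpair : Measurable (fun θ : NE (Fin n) → N.X =>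
      (N.peons.str (Fin n) θ, (setPeons S hS ℓ K).str (Fin n) θ)) :=
    (measurable_str _ _).prodMk (measurable_str _ _)
  apply Measure.ext_of_singleton
  rintro ⟨M₁, M₂⟩
  have e1 : ({(M₁, M₂)} : Set (L.Structure (Fin n) × (setLang C ℓ K).Structure (Fin n))) =
      {M₁} ×ˢ {M₂} := by
    ext ⟨a, b⟩; simp
  rw [e1, Measure.prod_prod, Measure.map_apply hpair
    ((MeasurableSpace.measurableSet_top : MeasurableSet[⊤] ({M₁} : Set (L.Structure (Fin n)))).prod
      (MeasurableSpace.measurableSet_top :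
        MeasurableSet[⊤] ({M₂} : Set ((setLang C ℓ K).Structure (Fin n)))))]
  have h2 := law_tensor N.peons (setPeons S hS ℓ K) N.μ N.μ (joinStr M₁ M₂)
  rw [redL_joinStr, redR_joinStr, ← h1] at h2
  rw [← h2]
  unfold Peons.law
  rw [Measure.map_apply (measurable_str _ _) trivial]
  congr 1
  ext θ
  simp only [Set.mem_preimage, Set.mem_prod, Set.mem_singleton_iff]
  rw [sum_str_ext, redL_joinStr, redR_joinStr]
  exact Iff.rfl

/-- The main theorem. -/
theorem main (ℓ : ℕ) (L : FirstOrder.Language.{0, 0}) [L.IsRelational]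
    [Finite (Σ k, L.Relations k)] (T : L.Theory) (φ : Limit L) (hφ : φ ∈ HomPlus T)
    (h : ∀ (L' : FirstOrder.Language.{0, 0}) [L'.IsRelational] [Finite (Σ k, L'.Relations k)]
      (T' : L'.Theory) [T'.IsUniversal] (ψ : Limit L'),
      ψ ∈ HomPlus T' → UCouple ℓ T' ψ → UniquelyCoupleable T T' φ ψ) :
    RkLE T φ ℓ := by
  classical
  obtain ⟨N, hN⟩ := hφ
  -- every peon essentially depends on lower coordinates only
  have hlow : ∀ (k : ℕ) (P : L.Relations k), ∃ G : Set (Low ℓ (Fin k) → N.X), MeasurableSet G ∧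
      ∀ᵐ x ∂(iid N.μ (Fin k)), (x ∈ N.peons.peon P ↔ lowr x ∈ G) := by
    intro k P
    apply exists_low_set N.μ (N.peons.peon P) (N.peons.measurableSet_peon P)
    intro s hs
    apply partB P N.peons N.μ ℓ s hs
    intro n
    apply pair_law N s hs ℓ k
    have hempty : (∅ : (setLang (NE (Fin k)) ℓ k).Theory).IsUniversal :=
      ⟨fun φ hφ => absurd hφ (Set.notMem_empty φ)⟩
    have huc := h (setLang (NE (Fin k)) ℓ k) ∅ (setTOn s hs ℓ k N.μ).limit ⟨_, rfl⟩
      (setTOn_UCouple s hs ℓ k N.μ)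
    exact huc (joinTOn N s hs ℓ k).limit ⟨joinTOn N s hs ℓ k, rfl, hN, rfl⟩ N
      (setTOn s hs ℓ k N.μ) hN rfl
  choose G hGm hG using hlow
  -- the modified peons
  let N' : Peons L N.X :=
    { peon := fun {k} P => lowr ⁻¹' (G k P)
      measurableSet_peon := fun {k} P => measurable_lowr (hGm k P) }
  have hae : ∀ᵐ θ ∂(coords N.μ), N'.str ℕ θ = N.peons.str ℕ θ := by
    have h1 : ∀ᵐ θ ∂(coords N.μ), ∀ q : (Σ p : (Σ k, L.Relations k), (Fin p.1 ↪ ℕ)),
        (pull q.2 θ ∈ N.peons.peon q.1.2 ↔ lowr (pull q.2 θ) ∈ G q.1.1 q.1.2) := by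
      have hcnt1 : ∀ k : ℕ, Countable (Fin k ↪ ℕ) := fun k =>
        (DFunLike.coe_injective (F := Fin k ↪ ℕ)).countable
      have hcnt : Countable (Σ p : (Σ k, L.Relations k), (Fin p.1 ↪ ℕ)) := inferInstance
      rw [ae_all_iff]
      intro q
      have h2 := hG q.1.1 q.1.2
      rw [← map_pull N.μ q.2] at h2
      exact ae_of_ae_map (measurable_pull q.2).aemeasurable h2
    filter_upwards [h1] with θ hθ
    apply str_ext
    intro k P x
    constructor
    · rintro ⟨hx, hx'⟩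
      refine ⟨hx, ?_⟩
      exact (hθ ⟨⟨k, P⟩, ⟨x, hx⟩⟩).2 hx'
    · rintro ⟨hx, hx'⟩
      refine ⟨hx, ?_⟩
      exact (hθ ⟨⟨k, P⟩, ⟨x, hx⟩⟩).1 hx'
  refine ⟨{ X := N.X, mX := N.mX, μ := N.μ, prob := N.prob, peons := N', ae_model := ?_ }, ?_, ?_⟩
  · filter_upwards [N.ae_model, hae] with θ h1 h2
    rw [h2]
    exact h1
  · rw [← hN]
    funext m M
    change N'.limit N.μ m M = N.peons.limit N.μ m M
    unfold Peons.limit
    apply measure_congr
    filter_upwards [hae] with θ h2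
    apply propext
    change Nonempty _ ↔ Nonempty _
    rw [h2]
  · intro k P
    exact ⟨G k P, rfl⟩

end Pool.Agent.UC
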