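import Pool.Agent.Hhelper37.UCApprox

set_option autoImplicit false

open MeasureTheory ProbabilityTheory FirstOrder FirstOrder.Language
open scoped ENNReal symmDiff

namespace Pool.Agent.UC

theorem setPeons_str_congr {C X : Type} [MeasurableSpace X] (S : C → Set X)
    (hS : ∀ c, MeasurableSet (S c)) (ℓ K : ℕ) {U : Type} (x y : NE U → X)
    (h : upr (ℓ := ℓ) x = upr y) :
    (setPeons S hS ℓ K).str U x = (setPeons S hS ℓ K).str U y := by
  apply str_ext
  intro n P t
  have hn : ℓ < n := P.2.1
  have key : ∀ ht : Function.Injective t,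
      x (NE.map ⟨t, ht⟩ (topNE n (lt_of_le_of_lt (Nat.zero_le ℓ) hn))) =
      y (NE.map ⟨t, ht⟩ (topNE n (lt_of_le_of_lt (Nat.zero_le ℓ) hn))) := by
    intro ht
    have hc : ℓ < (NE.map ⟨t, ht⟩ (topNE n (lt_of_le_of_lt (Nat.zero_le ℓ) hn))).1.card := by
      rw [NE.map_val, Finset.card_map]
      simpa [topNE] using hn
    exact congrFun h ⟨_, hc⟩
  constructor
  · rintro ⟨ht, hx⟩
    refine ⟨ht, ?_⟩
    have hx' : x (NE.map ⟨t, ht⟩ (topNE n (lt_of_le_of_lt (Nat.zero_le ℓ) hn))) ∈ S P.1 := hx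
    rw [key ht] at hx'
    exact hx'
  · rintro ⟨ht, hx⟩
    refine ⟨ht, ?_⟩
    have hx' : y (NE.map ⟨t, ht⟩ (topNE n (lt_of_le_of_lt (Nat.zero_le ℓ) hn))) ∈ S P.1 := hx
    rw [← key ht] at hx'
    exact hx'

theorem rank_str_congr {L : FirstOrder.Language.{0, 0}} [L.IsRelational] {X : Type}
    [MeasurableSpace X] (N : Peons L X) (ℓ : ℕ) (hN : N.RankLE ℓ) {U : Type} (x y : NE U → X)
    (h : lowr (ℓ := ℓ) x = lowr y) : N.str U x = N.str U y := by
  apply str_ext
  intro n P t
  obtain ⟨G, hG⟩ := hN n P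
  have key : ∀ ht : Function.Injective t,
      ((fun B : NE (Fin n) => x (NE.map ⟨t, ht⟩ B)) ∈ N.peon P ↔
        (fun B : NE (Fin n) => y (NE.map ⟨t, ht⟩ B)) ∈ N.peon P) := by
    intro ht
    rw [hG]
    have e : (fun B : {B : NE (Fin n) // B.1.card ≤ ℓ} => x (NE.map ⟨t, ht⟩ B.1)) =
        (fun B : {B : NE (Fin n) // B.1.card ≤ ℓ} => y (NE.map ⟨t, ht⟩ B.1)) := by
      funext B
      have hc : (NE.map ⟨t, ht⟩ B.1 : NE U).1.card ≤ ℓ := by
        rw [NE.map_val, Finset.card_map]; exact B.2
      exact congrFun h ⟨_, hc⟩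
    change (fun B : {B : NE (Fin n) // B.1.card ≤ ℓ} => x (NE.map ⟨t, ht⟩ B.1)) ∈ G ↔
      (fun B : {B : NE (Fin n) // B.1.card ≤ ℓ} => y (NE.map ⟨t, ht⟩ B.1)) ∈ G
    rw [e]
  constructor
  · rintro ⟨ht, hx⟩
    exact ⟨ht, (key ht).1 hx⟩
  · rintro ⟨ht, hx⟩
    exact ⟨ht, (key ht).2 hx⟩

theorem partA {C X : Type} [Finite C] [MeasurableSpace X] (S : C → Set X)
    (hS : ∀ c, MeasurableSet (S c)) (ℓ K : ℕ) (μ : Measure X) [IsProbabilityMeasure μ]
    {L₂ : FirstOrder.Language.{0, 0}} [L₂.IsRelational] [Finite (Σ k, L₂.Relations k)]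
    {X' X₂ : Type} [MeasurableSpace X'] [MeasurableSpace X₂]
    (N' : Peons ((setLang C ℓ K).sum L₂) X') (μ' : Measure X') [IsProbabilityMeasure μ']
    (N₂ : Peons L₂ X₂) (μ₂ : Measure X₂) [IsProbabilityMeasure μ₂] (hN₂ : N₂.RankLE ℓ)
    (h1 : N'.reductL.limit μ' = (setPeons S hS ℓ K).limit μ)
    (h2 : N'.reductR.limit μ' = N₂.limit μ₂) :
    N'.limit μ' = ((setPeons S hS ℓ K).tensor N₂).limit (μ.prod μ₂) := by
  classical
  rw [limit_eq_iff] at h1 h2 ⊢
  intro m
  have hcnt : Countable (((setLang C ℓ K).sum L₂).Structure (Fin m)) := Finite.to_countable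
  apply Measure.ext_of_singleton
  intro M
  rw [law_tensor]
  by_contra hne
  set N₁ := setPeons S hS ℓ K with hN₁
  set M₁ := redL M with hM₁
  set M₂ := redR M with hM₂
  let P := (N'.law μ' (Fin m)).real {M}
  let p := (N₁.law μ (Fin m)).real {M₁}
  let p₂ := (N₂.law μ₂ (Fin m)).real {M₂}
  have hp0 : 0 ≤ p := measureReal_nonneg
  have hp1 : p ≤ 1 := measureReal_le_one
  have hne' : P - p * p₂ ≠ 0 := by
    intro h
    apply hne
    have h' : P = p * p₂ := by linarith
    simp only [P, p, p₂, Measure.real] at h'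
    rw [← ENNReal.toReal_mul] at h'
    exact (ENNReal.toReal_eq_toReal_iff' (measure_ne_top _ _)
      (ENNReal.mul_ne_top (measure_ne_top _ _) (measure_ne_top _ _))).1 h'
  obtain ⟨σ, hσ, hσδ⟩ : ∃ σ : ℝ, (σ = 1 ∨ σ = -1) ∧ 0 < σ * (P - p * p₂) := by
    rcases lt_or_gt_of_ne hne' with h | h
    · exact ⟨-1, Or.inr rfl, by linarith⟩
    · exact ⟨1, Or.inl rfl, by linarith⟩
  set δ := σ * (P - p * p₂) with hδ
  have hσ1 : |σ| = 1 := by rcases hσ with h | h <;> simp [h]
  -- the centred block function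
  have hX : Nonempty X := nonempty_of_isProbabilityMeasure μ
  have hX₂ : Nonempty X₂ := nonempty_of_isProbabilityMeasure μ₂
  let x0 : Low ℓ (Fin m) → X := fun _ => Classical.arbitrary X
  let z0 : Up ℓ (Fin m) → X₂ := fun _ => Classical.arbitrary X₂
  let f : (Up ℓ (Fin m) → X) → ℝ := fun y => σ * (ind (N₁.str (Fin m) ⁻¹' {M₁}) (comb (x0, y)) - p)
  have hmA1 : MeasurableSet (N₁.str (Fin m) ⁻¹' {M₁}) := measurable_str N₁ (Fin m) trivial
  have hcomb : Measurable (fun y : Up ℓ (Fin m) → X => comb (x0, y)) :=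
    measurable_comb.comp (measurable_const.prodMk measurable_id)
  have hf : Measurable f := (((measurable_ind hmA1).comp hcomb).sub_const p).const_mul σ
  have hdb : ∀ t : ℝ, 0 ≤ t → t ≤ 1 → |σ * (t - p)| ≤ 1 := by
    intro t ht0 ht1
    rw [abs_mul, hσ1, one_mul, abs_le]
    constructor <;> linarith
  have hf1 : ∀ y, |f y| ≤ 1 := fun y => hdb _ (ind_nonneg _ _) (ind_le_one _ _)
  have hfupr : ∀ θ : NE (Fin m) → X, f (upr θ) = σ * (ind (N₁.str (Fin m) ⁻¹' {M₁}) θ - p) := by
    intro θ
    simp only [f]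
    congr 2
    apply ind_congr
    have : N₁.str (Fin m) (comb (x0, upr θ)) = N₁.str (Fin m) θ := by
      apply setPeons_str_congr
      exact congrArg Prod.snd (split_comb (x0, upr (ℓ := ℓ) θ))
    simp only [Set.mem_preimage, this]
  have hf0 : ∫ y, f y ∂(upLaw μ ℓ (Fin m)) = 0 := by
    rw [← map_upr, integral_map measurable_upr.aemeasurable hf.aestronglyMeasurable]
    simp_rw [hfupr]
    have hi : Integrable (ind (N₁.str (Fin m) ⁻¹' {M₁})) (iid μ (Fin m)) :=
      Integrable.of_bound (measurable_ind hmA1).aestronglyMeasurable 1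
        (Filter.Eventually.of_forall fun y => by
          rw [Real.norm_eq_abs, abs_of_nonneg (ind_nonneg _ _)]
          exact ind_le_one _ _)
    rw [integral_const_mul, integral_sub hi (integrable_const _), integral_ind hmA1]
    have : (iid μ (Fin m)).real (N₁.str (Fin m) ⁻¹' {M₁}) = p := by
      simp only [p, Peons.law, Measure.real]
      rw [Measure.map_apply (measurable_str N₁ (Fin m)) trivial]
    rw [this]
    simp
  -- approximation of the second factor by finitely many colours
  let A₂ : Set (Low ℓ (Fin m) → X₂) := {y | N₂.str (Fin m) (comb (y, z0)) = M₂}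
  have hcomb₂ : Measurable (fun y : Low ℓ (Fin m) → X₂ => comb (y, z0)) :=
    measurable_comb.comp (measurable_id.prodMk measurable_const)
  have hA₂ : MeasurableSet A₂ := by
    have h0 : MeasurableSet (N₂.str (Fin m) ⁻¹' {M₂}) := measurable_str N₂ (Fin m) trivial
    exact hcomb₂ h0
  have hA₂' : ∀ θ : NE (Fin m) → X₂, lowr θ ∈ A₂ ↔ N₂.str (Fin m) θ = M₂ := by
    intro θ
    have : N₂.str (Fin m) (comb (lowr (ℓ := ℓ) θ, z0)) = N₂.str (Fin m) θ := by
      apply rank_str_congr N₂ ℓ hN₂
      exact congrArg Prod.fst (split_comb (lowr (ℓ := ℓ) θ, z0))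
    simp only [A₂, Set.mem_ofPred_eq, this]
  obtain ⟨C', hC', col, hcol, G, hGm, hGlt⟩ :=
    exists_approx (lowLaw μ₂ ℓ (Fin m)) A₂ hA₂ (δ / 2) (by linarith)
  have hC'ne : Nonempty C' := ⟨col (Classical.arbitrary X₂)⟩
  have hc : 0 < Nat.card C' := Nat.card_pos
  refine final_contra ℓ (DD ℓ m) (Nat.card C') hc (δ / 2) (by linarith) ?_
  intro q lam hl0 hl1
  let V := Fin (DD ℓ m * q)
  let J := Fin (ℓ + 1) → Fin q
  let s : J → (Fin m ↪ V) := inj ℓ q m
  refine ⟨Nat.card (Low ℓ V), card_low ℓ _, ?_⟩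
  have hfinLow : Finite (Low ℓ V) := inferInstance
  let _ : Fintype (Low ℓ V → C') := Fintype.ofFinite _
  have hneκ : (Finset.univ : Finset (Low ℓ V → C')).Nonempty :=
    ⟨fun _ => Classical.arbitrary C', Finset.mem_univ _⟩
  -- the statistics
  let d : (setLang C ℓ K).Structure V → J → ℝ := fun M' a =>
    σ * (ind {M' : (setLang C ℓ K).Structure V | comapStr (s a) M' = M₁} M' - p)
  let Z : L₂.Structure V → J → ℝ := fun M' a =>
    ind {M' : L₂.Structure V | comapStr (s a) M' = M₂} M'
  let g : (Low ℓ V → C') → J → ℝ := fun κ a =>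
    ind {κ : Low ℓ V → C' | (fun B : Low ℓ (Fin m) =>
      κ ⟨NE.map (s a) B.1, by rw [NE.map_val, Finset.card_map]; exact B.2⟩) ∈ G} κ
  have hd1 : ∀ M' a, |d M' a| ≤ 1 := fun M' a => hdb _ (ind_nonneg _ _) (ind_le_one _ _)
  let A : (setLang C ℓ K).Structure V → ℝ := fun M' =>
    Finset.univ.sup' hneκ (fun κ : Low ℓ V → C' => ∑ a : J, g κ a * d M' a)
  let D : L₂.Structure V → ℝ := fun M' =>
    Finset.univ.inf' hneκ (fun κ : Low ℓ V → C' => ∑ a : J, |Z M' a - g κ a|)
  have hpt : ∀ (M' : (setLang C ℓ K).Structure V) (M'' : L₂.Structure V),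
      ∑ a : J, Z M'' a * d M' a ≤ A M' + D M'' := by
    intro M' M''
    obtain ⟨κ, -, hκ⟩ := Finset.exists_mem_eq_inf' hneκ
      (fun κ : Low ℓ V → C' => ∑ a : J, |Z M'' a - g κ a|)
    have hD : D M'' = ∑ a : J, |Z M'' a - g κ a| := hκ
    have hA' : ∑ a : J, g κ a * d M' a ≤ A M' :=
      Finset.le_sup' (fun κ : Low ℓ V → C' => ∑ a : J, g κ a * d M' a) (Finset.mem_univ κ)
    have h3 : ∑ a : J, Z M'' a * d M' a =
        ∑ a : J, g κ a * d M' a + ∑ a : J, (Z M'' a - g κ a) * d M' a := by
      rw [← Finset.sum_add_distrib]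
      apply Finset.sum_congr rfl
      intro a _
      ring
    have h4 : ∑ a : J, (Z M'' a - g κ a) * d M' a ≤ ∑ a : J, |Z M'' a - g κ a| := by
      apply Finset.sum_le_sum
      intro a _
      refine (le_abs_self _).trans ?_
      rw [abs_mul]
      calc |Z M'' a - g κ a| * |d M' a| ≤ |Z M'' a - g κ a| * 1 :=
            mul_le_mul_of_nonneg_left (hd1 M' a) (abs_nonneg _)
        _ = _ := mul_one _
    rw [h3, hD]
    linarith
  have hcntS : Countable (((setLang C ℓ K).sum L₂).Structure V) := Finite.to_countable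
  have hcnt₁ : Countable ((setLang C ℓ K).Structure V) := Finite.to_countable
  have hcnt₂ : Countable (L₂.Structure V) := Finite.to_countable
  -- expectation of the main statistic
  have hEmain : ∫ T, ∑ a : J, Z (redR T) a * d (redL T) a ∂(N'.law μ' V) =
      (q : ℝ) ^ (ℓ + 1) * δ := by
    rw [integral_finsetSum _ (fun a _ => Integrable.of_finite)]
    have hone : ∀ a : J, ∫ T, Z (redR T) a * d (redL T) a ∂(N'.law μ' V) = δ := by
      intro a
      have e1 : ∀ T : ((setLang C ℓ K).sum L₂).Structure V, Z (redR T) a * d (redL T) a =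
          (fun R : ((setLang C ℓ K).sum L₂).Structure (Fin m) =>
            σ * (ind {M} R - p * ind {R | redR R = M₂} R)) (comapStr (s a) T) := by
        intro T
        simp only [Z, d]
        have e2 : comapStr (s a) (redR T) = redR (comapStr (s a) T) := comapStr_redR _ _
        have e3 : comapStr (s a) (redL T) = redL (comapStr (s a) T) := comapStr_redL _ _
        unfold ind
        simp only [Set.mem_ofPred_eq, Set.mem_singleton_iff, e2, e3, sum_str_ext]
        by_cases ha : redR (comapStr (s a) T) = M₂ <;> by_cases hb : redL (comapStr (s a) T) = M₁ <;>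
          simp [ha, hb, ← hM₁, ← hM₂]
      simp_rw [e1]
      rw [← integral_map (φ := comapStr (s a))
        (f := fun R : ((setLang C ℓ K).sum L₂).Structure (Fin m) =>
            σ * (ind {M} R - p * ind {R | redR R = M₂} R))
        (measurable_of_countable _).aemeasurable
        (measurable_of_countable _).aestronglyMeasurable, law_comap]
      rw [integral_const_mul, integral_sub Integrable.of_finite Integrable.of_finite,
        integral_const_mul, integral_ind (A := {M}) trivial,
        integral_ind (A := {R | redR R = M₂}) trivial]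
      have e5 : (N'.law μ' (Fin m)).real {R | redR R = M₂} = p₂ := by
        simp only [p₂]
        rw [← h2 m, ← law_reductR]
        unfold Measure.real
        have e6 : MeasurableSet ({M₂} : Set (L₂.Structure (Fin m))) := trivial
        rw [Measure.map_apply (measurable_of_countable _) e6]
        rfl
      rw [e5]
    rw [Finset.sum_congr rfl fun a _ => hone a]
    simp only [Finset.sum_const, Finset.card_univ, J, Fintype.card_fun, Fintype.card_fin,
      nsmul_eq_mul]
    push_cast
    ring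
  have hEA : ∫ T, A (redL T) ∂(N'.law μ' V) = ∫ M', A M' ∂(N₁.law μ V) := by
    rw [← h1, ← law_reductL, integral_map (measurable_of_countable _).aemeasurable
      (measurable_of_countable _).aestronglyMeasurable]
  have hED : ∫ T, D (redR T) ∂(N'.law μ' V) = ∫ M', D M' ∂(N₂.law μ₂ V) := by
    rw [← h2, ← law_reductR, integral_map (measurable_of_countable _).aemeasurable
      (measurable_of_countable _).aestronglyMeasurable]
  have hDle : ∫ M', D M' ∂(N₂.law μ₂ V) ≤ (q : ℝ) ^ (ℓ + 1) * (δ / 2) := by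
    unfold Peons.law
    rw [integral_map (measurable_str N₂ V).aemeasurable
      (measurable_of_countable _).aestronglyMeasurable]
    let bad : Set (NE (Fin m) → X₂) := lowr ⁻¹' (A₂ ∆ {x | (fun i => col (x i)) ∈ G})
    have hbadm : MeasurableSet bad := measurable_lowr (hA₂.symmDiff hGm)
    have hbad : (iid μ₂ (Fin m)).real bad < δ / 2 := by
      have : (iid μ₂ (Fin m)).real bad =
          (lowLaw μ₂ ℓ (Fin m)).real (A₂ ∆ {x | (fun i => col (x i)) ∈ G}) := by
        unfold Measure.real
        rw [← map_lowr, Measure.map_apply measurable_lowr (hA₂.symmDiff hGm)]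
      rw [this]
      exact hGlt
    let κθ : (NE V → X₂) → (Low ℓ V → C') := fun θ A => col (θ A.1)
    have hstep : ∀ θ : NE V → X₂, D (N₂.str V θ) ≤ ∑ a : J, ind bad (pull (s a) θ) := by
      intro θ
      have h3 : D (N₂.str V θ) ≤ ∑ a : J, |Z (N₂.str V θ) a - g (κθ θ) a| :=
        Finset.inf'_le (fun κ : Low ℓ V → C' => ∑ a : J, |Z (N₂.str V θ) a - g κ a|)
          (Finset.mem_univ (κθ θ))
      refine h3.trans (Finset.sum_le_sum fun a _ => ?_)
      have hZ : Z (N₂.str V θ) a = ind A₂ (lowr (pull (s a) θ)) := by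
        apply ind_congr
        rw [hA₂', ← comapStr_str]
        exact Iff.rfl
      have hg' : g (κθ θ) a = ind {x : Low ℓ (Fin m) → X₂ | (fun i => col (x i)) ∈ G}
          (lowr (pull (s a) θ)) := by
        apply ind_congr
        exact Iff.rfl
      rw [hZ, hg']
      have hb : ∀ (y : Low ℓ (Fin m) → X₂) (B₁ B₂ : Set (Low ℓ (Fin m) → X₂)),
          |ind B₁ y - ind B₂ y| ≤ ind (B₁ ∆ B₂) y := by
        intro y B₁ B₂
        unfold ind
        by_cases c1 : y ∈ B₁ <;> by_cases c2 : y ∈ B₂ <;>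
          simp [c1, c2, Set.mem_symmDiff]
      refine (hb _ _ _).trans (le_of_eq ?_)
      apply ind_congr
      exact Iff.rfl
    have hintbad : ∀ a : J, Integrable (fun θ => ind bad (pull (s a) θ)) (iid μ₂ V) := by
      intro a
      apply Integrable.of_bound
        ((measurable_ind hbadm).comp (measurable_pull _)).aestronglyMeasurable 1
      exact Filter.Eventually.of_forall fun θ => by
        change |ind bad (pull (s a) θ)| ≤ 1
        rw [abs_of_nonneg (ind_nonneg _ _)]
        exact ind_le_one _ _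
    calc ∫ θ, D (N₂.str V θ) ∂(iid μ₂ V) ≤ ∫ θ, ∑ a : J, ind bad (pull (s a) θ) ∂(iid μ₂ V) := by
          apply integral_mono_of_nonneg
          · refine Filter.Eventually.of_forall fun θ => ?_
            apply Finset.le_inf'
            intro κ _
            exact Finset.sum_nonneg fun a _ => abs_nonneg _
          · exact integrable_finsetSum _ fun a _ => hintbad a
          · exact Filter.Eventually.of_forall hstep
      _ = (q : ℝ) ^ (ℓ + 1) * (iid μ₂ (Fin m)).real bad := by
          rw [integral_finsetSum _ fun a _ => hintbad a]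
          have hone : ∀ a : J, ∫ θ, ind bad (pull (s a) θ) ∂(iid μ₂ V) =
              (iid μ₂ (Fin m)).real bad := by
            intro a
            rw [← integral_ind hbadm, ← map_pull μ₂ (s a),
              integral_map (measurable_pull _).aemeasurable (measurable_ind hbadm).aestronglyMeasurable]
          rw [Finset.sum_congr rfl fun a _ => hone a]
          simp only [Finset.sum_const, Finset.card_univ, J, Fintype.card_fun, Fintype.card_fin,
            nsmul_eq_mul]
          push_cast
          ring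
      _ ≤ (q : ℝ) ^ (ℓ + 1) * (δ / 2) :=
          mul_le_mul_of_nonneg_left hbad.le (by positivity)
  have hElow : (q : ℝ) ^ (ℓ + 1) * (δ / 2) ≤ ∫ M', A M' ∂(N₁.law μ V) := by
    have h3 : ∫ T, ∑ a : J, Z (redR T) a * d (redL T) a ∂(N'.law μ' V) ≤
        ∫ T, (A (redL T) + D (redR T)) ∂(N'.law μ' V) := by
      apply integral_mono Integrable.of_finite Integrable.of_finite
      intro T
      exact hpt (redL T) (redR T)
    rw [integral_add Integrable.of_finite Integrable.of_finite, hEA, hED, hEmain] at h3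
    nlinarith
  -- exponential bound
  have hexp1 : Real.exp (lam * (δ / 2 * (q : ℝ) ^ (ℓ + 1))) ≤
      ∫ M', Real.exp (lam * A M') ∂(N₁.law μ V) := by
    refine le_trans ?_ (exp_integral_le (N₁.law μ V) (fun M' => lam * A M')
      Integrable.of_finite Integrable.of_finite)
    apply Real.exp_le_exp.2
    rw [integral_const_mul]
    apply mul_le_mul_of_nonneg_left _ hl0.le
    linarith
  have hexp2 : ∫ M', Real.exp (lam * A M') ∂(N₁.law μ V) ≤
      ∫ M', ∑ κ : Low ℓ V → C', Real.exp (lam * ∑ a : J, g κ a * d M' a) ∂(N₁.law μ V) := by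
    apply integral_mono Integrable.of_finite Integrable.of_finite
    intro M'
    obtain ⟨κ, -, hκ⟩ := Finset.exists_mem_eq_sup' hneκ
      (fun κ : Low ℓ V → C' => ∑ a : J, g κ a * d M' a)
    have hA' : A M' = ∑ a : J, g κ a * d M' a := hκ
    simp only [hA']
    exact Finset.single_le_sum (f := fun κ => Real.exp (lam * ∑ a : J, g κ a * d M' a))
      (fun κ _ => (Real.exp_pos _).le) (Finset.mem_univ κ)
  have hg1 : ∀ κ a, |g κ a| ≤ 1 := by
    intro κ a
    rw [abs_of_nonneg (ind_nonneg _ _)]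
    exact ind_le_one _ _
  have hdf : ∀ (θ : NE V → X) (a : J), d (N₁.str V θ) a = f (upc (s a) θ) := by
    intro θ a
    have : upc (s a) θ = upr (ℓ := ℓ) (pull (s a) θ) := rfl
    rw [this, hfupr]
    simp only [d]
    congr 2
    apply ind_congr
    rw [Set.mem_preimage, Set.mem_singleton_iff, ← comapStr_str]
    exact Iff.rfl
  have hexp3 : ∫ M', ∑ κ : Low ℓ V → C', Real.exp (lam * ∑ a : J, g κ a * d M' a) ∂(N₁.law μ V) ≤
      ((Nat.card C' ^ Nat.card (Low ℓ V) : ℕ) : ℝ) * Real.exp (lam ^ 2 * (q : ℝ) ^ (ℓ + 1)) := by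
    rw [integral_finsetSum _ fun κ _ => Integrable.of_finite]
    calc ∑ κ : Low ℓ V → C', ∫ M', Real.exp (lam * ∑ a : J, g κ a * d M' a) ∂(N₁.law μ V)
        ≤ ∑ _κ : Low ℓ V → C', Real.exp (lam ^ 2 * (q : ℝ) ^ (ℓ + 1)) := by
          apply Finset.sum_le_sum
          intro κ _
          unfold Peons.law
          rw [integral_map (measurable_str N₁ V).aemeasurable
            (measurable_of_countable _).aestronglyMeasurable]
          simp only [hdf]
          exact exp_moment μ ℓ q m f hf hf1 hf0 (fun a => g κ a) (fun a => hg1 κ a)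
            lam hl0.le hl1
      _ = _ := by
          rw [Finset.sum_const, Finset.card_univ, nsmul_eq_mul]
          congr 2
          rw [← Nat.card_eq_fintype_card, Nat.card_fun]
  exact (hexp1.trans hexp2).trans hexp3

end Pool.Agent.UC
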