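import Pool.Agent.Hhelper37.UCSet

set_option autoImplicit false

open MeasureTheory ProbabilityTheory FirstOrder FirstOrder.Language
open scoped ENNReal

namespace Pool.Agent.UC

/-- the coordinates of index size `> ℓ` -/
def upr {X : Type} {ℓ : ℕ} {U : Type} (θ : NE U → X) : Up ℓ U → X := fun B => θ B.1

theorem measurable_upr {X : Type} [MeasurableSpace X] {ℓ : ℕ} {U : Type} :
    Measurable (upr : (NE U → X) → (Up ℓ U → X)) := by
  unfold upr; fun_prop

theorem map_upr {X : Type} [MeasurableSpace X] (μ : Measure X) [IsProbabilityMeasure μ]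
    {ℓ : ℕ} {U : Type} : (iid μ U).map (upr (ℓ := ℓ)) = upLaw μ ℓ U := by
  unfold iid upr upLaw
  exact Measure.map_infinitePi_infinitePi_of_inj (P := fun _ : NE U => μ)
    (f := fun B : Up ℓ U => B.1) (fun B B' h => Subtype.ext h)

/-- From the exponential inequality to the contradiction. -/
theorem final_contra (ℓ D : ℕ) (c : ℕ) (hc : 0 < c) (δ : ℝ) (hδ : 0 < δ)
    (h : ∀ q : ℕ, ∀ lam : ℝ, 0 < lam → lam ≤ 1 → ∃ k : ℕ, k ≤ (D * q) ^ ℓ ∧
      Real.exp (lam * (δ * (q : ℝ) ^ (ℓ + 1))) ≤
        ((c ^ k : ℕ) : ℝ) * Real.exp (lam ^ 2 * (q : ℝ) ^ (ℓ + 1))) : False := by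
  apply numeric_contra ℓ D (Real.log c) δ hδ
  intro q lam hl0 hl1
  obtain ⟨k, hk, hle⟩ := h q lam hl0 hl1
  have hc' : (0 : ℝ) < c := by exact_mod_cast hc
  have h1 := Real.log_le_log (Real.exp_pos _) hle
  rw [Real.log_exp, Real.log_mul (by positivity) (Real.exp_pos _).ne', Real.log_exp] at h1
  have h2 : Real.log (((c ^ k : ℕ)) : ℝ) = k * Real.log c := by
    push_cast
    rw [Real.log_pow]
  have h3 : (k : ℝ) ≤ ((D * q : ℕ) : ℝ) ^ ℓ := by exact_mod_cast hk
  have h4 : 0 ≤ Real.log c := Real.log_nonneg (by exact_mod_cast hc)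
  rw [h2] at h1
  nlinarith

variable {L : FirstOrder.Language.{0, 0}} [L.IsRelational] [Finite (Σ k, L.Relations k)]
  {X : Type} [MeasurableSpace X]

theorem ind_str_relMap {V : Type} {k : ℕ} (N : Peons L X) (P : L.Relations k) (s : Fin k ↪ V)
    (θ : NE V → X) :
    (N.str V θ).RelMap P s ↔ pull s θ ∈ N.peon P := by
  constructor
  · rintro ⟨_, h⟩
    exact h
  · intro h
    exact ⟨s.injective, h⟩

theorem card_le_of_NE {k : ℕ} (B : NE (Fin k)) : B.1.card ≤ k := by
  have := Finset.card_le_univ B.1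
  simpa using this

theorem partB {k : ℕ} (P : L.Relations k) (N : Peons L X) (μ : Measure X) [IsProbabilityMeasure μ]
    (ℓ : ℕ) (s : NE (Fin k) → Set X) (hs : ∀ B, MeasurableSet (s B))
    (hind : ∀ n : ℕ, (iid μ (Fin n)).map
        (fun θ => (N.str (Fin n) θ, (setPeons s hs ℓ k).str (Fin n) θ))
      = (N.law μ (Fin n)).prod ((setPeons s hs ℓ k).law μ (Fin n))) :
    ∫ x, ind (N.peon P) x * ind (boxLow ℓ s) x *
      (ind (boxUp ℓ s) (upr x) - (upLaw μ ℓ (Fin k)).real (boxUp ℓ s)) ∂(iid μ (Fin k)) = 0 := by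
  classical
  by_contra hne
  set δ0 := ∫ x, ind (N.peon P) x * ind (boxLow ℓ s) x *
      (ind (boxUp ℓ s) (upr x) - (upLaw μ ℓ (Fin k)).real (boxUp ℓ s)) ∂(iid μ (Fin k)) with hδ0
  set p := (upLaw μ ℓ (Fin k)).real (boxUp ℓ s) with hp
  have hp0 : 0 ≤ p := measureReal_nonneg
  have hp1 : p ≤ 1 := measureReal_le_one
  obtain ⟨σ, hσ, hσδ⟩ : ∃ σ : ℝ, (σ = 1 ∨ σ = -1) ∧ 0 < σ * δ0 := by
    rcases lt_or_gt_of_ne hne with h | h
    · exact ⟨-1, Or.inr rfl, by linarith⟩
    · exact ⟨1, Or.inl rfl, by linarith⟩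
  have hmW : Measurable (ind (N.peon P)) := measurable_ind (N.measurableSet_peon P)
  have hmL : Measurable (ind (boxLow ℓ s)) := measurable_ind (measurableSet_boxLow ℓ s hs)
  have hmU : Measurable (ind (boxUp ℓ s)) := measurable_ind (measurableSet_boxUp ℓ s hs)
  let f : (Up ℓ (Fin k) → X) → ℝ := fun y => σ * (ind (boxUp ℓ s) y - p)
  have hf : Measurable f := (hmU.sub_const p).const_mul σ
  have hf1 : ∀ y, |f y| ≤ 1 := by
    intro y
    have h1 := ind_nonneg (boxUp ℓ s) y
    have h2 := ind_le_one (boxUp ℓ s) y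
    simp only [f, abs_mul]
    have h3 : |σ| = 1 := by rcases hσ with h | h <;> simp [h]
    rw [h3, one_mul, abs_le]
    constructor <;> linarith
  have hf0 : ∫ y, f y ∂(upLaw μ ℓ (Fin k)) = 0 := by
    simp only [f]
    have hi : Integrable (ind (boxUp ℓ s)) (upLaw μ ℓ (Fin k)) :=
      Integrable.of_bound hmU.aestronglyMeasurable 1 (Filter.Eventually.of_forall fun y => by
        rw [Real.norm_eq_abs, abs_of_nonneg (ind_nonneg _ _)]
        exact ind_le_one _ _)
    rw [integral_const_mul, integral_sub hi (integrable_const _),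
      integral_ind (measurableSet_boxUp ℓ s hs), ← hp]
    simp
  let c : ℕ := Nat.card (Set (NE (Fin k)))
  have hc : 0 < c := Nat.card_pos
  refine final_contra ℓ (DD ℓ k) c hc (σ * δ0) hσδ ?_
  intro q lam hl0 hl1
  let V := Fin (DD ℓ k * q)
  let J := Fin (ℓ + 1) → Fin q
  let S : J → (Fin k ↪ V) := inj ℓ q k
  refine ⟨Nat.card (Low ℓ V), card_low ℓ _, ?_⟩
  -- the relevant statistics
  let u : L.Structure V → J → ℝ := fun M a => ind {M : L.Structure V | M.RelMap P (S a)} M
  let F : (setLang (NE (Fin k)) ℓ k).Structure V → J → ℝ := fun M' a =>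
    σ * (ind {M' : (setLang (NE (Fin k)) ℓ k).Structure V | ∀ B : Up ℓ (Fin k),
      M'.RelMap (n := B.1.1.card) (⟨B.1, ⟨B.2, card_le_of_NE B.1⟩⟩ :
        {_c : NE (Fin k) // ℓ < B.1.1.card ∧ B.1.1.card ≤ k}) (S a ∘ enum B.1)} M' - p)
  let z : (Low ℓ V → Set (NE (Fin k))) → J → ℝ := fun κ a =>
    ind {κ : Low ℓ V → Set (NE (Fin k)) | ∀ B : Low ℓ (Fin k),
      B.1 ∈ κ ⟨NE.map (S a) B.1, by rw [NE.map_val, Finset.card_map]; exact B.2⟩} κ
  have hfinLow : Finite (Low ℓ V) := inferInstance
  let _ : Fintype (Low ℓ V → Set (NE (Fin k))) := Fintype.ofFinite _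
  let Φ : L.Structure V × (setLang (NE (Fin k)) ℓ k).Structure V → ℝ := fun MM =>
    ∑ κ : Low ℓ V → Set (NE (Fin k)), Real.exp (lam * ∑ a : J, (u MM.1 a * z κ a) * F MM.2 a)
  -- identification of the statistics on the random structures
  have hF : ∀ θ a, F ((setPeons s hs ℓ k).str V θ) a = f (upc (S a) θ) := by
    intro θ a
    simp only [F, f]
    congr 2
    apply ind_congr
    simp only [Set.mem_setOf_eq, boxUp]
    apply forall_congr'
    intro B
    exact set_relMap s hs (S a) B.1 ⟨B.2, card_le_of_NE B.1⟩ B.1 θ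
  have hu : ∀ θ a, u (N.str V θ) a = ind (N.peon P) (pull (S a) θ) := by
    intro θ a
    apply ind_congr
    exact ind_str_relMap N P (S a) θ
  let κθ : (NE V → X) → (Low ℓ V → Set (NE (Fin k))) := fun θ A => {B | θ A.1 ∈ s B}
  have hz : ∀ θ a, z (κθ θ) a = ind (boxLow ℓ s) (pull (S a) θ) := by
    intro θ a
    apply ind_congr
    exact Iff.rfl
  have hu0 : ∀ M a, 0 ≤ u M a := fun M a => ind_nonneg _ _
  have hu1 : ∀ M a, u M a ≤ 1 := fun M a => ind_le_one _ _
  have hz0 : ∀ κ a, 0 ≤ z κ a := fun M a => ind_nonneg _ _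
  have hz1 : ∀ κ a, z κ a ≤ 1 := fun M a => ind_le_one _ _
  have huz : ∀ M κ a, |u M a * z κ a| ≤ 1 := by
    intro M κ a
    rw [abs_of_nonneg (mul_nonneg (hu0 M a) (hz0 κ a))]
    exact mul_le_one₀ (hu1 M a) (hz0 κ a) (hz1 κ a)
  -- the exponent
  let g : (NE (Fin k) → X) → ℝ := fun x => ind (N.peon P) x * ind (boxLow ℓ s) x * f (upr x)
  have hg : Measurable g := (hmW.mul hmL).mul (hf.comp measurable_upr)
  have hg1 : ∀ x, |g x| ≤ 1 := by
    intro x
    simp only [g, abs_mul]
    rw [abs_of_nonneg (ind_nonneg _ _), abs_of_nonneg (ind_nonneg _ _)]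
    have h1 := mul_le_one₀ (ind_le_one (N.peon P) x) (ind_nonneg (boxLow ℓ s) x) (ind_le_one _ x)
    exact mul_le_one₀ h1 (abs_nonneg _) (hf1 _)
  let Y : (NE V → X) → ℝ := fun θ => lam * ∑ a : J, g (pull (S a) θ)
  have hYm : Measurable Y := by
    apply Measurable.const_mul
    apply Finset.measurable_sum
    intro a _
    exact hg.comp (measurable_pull _)
  have hYb : ∀ θ, |Y θ| ≤ Fintype.card J := by
    intro θ
    simp only [Y, abs_mul, abs_of_pos hl0]
    have h1 : |∑ a : J, g (pull (S a) θ)| ≤ Fintype.card J := by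
      refine (Finset.abs_sum_le_sum_abs _ _).trans ?_
      calc ∑ a : J, |g (pull (S a) θ)| ≤ ∑ _a : J, (1 : ℝ) := Finset.sum_le_sum fun a _ => hg1 _
        _ = Fintype.card J := by simp
    calc lam * |∑ a : J, g (pull (S a) θ)| ≤ 1 * (Fintype.card J : ℝ) :=
          mul_le_mul hl1 h1 (abs_nonneg _) zero_le_one
      _ = _ := one_mul _
  have hYint : Integrable Y (iid μ V) :=
    Integrable.of_bound hYm.aestronglyMeasurable (Fintype.card J) (Filter.Eventually.of_forall hYb)
  have hexpint : Integrable (fun θ => Real.exp (Y θ)) (iid μ V) := by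
    apply Integrable.of_bound hYm.exp.aestronglyMeasurable (Real.exp (Fintype.card J))
    refine Filter.Eventually.of_forall fun θ => ?_
    rw [Real.norm_eq_abs, abs_of_pos (Real.exp_pos _)]
    exact Real.exp_le_exp.2 ((le_abs_self _).trans (hYb θ))
  have hgint : Integrable g (iid μ (Fin k)) :=
    Integrable.of_bound hg.aestronglyMeasurable 1 (Filter.Eventually.of_forall hg1)
  have hEg : ∫ x, g x ∂(iid μ (Fin k)) = σ * δ0 := by
    rw [hδ0, ← integral_const_mul]
    congr 1
    funext x
    simp only [g, f]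
    ring
  have hEY : ∫ θ, Y θ ∂(iid μ V) = lam * (σ * δ0 * (q : ℝ) ^ (ℓ + 1)) := by
    simp only [Y]
    rw [integral_const_mul, integral_finset_sum]
    · have h1 : ∀ a : J, ∫ θ, g (pull (S a) θ) ∂(iid μ V) = σ * δ0 := by
        intro a
        rw [← hEg, ← map_pull μ (S a), integral_map (measurable_pull _).aemeasurable
          hg.aestronglyMeasurable]
      rw [Finset.sum_congr rfl fun a _ => h1 a]
      simp only [Finset.sum_const, Finset.card_univ, J, Fintype.card_fun, Fintype.card_fin,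
        nsmul_eq_mul]
      push_cast
      ring
    · intro a _
      apply Integrable.of_bound (hg.comp (measurable_pull _)).aestronglyMeasurable 1
      exact Filter.Eventually.of_forall fun θ => hg1 _
  -- first inequality
  have hlow : Real.exp (lam * (σ * δ0 * (q : ℝ) ^ (ℓ + 1))) ≤ ∫ θ, Real.exp (Y θ) ∂(iid μ V) := by
    rw [← hEY]
    exact exp_integral_le _ Y hYint hexpint
  have hYΦ : ∀ θ, Real.exp (Y θ) ≤ Φ (N.str V θ, (setPeons s hs ℓ k).str V θ) := by
    intro θ
    have h1 : Y θ = lam * ∑ a : J, (u (N.str V θ) a * z (κθ θ) a) *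
        F ((setPeons s hs ℓ k).str V θ) a := by
      simp only [Y]
      congr 1
      apply Finset.sum_congr rfl
      intro a _
      rw [hF, hu, hz]
      rfl
    rw [h1]
    exact Finset.single_le_sum (f := fun κ => Real.exp (lam * ∑ a : J,
      (u (N.str V θ) a * z κ a) * F ((setPeons s hs ℓ k).str V θ) a))
      (fun κ _ => (Real.exp_pos _).le) (Finset.mem_univ (κθ θ))
  have hmN : Measurable (N.str V) := measurable_str N V
  have hmS : Measurable ((setPeons s hs ℓ k).str V) := measurable_str _ V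
  have hpair : Measurable (fun θ : NE V → X => (N.str V θ, (setPeons s hs ℓ k).str V θ)) :=
    hmN.prodMk hmS
  have hcount : Countable (L.Structure V × (setLang (NE (Fin k)) ℓ k).Structure V) :=
    Finite.to_countable
  have hΦm : Measurable Φ := measurable_of_countable _
  have hΦint : ∀ ν : Measure (L.Structure V × (setLang (NE (Fin k)) ℓ k).Structure V),
      ∀ [IsProbabilityMeasure ν], Integrable Φ ν := by
    intro ν _
    exact Integrable.of_finite
  have hmid : ∫ θ, Real.exp (Y θ) ∂(iid μ V) ≤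
      ∫ MM, Φ MM ∂((N.law μ V).prod ((setPeons s hs ℓ k).law μ V)) := by
    rw [← hind, integral_map hpair.aemeasurable hΦm.aestronglyMeasurable]
    apply integral_mono hexpint _ hYΦ
    have : IsProbabilityMeasure ((iid μ V).map
        (fun θ => (N.str V θ, (setPeons s hs ℓ k).str V θ))) :=
      Measure.isProbabilityMeasure_map hpair.aemeasurable
    exact (hΦint ((iid μ V).map (fun θ => (N.str V θ, (setPeons s hs ℓ k).str V θ)))).comp_measurable
      hpair
  have hfix : ∀ M : L.Structure V, ∫ M', Φ (M, M') ∂((setPeons s hs ℓ k).law μ V) ≤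
      ((c ^ Nat.card (Low ℓ V) : ℕ) : ℝ) * Real.exp (lam ^ 2 * (q : ℝ) ^ (ℓ + 1)) := by
    intro M
    unfold Peons.law
    have hcount' : Countable ((setLang (NE (Fin k)) ℓ k).Structure V) := Finite.to_countable
    rw [integral_map hmS.aemeasurable (measurable_of_countable _).aestronglyMeasurable]
    simp only [Φ]
    rw [integral_finset_sum]
    · calc ∑ κ : Low ℓ V → Set (NE (Fin k)), ∫ θ, Real.exp (lam * ∑ a : J,
              (u M a * z κ a) * F ((setPeons s hs ℓ k).str V θ) a) ∂(iid μ V)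
          ≤ ∑ _κ : Low ℓ V → Set (NE (Fin k)), Real.exp (lam ^ 2 * (q : ℝ) ^ (ℓ + 1)) := by
            apply Finset.sum_le_sum
            intro κ _
            simp only [hF]
            exact exp_moment μ ℓ q k f hf hf1 hf0 (fun a => u M a * z κ a) (fun a => huz M κ a)
              lam hl0.le hl1
        _ = _ := by
            rw [Finset.sum_const, Finset.card_univ, nsmul_eq_mul]
            congr 2
            rw [← Nat.card_eq_fintype_card, Nat.card_fun]
    · intro κ _
      simp only [hF]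
      have hm : Measurable fun θ : NE V → X => lam * ∑ a : J, (u M a * z κ a) * f (upc (S a) θ) := by
        apply Measurable.const_mul
        apply Finset.measurable_sum
        intro a _
        apply Measurable.const_mul
        apply hf.comp
        unfold upc
        fun_prop
      apply Integrable.of_bound hm.exp.aestronglyMeasurable (Real.exp (Fintype.card J))
      refine Filter.Eventually.of_forall fun θ => ?_
      rw [Real.norm_eq_abs, abs_of_pos (Real.exp_pos _)]
      apply Real.exp_le_exp.2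
      refine (le_abs_self _).trans ?_
      rw [abs_mul, abs_of_pos hl0]
      have h1 : |∑ a : J, (u M a * z κ a) * f (upc (S a) θ)| ≤ Fintype.card J := by
        refine (Finset.abs_sum_le_sum_abs _ _).trans ?_
        calc ∑ a : J, |(u M a * z κ a) * f (upc (S a) θ)| ≤ ∑ _a : J, (1 : ℝ) := by
              apply Finset.sum_le_sum
              intro a _
              rw [abs_mul]
              exact mul_le_one₀ (huz M κ a) (abs_nonneg _) (hf1 _)
          _ = Fintype.card J := by simp
      calc lam * |∑ a : J, (u M a * z κ a) * f (upc (S a) θ)| ≤ 1 * (Fintype.card J : ℝ) :=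
            mul_le_mul hl1 h1 (abs_nonneg _) zero_le_one
        _ = _ := one_mul _
  have hprod : ∫ MM, Φ MM ∂((N.law μ V).prod ((setPeons s hs ℓ k).law μ V)) ≤
      ((c ^ Nat.card (Low ℓ V) : ℕ) : ℝ) * Real.exp (lam ^ 2 * (q : ℝ) ^ (ℓ + 1)) := by
    rw [integral_prod _ (hΦint _)]
    calc ∫ M, ∫ M', Φ (M, M') ∂((setPeons s hs ℓ k).law μ V) ∂(N.law μ V)
        ≤ ∫ _M, ((c ^ Nat.card (Low ℓ V) : ℕ) : ℝ) * Real.exp (lam ^ 2 * (q : ℝ) ^ (ℓ + 1))
            ∂(N.law μ V) := by
          apply integral_mono Integrable.of_finite (integrable_const _)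
          intro M
          exact hfix M
      _ = _ := by simp
  exact (hlow.trans hmid).trans hprod

end Pool.Agent.UC
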