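import Pool.Agent.Hhelper37.UCFamily

set_option autoImplicit false

open MeasureTheory ProbabilityTheory FirstOrder FirstOrder.Language
open scoped ENNReal

namespace Pool.Agent.UC

/-- For each `c : C` and each arity `n` with `ℓ < n ≤ K`, one predicate symbol of arity `n`. -/
def setLang (C : Type) (ℓ K : ℕ) : FirstOrder.Language.{0, 0} :=
  ⟨fun _ => Empty, fun n => {_c : C // ℓ < n ∧ n ≤ K}⟩

instance setLang_rel (C : Type) (ℓ K : ℕ) : (setLang C ℓ K).IsRelational :=
  fun _ => (inferInstance : IsEmpty Empty)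

instance setLang_fin (C : Type) [Finite C] (ℓ K : ℕ) :
    Finite (Σ k, (setLang C ℓ K).Relations k) := by
  let f : (Σ k, (setLang C ℓ K).Relations k) → C × Fin (K + 1) :=
    fun p => (p.2.1, ⟨p.1, Nat.lt_succ_of_le p.2.2.2⟩)
  apply Finite.of_injective f
  rintro ⟨k, c, hc⟩ ⟨k', c', hc'⟩ h
  simp only [f, Prod.mk.injEq, Fin.mk.injEq] at h
  obtain ⟨rfl, rfl⟩ := h
  rfl

/-- the full set -/
def topNE (n : ℕ) (h : 0 < n) : NE (Fin n) := ⟨Finset.univ, ⟨⟨0, h⟩, Finset.mem_univ _⟩⟩

/-- peons that record the membership of `θ_A` in the sets `S c`, for `ℓ < |A| ≤ K` -/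
def setPeons {C X : Type} [MeasurableSpace X] (S : C → Set X) (hS : ∀ c, MeasurableSet (S c))
    (ℓ K : ℕ) : Peons (setLang C ℓ K) X where
  peon := fun {n} P => {x | x (topNE n (lt_of_le_of_lt (Nat.zero_le ℓ) P.2.1)) ∈ S P.1}
  measurableSet_peon := fun {n} P => (measurable_pi_apply _) (hS P.1)

/-- enumeration of a nonempty finite subset of `Fin m` -/
def enum {m : ℕ} (B : NE (Fin m)) : Fin B.1.card ↪ Fin m :=
  (B.1.orderEmbOfFin rfl).toEmbedding

theorem map_enum {m : ℕ} {V : Type} (s : Fin m ↪ V) (B : NE (Fin m)) (h : 0 < B.1.card) :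
    NE.map ((enum B).trans s) (topNE B.1.card h) = NE.map s B := by
  apply Subtype.ext
  change Finset.univ.map ((enum B).trans s) = B.1.map s
  rw [← Finset.map_map]
  congr 1
  unfold enum
  ext x
  simp only [Finset.mem_map, Finset.mem_univ, true_and, RelEmbedding.coe_toEmbedding]
  constructor
  · rintro ⟨i, rfl⟩
    exact Finset.orderEmbOfFin_mem _ _ _
  · intro hx
    have : x ∈ Set.range (B.1.orderEmbOfFin rfl) := by
      rw [Finset.range_orderEmbOfFin]; exact hx
    exact this

theorem set_relMap {C X : Type} [MeasurableSpace X] (S : C → Set X) (hS : ∀ c, MeasurableSet (S c))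
    {ℓ K m : ℕ} {V : Type} (s : Fin m ↪ V) (B : NE (Fin m)) (hB : ℓ < B.1.card ∧ B.1.card ≤ K)
    (c : C) (θ : NE V → X) :
    ((setPeons S hS ℓ K).str V θ).RelMap (n := B.1.card)
      (⟨c, hB⟩ : {_c : C // ℓ < B.1.card ∧ B.1.card ≤ K}) (s ∘ enum B) ↔
      θ (NE.map s B) ∈ S c := by
  have hpos : 0 < B.1.card := by omega
  have key := map_enum s B hpos
  constructor
  · rintro ⟨_, h⟩
    have h' : θ (NE.map ((enum B).trans s) (topNE B.1.card hpos)) ∈ S c := h
    rwa [key] at h'
  · intro h
    refine ⟨s.injective.comp (enum B).injective, ?_⟩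
    change θ (NE.map ((enum B).trans s) (topNE B.1.card hpos)) ∈ S c
    rwa [key]

/-- `setPeons` as a `T`-on of the empty theory -/
def setTOn {C X : Type} [mX : MeasurableSpace X] (S : C → Set X) (hS : ∀ c, MeasurableSet (S c))
    (ℓ K : ℕ) (μ : Measure X) [hμ : IsProbabilityMeasure μ] :
    TOn (∅ : (setLang C ℓ K).Theory) where
  X := X
  mX := mX
  μ := μ
  prob := hμ
  peons := setPeons S hS ℓ K
  ae_model := Filter.Eventually.of_forall fun θ =>
    @FirstOrder.Language.model_empty (setLang C ℓ K) ℕ ((setPeons S hS ℓ K).str ℕ θ)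

/-- the join of two families of peons over the same space -/
def joinPeons {L₁ L₂ : FirstOrder.Language.{0, 0}} {X : Type} [MeasurableSpace X]
    (N₁ : Peons L₁ X) (N₂ : Peons L₂ X) : Peons (L₁.sum L₂) X where
  peon := fun {k} P => match P with
    | Sum.inl P => N₁.peon P
    | Sum.inr P => N₂.peon P
  measurableSet_peon := fun {k} P => by
    rcases P with P | P
    · exact N₁.measurableSet_peon P
    · exact N₂.measurableSet_peon P

section partB

variable {L : FirstOrder.Language.{0, 0}} [L.IsRelational] [Finite (Σ k, L.Relations k)]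
  {X : Type} [MeasurableSpace X]

/-- the set of points whose coordinates of index size `≤ ℓ` lie in the box -/
def boxLow {k : ℕ} (ℓ : ℕ) (s : NE (Fin k) → Set X) : Set (NE (Fin k) → X) :=
  {x | ∀ B : Low ℓ (Fin k), x B.1 ∈ s B.1}

/-- the box in the coordinates of index size `> ℓ` -/
def boxUp {k : ℕ} (ℓ : ℕ) (s : NE (Fin k) → Set X) : Set (Up ℓ (Fin k) → X) :=
  {y | ∀ B : Up ℓ (Fin k), y B ∈ s B.1}

theorem measurableSet_boxLow {k : ℕ} (ℓ : ℕ) (s : NE (Fin k) → Set X)
    (hs : ∀ B, MeasurableSet (s B)) : MeasurableSet (boxLow ℓ s) := by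
  have : boxLow ℓ s = ⋂ B : Low ℓ (Fin k), {x | x B.1 ∈ s B.1} := by
    ext x; simp [boxLow]
  rw [this]
  exact MeasurableSet.iInter fun B => (measurable_pi_apply _) (hs _)

theorem measurableSet_boxUp {k : ℕ} (ℓ : ℕ) (s : NE (Fin k) → Set X)
    (hs : ∀ B, MeasurableSet (s B)) : MeasurableSet (boxUp ℓ s) := by
  have : boxUp ℓ s = ⋂ B : Up ℓ (Fin k), {y | y B ∈ s B.1} := by
    ext x; simp [boxUp]
  rw [this]
  exact MeasurableSet.iInter fun B => (measurable_pi_apply _) (hs _)

open Classical in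
/-- indicator function of a set, with real values -/
noncomputable def ind {α : Type} (A : Set α) (x : α) : ℝ := if x ∈ A then 1 else 0

theorem ind_nonneg {α : Type} (A : Set α) (x : α) : 0 ≤ ind A x := by
  unfold ind; split_ifs <;> norm_num

theorem ind_le_one {α : Type} (A : Set α) (x : α) : ind A x ≤ 1 := by
  unfold ind; split_ifs <;> norm_num

theorem ind_congr {α β : Type} {A : Set α} {B : Set β} {x : α} {y : β} (h : x ∈ A ↔ y ∈ B) :
    ind A x = ind B y := by
  unfold ind
  by_cases hx : x ∈ A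
  · rw [if_pos hx, if_pos (h.1 hx)]
  · rw [if_neg hx, if_neg (fun hy => hx (h.2 hy))]

theorem measurable_ind {α : Type} [MeasurableSpace α] {A : Set α} (hA : MeasurableSet A) :
    Measurable (ind A) := by
  unfold ind
  exact Measurable.ite hA measurable_const measurable_const

theorem integral_ind {α : Type} [MeasurableSpace α] {A : Set α} (hA : MeasurableSet A)
    (ν : Measure α) : ∫ x, ind A x ∂ν = ν.real A := by
  have : ind A = A.indicator (fun _ => (1 : ℝ)) := by
    funext x; unfold ind Set.indicator; congr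
  rw [this, integral_indicator hA]
  simp

/-- the exponential inequality `exp (E Y) ≤ E exp Y` -/
theorem exp_integral_le {α : Type} [MeasurableSpace α] (ν : Measure α) [IsProbabilityMeasure ν]
    (Y : α → ℝ) (hY : Integrable Y ν) (hexp : Integrable (fun x => Real.exp (Y x)) ν) :
    Real.exp (∫ x, Y x ∂ν) ≤ ∫ x, Real.exp (Y x) ∂ν := by
  set t := ∫ x, Y x ∂ν with ht
  have h1 : ∀ x, Real.exp t * (1 + (Y x - t)) ≤ Real.exp (Y x) := by
    intro x
    have h2 := Real.add_one_le_exp (Y x - t)
    calc Real.exp t * (1 + (Y x - t)) ≤ Real.exp t * Real.exp (Y x - t) := by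
          apply mul_le_mul_of_nonneg_left _ (Real.exp_pos _).le
          linarith
      _ = Real.exp (Y x) := by rw [← Real.exp_add]; congr 1; ring
  have h3 : ∫ x, Real.exp t * (1 + (Y x - t)) ∂ν = Real.exp t := by
    rw [integral_const_mul]
    have h4 : ∫ x, (1 + (Y x - t)) ∂ν = 1 := by
      have h5 : ∫ x, (1 + (Y x - t)) ∂ν = ∫ x, ((1 - t) + Y x) ∂ν := by
        congr 1
        funext x
        ring
      rw [h5, integral_add (integrable_const _) hY, ← ht]
      simp
    rw [h4, mul_one]
  rw [← h3]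
  apply integral_mono _ hexp h1
  exact ((integrable_const _).add (hY.sub (integrable_const _))).const_mul _

end partB

end Pool.Agent.UC
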