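import Pool.Agent.Hhelper37.UCLaw

set_option autoImplicit false

open MeasureTheory ProbabilityTheory FirstOrder FirstOrder.Language
open scoped ENNReal

namespace Pool.Agent.UC

section

variable {L₁ L₂ : FirstOrder.Language.{0, 0}} [L₁.IsRelational] [L₂.IsRelational]

/-- reduct of a structure to the first language -/
@[reducible] def redL {U : Type} (S : (L₁.sum L₂).Structure U) : L₁.Structure U where
  funMap := fun f => isEmptyElim f
  RelMap := fun {k} P x => S.RelMap (n := k) (Sum.inl P) x

/-- reduct of a structure to the second language -/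
@[reducible] def redR {U : Type} (S : (L₁.sum L₂).Structure U) : L₂.Structure U where
  funMap := fun f => isEmptyElim f
  RelMap := fun {k} P x => S.RelMap (n := k) (Sum.inr P) x

/-- a structure in the sum language from two structures -/
@[reducible] def joinStr {U : Type} (S₁ : L₁.Structure U) (S₂ : L₂.Structure U) :
    (L₁.sum L₂).Structure U where
  funMap := fun f => isEmptyElim f
  RelMap := fun {k} P x => match P with
    | Sum.inl P => S₁.RelMap (n := k) P x
    | Sum.inr P => S₂.RelMap (n := k) P x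

theorem redL_joinStr {U : Type} (S₁ : L₁.Structure U) (S₂ : L₂.Structure U) :
    redL (joinStr S₁ S₂) = S₁ := by
  apply str_ext; intro k P x; exact Iff.rfl

theorem redR_joinStr {U : Type} (S₁ : L₁.Structure U) (S₂ : L₂.Structure U) :
    redR (joinStr S₁ S₂) = S₂ := by
  apply str_ext; intro k P x; exact Iff.rfl

theorem sum_str_ext {U : Type} {S T : (L₁.sum L₂).Structure U} :
    S = T ↔ redL S = redL T ∧ redR S = redR T := by
  constructor
  · rintro rfl; exact ⟨rfl, rfl⟩
  · rintro ⟨h1, h2⟩
    apply str_ext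
    intro k P x
    rcases P with P | P
    · have : (redL S).RelMap P x ↔ (redL T).RelMap P x := by rw [h1]
      exact this
    · have : (redR S).RelMap P x ↔ (redR T).RelMap P x := by rw [h2]
      exact this

theorem redL_str {U X : Type} [MeasurableSpace X] (N : Peons (L₁.sum L₂) X) (θ : NE U → X) :
    redL (N.str U θ) = N.reductL.str U θ := by
  apply str_ext; intro k P x; exact Iff.rfl

theorem redR_str {U X : Type} [MeasurableSpace X] (N : Peons (L₁.sum L₂) X) (θ : NE U → X) :
    redR (N.str U θ) = N.reductR.str U θ := by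
  apply str_ext; intro k P x; exact Iff.rfl

theorem redL_tensor_str {U X₁ X₂ : Type} [MeasurableSpace X₁] [MeasurableSpace X₂]
    (N₁ : Peons L₁ X₁) (N₂ : Peons L₂ X₂) (θ : NE U → X₁ × X₂) :
    redL ((N₁.tensor N₂).str U θ) = N₁.str U (fun B => (θ B).1) := by
  apply str_ext; intro k P x; exact Iff.rfl

theorem redR_tensor_str {U X₁ X₂ : Type} [MeasurableSpace X₁] [MeasurableSpace X₂]
    (N₁ : Peons L₁ X₁) (N₂ : Peons L₂ X₂) (θ : NE U → X₁ × X₂) :
    redR ((N₁.tensor N₂).str U θ) = N₂.str U (fun B => (θ B).2) := by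
  apply str_ext; intro k P x; exact Iff.rfl

theorem comapStr_redL {U V : Type} (s : U → V) (S : (L₁.sum L₂).Structure V) :
    comapStr s (redL S) = redL (comapStr s S) := by
  apply str_ext; intro k P x; exact Iff.rfl

theorem comapStr_redR {U V : Type} (s : U → V) (S : (L₁.sum L₂).Structure V) :
    comapStr s (redR S) = redR (comapStr s S) := by
  apply str_ext; intro k P x; exact Iff.rfl

variable [Finite (Σ k, L₁.Relations k)] [Finite (Σ k, L₂.Relations k)]

instance finiteSumRel : Finite (Σ k, (L₁.sum L₂).Relations k) := by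
  let f : (Σ k, (L₁.sum L₂).Relations k) → (Σ k, L₁.Relations k) ⊕ (Σ k, L₂.Relations k) :=
    fun p => match p with
      | ⟨k, Sum.inl P⟩ => Sum.inl ⟨k, P⟩
      | ⟨k, Sum.inr P⟩ => Sum.inr ⟨k, P⟩
  apply Finite.of_injective f
  rintro ⟨k, P | P⟩ ⟨k', P' | P'⟩ h
  · simp only [f, Sum.inl.injEq, Sigma.mk.injEq] at h
    obtain ⟨rfl, h⟩ := h
    rw [eq_of_heq h]
  · simp [f] at h
  · simp [f] at h
  · simp only [f, Sum.inr.injEq, Sigma.mk.injEq] at h
    obtain ⟨rfl, h⟩ := h
    rw [eq_of_heq h]

theorem law_reductL {U X : Type} [Finite U] [MeasurableSpace X] (N : Peons (L₁.sum L₂) X)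
    (μ : Measure X) [IsProbabilityMeasure μ] :
    (N.law μ U).map redL = N.reductL.law μ U := by
  unfold Peons.law
  rw [Measure.map_map (measurable_of_countable _) (measurable_str N U)]
  rfl

theorem law_reductR {U X : Type} [Finite U] [MeasurableSpace X] (N : Peons (L₁.sum L₂) X)
    (μ : Measure X) [IsProbabilityMeasure μ] :
    (N.law μ U).map redR = N.reductR.law μ U := by
  unfold Peons.law
  rw [Measure.map_map (measurable_of_countable _) (measurable_str N U)]
  rfl

theorem law_tensor {U X₁ X₂ : Type} [Finite U] [MeasurableSpace X₁] [MeasurableSpace X₂]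
    (N₁ : Peons L₁ X₁) (N₂ : Peons L₂ X₂) (μ₁ : Measure X₁) (μ₂ : Measure X₂)
    [IsProbabilityMeasure μ₁] [IsProbabilityMeasure μ₂] (M : (L₁.sum L₂).Structure U) :
    (N₁.tensor N₂).law (μ₁.prod μ₂) U {M} = N₁.law μ₁ U {redL M} * N₂.law μ₂ U {redR M} := by
  classical
  have : Finite (NE U) := inferInstance
  have : Fintype (NE U) := Fintype.ofFinite _
  unfold Peons.law
  rw [Measure.map_apply (measurable_str _ U) (by trivial),
    Measure.map_apply (measurable_str _ U) (by trivial),
    Measure.map_apply (measurable_str _ U) (by trivial)]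
  unfold iid
  rw [Measure.infinitePi_eq_pi, Measure.infinitePi_eq_pi, Measure.infinitePi_eq_pi]
  rw [← Measure.prod_prod]
  have hmp := measurePreserving_arrowProdEquivProdArrow X₁ X₂ (NE U) (fun _ => μ₁) (fun _ => μ₂)
  rw [← hmp.measure_preimage]
  · congr 1
    ext θ
    rw [Set.mem_preimage, Set.mem_singleton_iff, sum_str_ext, redL_tensor_str, redR_tensor_str]
    rfl
  · exact (((measurable_str _ U) (by trivial)).prod ((measurable_str _ U) (by trivial))).nullMeasurableSet

/-- the tensor limit depends only on the two limits -/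
theorem tensor_limit_congr {X₁ X₂ X₁' X₂' : Type} [MeasurableSpace X₁] [MeasurableSpace X₂]
    [MeasurableSpace X₁'] [MeasurableSpace X₂']
    (N₁ : Peons L₁ X₁) (N₂ : Peons L₂ X₂) (μ₁ : Measure X₁) (μ₂ : Measure X₂)
    [IsProbabilityMeasure μ₁] [IsProbabilityMeasure μ₂]
    (N₁' : Peons L₁ X₁') (N₂' : Peons L₂ X₂') (μ₁' : Measure X₁') (μ₂' : Measure X₂')
    [IsProbabilityMeasure μ₁'] [IsProbabilityMeasure μ₂']
    (h₁ : N₁.limit μ₁ = N₁'.limit μ₁') (h₂ : N₂.limit μ₂ = N₂'.limit μ₂') :
    (N₁.tensor N₂).limit (μ₁.prod μ₂) = (N₁'.tensor N₂').limit (μ₁'.prod μ₂') := by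
  rw [limit_eq_iff] at h₁ h₂ ⊢
  intro m
  have : Countable ((L₁.sum L₂).Structure (Fin m)) := Finite.to_countable
  apply Measure.ext_of_singleton
  intro M
  rw [law_tensor, law_tensor, h₁ m, h₂ m]

end

end Pool.Agent.UC
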